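import Pool.Agent.Lib.MP_686cbb_pr.Union

/-!
# Asymptotic estimates for the union bounds
-/

namespace SingG

open Finset Filter

/-- The parameter `m`. -/
noncomputable def mm (n : ℕ) : ℕ := ⌊(640 : ℝ) * n / Real.log n⌋₊

theorem mm_le (n : ℕ) : (mm n : ℝ) ≤ 640 * n / Real.log n := by
  unfold mm
  apply Nat.floor_le
  apply div_nonneg (by positivity)
  exact Real.log_natCast_nonneg n

theorem mm_ge : ∀ᶠ n : ℕ in atTop, 320 * n / Real.log n ≤ (mm n : ℝ) := by
  have h1 : ∀ᶠ x : ℝ in atTop, Real.log x ≤ x := by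
    filter_upwards [eventually_gt_atTop 0] with x hx
    exact (Real.log_le_sub_one_of_pos hx).trans (by linarith)
  have h1' := tendsto_natCast_atTop_atTop (R := ℝ) |>.eventually h1
  filter_upwards [h1', eventually_gt_atTop 2] with n hn hn2
  have hn0 : (0 : ℝ) < n := by
    have : 0 < n := by omega
    exact_mod_cast this
  have hL : 0 < Real.log n := Real.log_pos (by
    have : 1 < n := by omega
    exact_mod_cast this)
  have h2 : (640 : ℝ) * n / Real.log n - 1 < mm n := by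
    unfold mm
    exact Nat.sub_one_lt_floor _
  have h3 : 1 ≤ n / Real.log n := by
    rw [one_le_div hL]
    exact hn
  have h4 : (640 : ℝ) * n / Real.log n = 640 * (n / Real.log n) := by ring
  have h5 : (320 : ℝ) * n / Real.log n = 320 * (n / Real.log n) := by ring
  rw [h4] at h2
  rw [h5]
  linarith

theorem log_pow_le (s r A : ℝ) (hr : 0 < r) (hA : 0 < A) :
    ∀ᶠ n : ℕ in atTop, A * Real.log n ^ s ≤ (n : ℝ) ^ r := by
  have h := (isLittleO_log_rpow_rpow_atTop s hr).bound (inv_pos.2 hA)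
  have h' := tendsto_natCast_atTop_atTop (R := ℝ) |>.eventually h
  filter_upwards [h', eventually_gt_atTop 2] with n hn hn2
  have hn0 : (0 : ℝ) < n := by
    have : 0 < n := by omega
    exact_mod_cast this
  have hL : 0 < Real.log n := Real.log_pos (by
    have : 1 < n := by omega
    exact_mod_cast this)
  rw [Real.norm_of_nonneg (by positivity), Real.norm_of_nonneg (by positivity)] at hn
  calc A * Real.log n ^ s ≤ A * (A⁻¹ * (n : ℝ) ^ r) := mul_le_mul_of_nonneg_left hn hA.le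
    _ = (n : ℝ) ^ r := by field_simp

theorem basic : ∀ᶠ n : ℕ in atTop, 32 ≤ mm n ∧ 1 < Real.log n ∧
    (8 * n * (32 / mm n * Real.sqrt (32 / mm n)) ≤ 1) ∧
    bb n (mm n) ((n : ℝ) ^ (1 / 8 : ℝ)) ≤ (n : ℝ) ^ (-(1 / 64) : ℝ) ∧
    Real.log n / 2 ≤ Real.log (mm n) := by
  filter_upwards [mm_ge, eventually_gt_atTop 3, log_pow_le (3 / 2) (1 / 2) 8 (by norm_num)
    (by norm_num), log_pow_le (9 / 8) (1 / 64) 4 (by norm_num) (by norm_num),
    log_pow_le 1 (1 / 2) 1 (by norm_num) (by norm_num), eventually_ge_atTop 16] with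
    n hm hn h1 h2 h3 hn16
  have hn0 : (0 : ℝ) < n := by
    have : 0 < n := by omega
    exact_mod_cast this
  have hL1 : 1 < Real.log n := by
    rw [Real.lt_log_iff_exp_lt hn0]
    have h4 : (4 : ℝ) ≤ n := by
      have : 4 ≤ n := by omega
      exact_mod_cast this
    exact lt_of_lt_of_le (lt_trans Real.exp_one_lt_d9 (by norm_num)) h4
  have hL : 0 < Real.log n := by linarith
  rw [one_mul, Real.rpow_one] at h3
  have hsq : (n : ℝ) ^ (1 / 2 : ℝ) * (n : ℝ) ^ (1 / 2 : ℝ) = n := by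
    rw [← Real.rpow_add hn0]
    norm_num
  have hmbig : (n : ℝ) ^ (1 / 2 : ℝ) * 320 ≤ mm n := by
    refine le_trans ?_ hm
    rw [le_div_iff₀ hL]
    have h5 : (n : ℝ) ^ (1 / 2 : ℝ) * Real.log n ≤ (n : ℝ) ^ (1 / 2 : ℝ) * (n : ℝ) ^ (1 / 2 : ℝ) :=
      mul_le_mul_of_nonneg_left h3 (by positivity)
    rw [hsq] at h5
    nlinarith
  have hone : (1 : ℝ) ≤ (n : ℝ) ^ (1 / 2 : ℝ) := by linarith
  have hm320 : (320 : ℝ) ≤ mm n := by linarith
  have hm0 : (0 : ℝ) < mm n := by linarith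
  have h32 : 32 / (mm n : ℝ) ≤ Real.log n / n := by
    rw [div_le_div_iff₀ hm0 hn0]
    have h6 : 320 * n ≤ (mm n : ℝ) * Real.log n := by
      rw [div_le_iff₀ hL] at hm
      exact hm
    nlinarith
  have hprod : 32 / (mm n : ℝ) * Real.sqrt (32 / mm n) ≤
      Real.log n ^ (3 / 2 : ℝ) / (n : ℝ) ^ (3 / 2 : ℝ) := by
    rw [← Real.div_rpow hL.le hn0.le]
    have h7 : (Real.log n / n) ^ (3 / 2 : ℝ) = (Real.log n / n) * Real.sqrt (Real.log n / n) := by
      rw [Real.sqrt_eq_rpow]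
      have h8 : 0 < Real.log n / n := by positivity
      conv_rhs => rw [← Real.rpow_one (Real.log n / n)]
      rw [← Real.rpow_mul h8.le, ← Real.rpow_add h8]
      norm_num
    rw [h7]
    apply mul_le_mul h32 (Real.sqrt_le_sqrt h32) (by positivity) (by positivity)
  refine ⟨?_, hL1, ?_, ?_, ?_⟩
  · have : (32 : ℝ) ≤ mm n := by linarith
    exact_mod_cast this
  · calc 8 * n * (32 / (mm n : ℝ) * Real.sqrt (32 / mm n))
        ≤ 8 * n * (Real.log n ^ (3 / 2 : ℝ) / (n : ℝ) ^ (3 / 2 : ℝ)) :=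
          mul_le_mul_of_nonneg_left hprod (by positivity)
      _ = (8 * Real.log n ^ (3 / 2 : ℝ)) * (n / (n : ℝ) ^ (3 / 2 : ℝ)) := by ring
      _ ≤ (n : ℝ) ^ (1 / 2 : ℝ) * (n / (n : ℝ) ^ (3 / 2 : ℝ)) :=
          mul_le_mul_of_nonneg_right h1 (by positivity)
      _ = 1 := by
          have : (n : ℝ) ^ (3 / 2 : ℝ) = (n : ℝ) ^ (1 / 2 : ℝ) * n := by
            conv_rhs => rw [← Real.rpow_one (n : ℝ), ← Real.rpow_mul hn0.le]
            rw [← Real.rpow_add hn0]
            norm_num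
          rw [this]
          field_simp
  · unfold bb
    have h9 : (4 * (n : ℝ) ^ (1 / 8 : ℝ) * (32 / (mm n : ℝ) * Real.sqrt (32 / mm n))) ^
        (3 / 4 : ℝ) ≤ (4 * (n : ℝ) ^ (1 / 8 : ℝ) *
          (Real.log n ^ (3 / 2 : ℝ) / (n : ℝ) ^ (3 / 2 : ℝ))) ^ (3 / 4 : ℝ) := by
      apply Real.rpow_le_rpow (by positivity) _ (by norm_num)
      exact mul_le_mul_of_nonneg_left hprod (by positivity)
    have h10 : (4 * (n : ℝ) ^ (1 / 8 : ℝ) *
          (Real.log n ^ (3 / 2 : ℝ) / (n : ℝ) ^ (3 / 2 : ℝ))) ^ (3 / 4 : ℝ) =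
        4 ^ (3 / 4 : ℝ) * Real.log n ^ (9 / 8 : ℝ) * (n : ℝ) ^ (-(33 / 32) : ℝ) := by
      have h11 : 4 * (n : ℝ) ^ (1 / 8 : ℝ) *
          (Real.log n ^ (3 / 2 : ℝ) / (n : ℝ) ^ (3 / 2 : ℝ)) =
          4 * (Real.log n ^ (3 / 2 : ℝ) * (n : ℝ) ^ (-(11 / 8) : ℝ)) := by
        have : (n : ℝ) ^ (-(11 / 8) : ℝ) = (n : ℝ) ^ (1 / 8 : ℝ) / (n : ℝ) ^ (3 / 2 : ℝ) := by
          rw [← Real.rpow_sub hn0]
          norm_num
        rw [this]
        ring
      rw [h11, Real.mul_rpow (by norm_num) (by positivity), Real.mul_rpow (by positivity)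
        (by positivity), ← Real.rpow_mul hL.le, ← Real.rpow_mul hn0.le]
      norm_num
      ring
    have h12 : (4 : ℝ) ^ (3 / 4 : ℝ) ≤ 4 := by
      conv_rhs => rw [← Real.rpow_one (4 : ℝ)]
      exact Real.rpow_le_rpow_of_exponent_le (by norm_num) (by norm_num)
    calc (n : ℝ) * (4 * (n : ℝ) ^ (1 / 8 : ℝ) * (32 / (mm n : ℝ) *
          Real.sqrt (32 / mm n))) ^ (3 / 4 : ℝ)
        ≤ n * (4 ^ (3 / 4 : ℝ) * Real.log n ^ (9 / 8 : ℝ) * (n : ℝ) ^ (-(33 / 32) : ℝ)) := by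
          rw [← h10]
          exact mul_le_mul_of_nonneg_left h9 hn0.le
      _ ≤ n * ((n : ℝ) ^ (1 / 64 : ℝ) * (n : ℝ) ^ (-(33 / 32) : ℝ)) := by
          apply mul_le_mul_of_nonneg_left _ hn0.le
          apply mul_le_mul_of_nonneg_right _ (by positivity)
          refine le_trans ?_ h2
          exact mul_le_mul_of_nonneg_right h12 (by positivity)
      _ = (n : ℝ) ^ (-(1 / 64) : ℝ) := by
          rw [← Real.rpow_add hn0]
          nth_rewrite 1 [← Real.rpow_one (n : ℝ)]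
          rw [← Real.rpow_add hn0]
          norm_num
  · have h13 : (n : ℝ) ^ (1 / 2 : ℝ) ≤ mm n := by linarith
    have h14 := Real.log_le_log (by positivity) h13
    rw [Real.log_rpow hn0] at h14
    linarith

theorem mid_bound : ∀ᶠ n : ℕ in atTop,
    (4 : ℝ) ^ n * (1 / Real.sqrt (mm n)) ^ (mm n) ≤ (3 / 8) ^ n := by
  filter_upwards [basic, mm_ge, eventually_gt_atTop 3] with n hb hm hn
  obtain ⟨hm32, hL1, _, _, hlog⟩ := hb
  have hn0 : (0 : ℝ) < n := by
    have : 0 < n := by omega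
    exact_mod_cast this
  have hm0 : (0 : ℝ) < mm n := by
    have : 0 < mm n := by omega
    exact_mod_cast this
  have hL : 0 < Real.log n := by linarith
  have e1 : (1 / Real.sqrt (mm n)) ^ (mm n) = Real.exp (-(mm n / 2 * Real.log (mm n))) := by
    rw [one_div, ← Real.exp_log (inv_pos.2 (Real.sqrt_pos.2 hm0)), ← Real.exp_nat_mul,
      Real.log_inv, Real.log_sqrt hm0.le]
    congr 1
    ring
  have e2 : (4 : ℝ) ^ n = Real.exp (n * Real.log 4) := by
    rw [Real.exp_nat_mul, Real.exp_log (by norm_num)]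
  have e3 : ((3 : ℝ) / 8) ^ n = Real.exp (n * Real.log (3 / 8)) := by
    rw [Real.exp_nat_mul, Real.exp_log (by norm_num)]
  rw [e1, e2, e3, ← Real.exp_add]
  apply Real.exp_le_exp.2
  have h1 : 320 * n ≤ (mm n : ℝ) * Real.log n := by
    rw [div_le_iff₀ hL] at hm
    exact hm
  have h2 : (mm n : ℝ) * Real.log n / 4 ≤ mm n / 2 * Real.log (mm n) := by
    have := mul_le_mul_of_nonneg_left hlog hm0.le
    linarith
  have h3 : Real.log 4 ≤ 3 := by
    have := Real.log_le_sub_one_of_pos (show (0 : ℝ) < 4 by norm_num)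
    linarith
  have h4 : -(2 : ℝ) ≤ Real.log (3 / 8) := by
    have := Real.log_le_sub_one_of_pos (show (0 : ℝ) < 8 / 3 by norm_num)
    have h5 : Real.log (3 / 8) = -Real.log (8 / 3) := by
      rw [← Real.log_inv]
      norm_num
    linarith
  nlinarith

theorem pat_bound : ∀ᶠ n : ℕ in atTop,
    8 * (16 : ℝ) ^ n * bb n (mm n) ((n : ℝ) ^ (1 / 8 : ℝ)) ^ (mm n) ≤ (3 / 8) ^ n := by
  filter_upwards [basic, mm_ge, eventually_gt_atTop 3] with n hb hm hn
  obtain ⟨hm32, hL1, _, hbb, _⟩ := hb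
  have hn0 : (0 : ℝ) < n := by
    have : 0 < n := by omega
    exact_mod_cast this
  have hL : 0 < Real.log n := by linarith
  have hbb0 : 0 ≤ bb n (mm n) ((n : ℝ) ^ (1 / 8 : ℝ)) := by
    unfold bb
    positivity
  have h1 : bb n (mm n) ((n : ℝ) ^ (1 / 8 : ℝ)) ^ (mm n) ≤ Real.exp (-(5 * n)) := by
    calc bb n (mm n) ((n : ℝ) ^ (1 / 8 : ℝ)) ^ (mm n)
        ≤ ((n : ℝ) ^ (-(1 / 64) : ℝ)) ^ (mm n) := pow_le_pow_left₀ hbb0 hbb _
      _ = Real.exp (-(mm n * Real.log n / 64)) := by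
          rw [Real.rpow_def_of_pos hn0, ← Real.exp_nat_mul]
          congr 1
          ring
      _ ≤ Real.exp (-(5 * n)) := by
          apply Real.exp_le_exp.2
          have h1 : 320 * n ≤ (mm n : ℝ) * Real.log n := by
            rw [div_le_iff₀ hL] at hm
            exact hm
          linarith
  have e2 : (16 : ℝ) ^ n = Real.exp (n * Real.log 16) := by
    rw [Real.exp_nat_mul, Real.exp_log (by norm_num)]
  have e3 : ((3 : ℝ) / 8) ^ n = Real.exp (n * Real.log (3 / 8)) := by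
    rw [Real.exp_nat_mul, Real.exp_log (by norm_num)]
  have e4 : (8 : ℝ) = Real.exp (Real.log 8) := by rw [Real.exp_log (by norm_num)]
  have hlog2 := Real.log_two_lt_d9
  have l16 : Real.log 16 = 4 * Real.log 2 := by
    rw [show (16 : ℝ) = 2 ^ 4 by norm_num, Real.log_pow]
    norm_num
  have l8 : Real.log 8 = 3 * Real.log 2 := by
    rw [show (8 : ℝ) = 2 ^ 3 by norm_num, Real.log_pow]
    norm_num
  have l38 : -(1.2 : ℝ) ≤ Real.log (3 / 8) := by
    have h5 : Real.log (3 / 8) = Real.log 3 - Real.log 8 := by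
      rw [Real.log_div (by norm_num) (by norm_num)]
    have h6 : (1 : ℝ) ≤ Real.log 3 := by
      rw [Real.le_log_iff_exp_le (by norm_num)]
      exact (Real.exp_one_lt_d9.trans (by norm_num)).le
    rw [h5, l8]
    linarith
  calc 8 * (16 : ℝ) ^ n * bb n (mm n) ((n : ℝ) ^ (1 / 8 : ℝ)) ^ (mm n)
      ≤ 8 * (16 : ℝ) ^ n * Real.exp (-(5 * n)) :=
        mul_le_mul_of_nonneg_left h1 (by positivity)
    _ = Real.exp (Real.log 8 + n * Real.log 16 - 5 * n) := by
        nth_rewrite 1 [e4]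
        rw [e2, ← Real.exp_add, ← Real.exp_add]
        congr 1
    _ ≤ (3 / 8) ^ n := by
        rw [e3]
        apply Real.exp_le_exp.2
        rw [l8, l16]
        have h4 : (4 : ℝ) ≤ n := by
          have : 4 ≤ n := by omega
          exact_mod_cast this
        nlinarith

theorem small_bound (ε : ℝ) (hε : 0 < ε) : ∃ x : ℝ, 0 < x ∧ x ≤ 1 ∧ ∀ᶠ n : ℕ in atTop,
    ((1 + x) ^ n / x ^ (mm n)) ^ 2 * (3 / 8 : ℝ) ^ (n - 2 * mm n) ≤ (3 / 8 + ε) ^ n := by
  set x : ℝ := min 1 (ε / 3) with hx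
  have hx0 : 0 < x := lt_min one_pos (by positivity)
  have hx1 : x ≤ 1 := min_le_left _ _
  have hx3 : x ≤ ε / 3 := min_le_right _ _
  refine ⟨x, hx0, hx1, ?_⟩
  set Y : ℝ := (8 / (3 * x)) ^ 2 with hY
  have hY1 : 1 < Y := by
    rw [hY]
    apply one_lt_pow₀ _ (by norm_num)
    rw [one_lt_div (by positivity)]
    linarith
  have hY0 : 0 < Y := by linarith
  set r : ℝ := (3 / 8 + ε) / (3 / 8 + 3 * ε / 8) with hr
  have hr1 : 1 < r := by
    rw [hr, one_lt_div (by positivity)]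
    linarith
  have hlr : 0 < Real.log r := Real.log_pos hr1
  have hlY : 0 < Real.log Y := Real.log_pos hY1
  have hbig : ∀ᶠ n : ℕ in atTop, 640 * Real.log Y / Real.log r ≤ Real.log n ∧
      1280 ≤ Real.log n := by
    have := Real.tendsto_log_atTop.comp (tendsto_natCast_atTop_atTop (R := ℝ))
    exact (this.eventually_ge_atTop _).and (this.eventually_ge_atTop _)
  filter_upwards [hbig, eventually_gt_atTop 3] with n hn hn3
  obtain ⟨hn1, hn2⟩ := hn
  have hn0 : (0 : ℝ) < n := by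
    have : 0 < n := by omega
    exact_mod_cast this
  have hL : 0 < Real.log n := by linarith
  have hmle := mm_le n
  have h2m : 2 * mm n ≤ n := by
    have : (2 * mm n : ℝ) ≤ n := by
      have h1 : 2 * (640 * n / Real.log n) ≤ n := by
        rw [← mul_div_assoc, div_le_iff₀ hL]
        nlinarith
      linarith
    exact_mod_cast this
  have hsplit : (3 / 8 : ℝ) ^ (n - 2 * mm n) = (3 / 8) ^ n * ((8 / 3) ^ 2) ^ (mm n) := by
    have h1 : (3 / 8 : ℝ) ^ n = (3 / 8) ^ (n - 2 * mm n) * (3 / 8) ^ (2 * mm n) := by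
      rw [← pow_add]
      congr 1
      omega
    rw [h1, mul_assoc, pow_mul, ← mul_pow]
    norm_num
  have hYm : Y ^ (mm n) ≤ r ^ n := by
    have e1 : Y ^ (mm n) = Real.exp (mm n * Real.log Y) := by
      rw [Real.exp_nat_mul, Real.exp_log hY0]
    have e2 : r ^ n = Real.exp (n * Real.log r) := by
      rw [Real.exp_nat_mul, Real.exp_log (by linarith)]
    rw [e1, e2]
    apply Real.exp_le_exp.2
    have h1 : (mm n : ℝ) * Real.log Y ≤ 640 * n / Real.log n * Real.log Y :=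
      mul_le_mul_of_nonneg_right hmle hlY.le
    refine h1.trans ?_
    rw [div_mul_eq_mul_div, div_le_iff₀ hL]
    rw [div_le_iff₀ hlr] at hn1
    nlinarith
  have hbase : (1 + x) ^ 2 * (3 / 8) ≤ 3 / 8 + 3 * ε / 8 := by nlinarith
  calc ((1 + x) ^ n / x ^ (mm n)) ^ 2 * (3 / 8 : ℝ) ^ (n - 2 * mm n)
      = ((1 + x) ^ 2 * (3 / 8)) ^ n * Y ^ (mm n) := by
        have i1 : ((1 + x) ^ 2 * (3 / 8)) ^ n = ((1 + x) ^ n) ^ 2 * (3 / 8) ^ n := by
          rw [mul_pow, ← pow_mul, mul_comm 2 n, pow_mul]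
        have i2 : Y ^ (mm n) = ((8 / 3) ^ 2) ^ (mm n) / (x ^ (mm n)) ^ 2 := by
          rw [hY, show (8 / (3 * x)) ^ 2 = (8 / 3) ^ 2 / x ^ 2 by field_simp, div_pow,
            ← pow_mul x 2, mul_comm 2 (mm n), pow_mul x (mm n) 2]
        rw [hsplit, i1, i2, div_pow]
        ring
    _ ≤ (3 / 8 + 3 * ε / 8) ^ n * r ^ n := by
        apply mul_le_mul _ hYm (by positivity) (by positivity)
        exact pow_le_pow_left₀ (by positivity) hbase _
    _ = (3 / 8 + ε) ^ n := by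
        rw [← mul_pow, hr]
        congr 1
        field_simp

end SingG
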