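import Mathlib

/-!
# Littlewood-Offord bounds

Elementary concentration bounds for subset sums (Erdos; Sarkozy-Szemeredi with multiplicities).
-/

namespace SingG

open Finset

/-- Sperner for a family of subsets of a finset. -/
theorem sperner_on {ι : Type*} [DecidableEq ι] (F : Finset ι) (A : Finset (Finset ι))
    (h : ∀ x ∈ A, x ⊆ F) (hA : ∀ x ∈ A, ∀ y ∈ A, x ⊆ y → x = y) :
    A.card ≤ F.card.choose (F.card / 2) := by
  classical
  set f : Finset ι → Finset F := fun x => x.subtype (· ∈ F) with hf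
  have hinj : Set.InjOn f A := by
    intro x hx y hy hxy
    have hx' := h x hx
    have hy' := h y hy
    ext a
    constructor
    · intro ha
      have : (⟨a, hx' ha⟩ : F) ∈ f x := by simp [hf, ha]
      rw [hxy] at this
      simpa [hf] using this
    · intro ha
      have : (⟨a, hy' ha⟩ : F) ∈ f y := by simp [hf, ha]
      rw [← hxy] at this
      simpa [hf] using this
  have hcard : (A.image f).card = A.card := Finset.card_image_of_injOn hinj
  have hanti : IsAntichain (· ⊆ ·) ((A.image f : Finset (Finset F)) : Set (Finset F)) := by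
    intro s hs t ht hne hst
    simp only [coe_image, Set.mem_image, mem_coe] at hs ht
    obtain ⟨x, hx, rfl⟩ := hs
    obtain ⟨y, hy, rfl⟩ := ht
    apply hne
    have : x ⊆ y := by
      intro a ha
      have h1 : (⟨a, h x hx ha⟩ : F) ∈ f x := by simp [hf, ha]
      have h2 := hst h1
      simpa [hf] using h2
    rw [hA x hx y hy this]
  have := hanti.sperner
  rw [hcard] at this
  simpa using this

/-- Sperner window bound: weights at least `A`, all sums within less than `A`. -/
theorem window {ι : Type*} [DecidableEq ι] (F : Finset ι) (u : ι → ℝ) (A : ℝ) (hA : 0 < A)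
    (hu : ∀ i ∈ F, A ≤ u i) (P : Finset ι → Prop) [DecidablePred P]
    (hP : ∀ x ⊆ F, ∀ y ⊆ F, P x → P y → ∑ i ∈ y, u i < ∑ i ∈ x, u i + A) :
    (F.powerset.filter P).card ≤ F.card.choose (F.card / 2) := by
  classical
  apply sperner_on F
  · intro x hx
    exact Finset.mem_powerset.1 (Finset.mem_filter.1 hx).1
  · intro x hx y hy hxy
    simp only [mem_filter, mem_powerset] at hx hy
    by_contra hne
    obtain ⟨a, hay, hax⟩ := Finset.exists_of_ssubset (Finset.ssubset_iff_subset_ne.2 ⟨hxy, hne⟩)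
    have h1 : insert a x ⊆ y := Finset.insert_subset hay hxy
    have h2 : ∑ i ∈ insert a x, u i ≤ ∑ i ∈ y, u i := by
      apply Finset.sum_le_sum_of_subset_of_nonneg h1
      intro i hi _
      exact le_trans hA.le (hu i (hy.1 hi))
    rw [Finset.sum_insert hax] at h2
    have h3 := hu a (hy.1 hay)
    linarith [hP x hx.1 y hy.1 hx.2 hy.2]

/-- Flipping signs. -/
theorem flip_card {ι : Type*} [DecidableEq ι] (F : Finset ι) (u : ι → ℝ) (t : ℝ) :
    (F.powerset.filter (fun x => ∑ i ∈ x, u i = t)).card =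
      (F.powerset.filter (fun x => ∑ i ∈ x, |u i| =
        t - ∑ i ∈ F.filter (fun i => u i < 0), u i)).card := by
  classical
  set Ng := F.filter (fun i => u i < 0) with hNg
  have key : ∀ x ⊆ F, ∑ i ∈ symmDiff x Ng, |u i| = ∑ i ∈ x, u i - ∑ i ∈ Ng, u i := by
    intro x hx
    have h1 : ∑ i ∈ symmDiff x Ng, |u i| = ∑ i ∈ F, (if i ∈ symmDiff x Ng then |u i| else 0) := by
      rw [← Finset.sum_filter]
      apply Finset.sum_congr _ (fun _ _ => rfl)
      ext i
      simp only [mem_filter, Finset.mem_symmDiff]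
      constructor
      · intro h
        refine ⟨?_, h⟩
        rcases h with h | h
        · exact hx h.1
        · exact (Finset.mem_filter.1 h.1).1
      · exact fun h => h.2
    have h2 : ∑ i ∈ x, u i = ∑ i ∈ F, (if i ∈ x then u i else 0) := by
      rw [← Finset.sum_filter]
      apply Finset.sum_congr _ (fun _ _ => rfl)
      ext i
      simp only [mem_filter]
      exact ⟨fun h => ⟨hx h, h⟩, fun h => h.2⟩
    have h3 : ∑ i ∈ Ng, u i = ∑ i ∈ F, (if i ∈ Ng then u i else 0) := by
      rw [← Finset.sum_filter]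
      apply Finset.sum_congr _ (fun _ _ => rfl)
      ext i
      simp only [mem_filter, hNg]
      tauto
    rw [h1, h2, h3, ← Finset.sum_sub_distrib]
    apply Finset.sum_congr rfl
    intro i hi
    by_cases hix : i ∈ x <;> by_cases hin : i ∈ Ng
    · have : i ∉ symmDiff x Ng := by simp [Finset.mem_symmDiff, hix, hin]
      simp [this, hix, hin]
    · have : i ∈ symmDiff x Ng := by simp [Finset.mem_symmDiff, hix, hin]
      have h0 : 0 ≤ u i := by
        by_contra hc
        exact hin (Finset.mem_filter.2 ⟨hi, not_le.1 hc⟩)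
      simp [this, hix, hin, abs_of_nonneg h0]
    · have : i ∈ symmDiff x Ng := by simp [Finset.mem_symmDiff, hix, hin]
      have h0 : u i < 0 := (Finset.mem_filter.1 hin).2
      simp [this, hix, hin, abs_of_neg h0]
    · have : i ∉ symmDiff x Ng := by simp [Finset.mem_symmDiff, hix, hin]
      simp [this, hix, hin]
  have hsub : Ng ⊆ F := Finset.filter_subset _ _
  have hsd : ∀ x ⊆ F, symmDiff x Ng ⊆ F := by
    intro x hx i hi
    rw [Finset.mem_symmDiff] at hi
    rcases hi with h | h
    · exact hx h.1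
    · exact hsub h.1
  apply Finset.card_bij (fun x _ => symmDiff x Ng)
  · intro x hx
    simp only [mem_filter, mem_powerset] at hx ⊢
    exact ⟨hsd x hx.1, by rw [key x hx.1, hx.2]⟩
  · intro x hx y hy hxy
    exact symmDiff_left_injective Ng hxy
  · intro y hy
    simp only [mem_filter, mem_powerset] at hy
    refine ⟨symmDiff y Ng, ?_, ?_⟩
    · simp only [mem_filter, mem_powerset]
      refine ⟨hsd y hy.1, ?_⟩
      have := key (symmDiff y Ng) (hsd y hy.1)
      rw [symmDiff_assoc, symmDiff_self, symmDiff_bot] at this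
      rw [hy.2] at this
      linarith
    · rw [symmDiff_assoc, symmDiff_self, symmDiff_bot]

/-- Splitting off a subset: a fiberwise bound gives a global bound. -/
theorem split_card {ι : Type*} [DecidableEq ι] (F Y : Finset ι) (hY : Y ⊆ F) (u : ι → ℝ)
    (B : ℝ) (hB : ∀ t : ℝ, ((Y.powerset.filter (fun x => ∑ i ∈ x, u i = t)).card : ℝ) ≤ B)
    (t : ℝ) :
    ((F.powerset.filter (fun x => ∑ i ∈ x, u i = t)).card : ℝ) ≤ 2 ^ (F.card - Y.card) * B := by
  classical
  have h1 : ∀ x ∈ F.powerset.filter (fun x => ∑ i ∈ x, u i = t), x \ Y ∈ (F \ Y).powerset := by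
    intro x hx
    simp only [mem_filter, mem_powerset] at hx ⊢
    exact Finset.sdiff_subset_sdiff hx.1 (Finset.Subset.refl _)
  rw [Finset.card_eq_sum_card_fiberwise h1]
  push_cast
  calc ∑ z ∈ (F \ Y).powerset,
        ((((F.powerset.filter (fun x => ∑ i ∈ x, u i = t)).filter
          (fun x => x \ Y = z)).card : ℕ) : ℝ)
      ≤ ∑ z ∈ (F \ Y).powerset, B := by
        apply Finset.sum_le_sum
        intro z hz
        refine le_trans (Nat.cast_le.2 ?_) (hB (t - ∑ i ∈ z, u i))
        apply Finset.card_le_card_of_injOn (fun x => x ∩ Y)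
        · intro x hx
          simp only [coe_filter, mem_filter, mem_powerset, Set.mem_ofPred_eq] at hx ⊢
          refine ⟨Finset.inter_subset_right, ?_⟩
          have h2 : ∑ i ∈ x, u i = ∑ i ∈ x ∩ Y, u i + ∑ i ∈ x \ Y, u i :=
            (Finset.sum_inter_add_sum_sdiff x Y u).symm
          rw [hx.2] at h2
          linarith [hx.1.2]
        · intro x hx y hy hxy
          simp only [coe_filter, mem_filter, mem_powerset, Set.mem_ofPred_eq] at hx hy hxy
          rw [← Finset.sdiff_union_inter x Y, ← Finset.sdiff_union_inter y Y, hx.2, hy.2, hxy]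
    _ = 2 ^ (F.card - Y.card) * B := by
        rw [Finset.sum_const, Finset.card_powerset, Finset.card_sdiff_of_subset hY, nsmul_eq_mul]
        push_cast
        ring

/-- Erdos: nonzero weights. -/
theorem erdos_lo {ι : Type*} [DecidableEq ι] (F : Finset ι) (u : ι → ℝ)
    (hu : ∀ i ∈ F, u i ≠ 0) (t : ℝ) :
    (F.powerset.filter (fun x => ∑ i ∈ x, u i = t)).card ≤ F.card.choose (F.card / 2) := by
  classical
  rw [flip_card]
  apply sperner_on F
  · intro x hx
    exact Finset.mem_powerset.1 (Finset.mem_filter.1 hx).1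
  · intro x hx y hy hxy
    simp only [mem_filter, mem_powerset] at hx hy
    by_contra hne
    obtain ⟨a, hay, hax⟩ := Finset.exists_of_ssubset (Finset.ssubset_iff_subset_ne.2 ⟨hxy, hne⟩)
    have h1 : insert a x ⊆ y := Finset.insert_subset hay hxy
    have h2 : ∑ i ∈ insert a x, |u i| ≤ ∑ i ∈ y, |u i| := by
      apply Finset.sum_le_sum_of_subset_of_nonneg h1
      intro i hi _
      exact abs_nonneg _
    rw [Finset.sum_insert hax] at h2
    have h3 : 0 < |u a| := abs_pos.2 (hu a (hy.1 hay))
    linarith [hx.2, hy.2]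

/-- Choosing two halves separated in size. -/
theorem exists_halves {ι : Type*} [DecidableEq ι] (f : ι → ℝ) (k : ℕ) :
    ∀ Y : Finset ι, 2 * k ≤ Y.card → ∃ Y1 Y2 : Finset ι, Y1 ⊆ Y ∧ Y2 ⊆ Y ∧ Disjoint Y1 Y2 ∧
      Y1.card = k ∧ Y2.card = k ∧ ∀ i ∈ Y1, ∀ j ∈ Y2, f i ≤ f j := by
  classical
  induction k with
  | zero =>
    intro Y _
    exact ⟨∅, ∅, by simp, by simp, by simp, by simp, by simp, by simp⟩
  | succ k ih =>
    intro Y hY
    have hne : Y.Nonempty := Finset.card_pos.1 (by omega)
    obtain ⟨a, ha, hamin⟩ := Finset.exists_min_image Y f hne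
    have hne2 : (Y.erase a).Nonempty := by
      apply Finset.card_pos.1
      rw [Finset.card_erase_of_mem ha]
      omega
    obtain ⟨b, hb, hbmax⟩ := Finset.exists_max_image (Y.erase a) f hne2
    obtain ⟨Y1, Y2, h1, h2, hd, hc1, hc2, hle⟩ := ih ((Y.erase a).erase b) (by
      rw [Finset.card_erase_of_mem hb, Finset.card_erase_of_mem ha]
      omega)
    have hab : a ≠ b := (Finset.ne_of_mem_erase hb).symm
    have haY1 : a ∉ Y1 := fun h => by
      have := h1 h
      simp at this
    have haY2 : a ∉ Y2 := fun h => by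
      have := h2 h
      simp at this
    have hbY1 : b ∉ Y1 := fun h => by
      have := h1 h
      simp at this
    have hbY2 : b ∉ Y2 := fun h => by
      have := h2 h
      simp at this
    have hY1Y : ∀ i ∈ Y1, i ∈ Y := fun i hi => by
      have := h1 hi
      simp only [mem_erase] at this
      exact this.2.2
    have hY2Y : ∀ i ∈ Y2, i ∈ Y := fun i hi => by
      have := h2 hi
      simp only [mem_erase] at this
      exact this.2.2
    have hbY : b ∈ Y := Finset.mem_of_mem_erase hb
    refine ⟨insert a Y1, insert b Y2, ?_, ?_, ?_, ?_, ?_, ?_⟩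
    · exact Finset.insert_subset ha hY1Y
    · exact Finset.insert_subset hbY hY2Y
    · rw [Finset.disjoint_left]
      intro i hi hj
      rw [Finset.mem_insert] at hi hj
      rcases hi with rfl | hi
      · rcases hj with h | h
        · exact hab h
        · exact haY2 h
      · rcases hj with rfl | hj
        · exact hbY1 hi
        · exact (Finset.disjoint_left.1 hd hi hj)
    · rw [Finset.card_insert_of_notMem haY1, hc1]
    · rw [Finset.card_insert_of_notMem hbY2, hc2]
    · intro i hi j hj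
      rw [Finset.mem_insert] at hi hj
      rcases hi with rfl | hi
      · rcases hj with rfl | hj
        · exact hamin _ hbY
        · exact hamin _ (hY2Y j hj)
      · rcases hj with rfl | hj
        · apply hbmax
          have := h1 hi
          simp only [mem_erase] at this ⊢
          exact ⟨this.2.1, this.2.2⟩
        · exact hle i hi j hj

/-- Counting subsets of a disjoint union with sum in a short window. -/
theorem window_union {ι : Type*} [DecidableEq ι] (Y1 Y2 : Finset ι) (hd : Disjoint Y1 Y2)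
    (w : ι → ℝ) (A : ℝ) (hA : 0 < A) (hw : ∀ i ∈ Y2, A ≤ w i)
    (P : ℝ → Prop) [DecidablePred P] (hP : ∀ a b, P a → P b → b < a + A) :
    ((Y1 ∪ Y2).powerset.filter (fun x => P (∑ i ∈ x, w i))).card
      ≤ 2 ^ Y1.card * Y2.card.choose (Y2.card / 2) := by
  classical
  have h1 : ∀ x ∈ (Y1 ∪ Y2).powerset.filter (fun x => P (∑ i ∈ x, w i)),
      x ∩ Y1 ∈ Y1.powerset := by
    intro x hx
    simp only [mem_powerset]
    exact Finset.inter_subset_right
  rw [Finset.card_eq_sum_card_fiberwise h1]
  calc ∑ z ∈ Y1.powerset, (((Y1 ∪ Y2).powerset.filter (fun x => P (∑ i ∈ x, w i))).filter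
          (fun x => x ∩ Y1 = z)).card
      ≤ ∑ z ∈ Y1.powerset, Y2.card.choose (Y2.card / 2) := by
        apply Finset.sum_le_sum
        intro z hz
        refine le_trans ?_ (window Y2 w A hA hw (fun y => P (∑ i ∈ z, w i + ∑ i ∈ y, w i)) ?_)
        · apply Finset.card_le_card_of_injOn (fun x => x ∩ Y2)
          · intro x hx
            simp only [coe_filter, mem_filter, mem_powerset, Set.mem_ofPred_eq] at hx ⊢
            refine ⟨Finset.inter_subset_right, ?_⟩
            have h2 : ∑ i ∈ x, w i = ∑ i ∈ x ∩ Y1, w i + ∑ i ∈ x ∩ Y2, w i := by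
              rw [← Finset.sum_union]
              · rw [← Finset.inter_union_distrib_left, Finset.inter_eq_left.2 hx.1.1]
              · exact Finset.disjoint_of_subset_left Finset.inter_subset_right
                  (Finset.disjoint_of_subset_right Finset.inter_subset_right hd)
            rw [← hx.2, ← h2]
            exact hx.1.2
          · intro x hx y hy hxy
            simp only [coe_filter, mem_filter, mem_powerset, Set.mem_ofPred_eq] at hx hy hxy
            rw [← Finset.inter_eq_left.2 hx.1.1, ← Finset.inter_eq_left.2 hy.1.1,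
              Finset.inter_union_distrib_left, Finset.inter_union_distrib_left, hx.2, hy.2, hxy]
        · intro x _ y _ hx hy
          have := hP _ _ hx hy
          linarith
    _ = 2 ^ Y1.card * Y2.card.choose (Y2.card / 2) := by
        rw [Finset.sum_const, Finset.card_powerset, smul_eq_mul]

/-- Core two-halves bound, positive weights. -/
theorem core_bound {ι : Type*} [DecidableEq ι] (Y1 Y2 : Finset ι) (hd : Disjoint Y1 Y2)
    (w : ι → ℝ) (A : ℝ) (hA : 0 < A) (hw0 : ∀ i ∈ Y1, 0 < w i) (hw1 : ∀ i ∈ Y1, w i ≤ A)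
    (hw : ∀ i ∈ Y2, A ≤ w i) (T : ℝ) (hT0 : 0 ≤ T)
    (hT : ∀ c : ℝ, ((Y1.filter (fun i => w i = c)).card : ℝ) ≤ T) (t : ℝ) :
    (Y1.card : ℝ) * ((Y1 ∪ Y2).powerset.filter (fun x => ∑ i ∈ x, w i = t)).card
      ≤ 4 * T * (2 ^ Y1.card * Y2.card.choose (Y2.card / 2)) := by
  classical
  set F := Y1 ∪ Y2 with hF
  set S := F.powerset.filter (fun x => ∑ i ∈ x, w i = t) with hS
  set D : ℝ := 2 ^ Y1.card * Y2.card.choose (Y2.card / 2) with hD
  have hDW : ∀ (P : ℝ → Prop) [DecidablePred P], (∀ a b, P a → P b → b < a + A) →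
      ((F.powerset.filter (fun x => P (∑ i ∈ x, w i))).card : ℝ) ≤ D := by
    intro P _ hP
    have := window_union Y1 Y2 hd w A hA hw P hP
    rw [hD]
    exact_mod_cast this
  -- plus part: remove an element
  have hplus : (∑ x ∈ S, ((x ∩ Y1).card : ℝ)) ≤ T * D := by
    have e1 : ∀ x ∈ S, ((x ∩ Y1).card : ℝ) = ∑ i ∈ Y1, (if i ∈ x then (1 : ℝ) else 0) := by
      intro x _
      rw [Finset.sum_boole, Finset.inter_comm, Finset.filter_mem_eq_inter]
    rw [Finset.sum_congr rfl e1, Finset.sum_comm]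
    have e2 : ∀ i ∈ Y1, (∑ x ∈ S, (if i ∈ x then (1 : ℝ) else 0)) ≤
        ∑ y ∈ F.powerset, (if w i = t - ∑ j ∈ y, w j then (1 : ℝ) else 0) := by
      intro i hi
      rw [Finset.sum_boole, Finset.sum_boole, Nat.cast_le]
      apply Finset.card_le_card_of_injOn (fun x => x.erase i)
      · intro x hx
        simp only [hS, coe_filter, mem_filter, mem_powerset, Set.mem_ofPred_eq] at hx ⊢
        refine ⟨(Finset.erase_subset i x).trans hx.1.1, ?_⟩
        have := Finset.add_sum_erase x w hx.2
        linarith [hx.1.2]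
      · intro x hx y hy hxy
        simp only [hS, coe_filter, mem_filter, mem_powerset, Set.mem_ofPred_eq] at hx hy hxy
        rw [← Finset.insert_erase hx.2, ← Finset.insert_erase hy.2, hxy]
    refine le_trans (Finset.sum_le_sum e2) ?_
    rw [Finset.sum_comm]
    have e3 : ∀ y ∈ F.powerset, (∑ i ∈ Y1, (if w i = t - ∑ j ∈ y, w j then (1 : ℝ) else 0)) ≤
        T * (if (t - A ≤ ∑ j ∈ y, w j ∧ ∑ j ∈ y, w j < t) then (1 : ℝ) else 0) := by
      intro y _
      split_ifs with hc
      · rw [Finset.sum_boole, mul_one]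
        exact hT _
      · rw [mul_zero, Finset.sum_boole]
        have : Y1.filter (fun i => w i = t - ∑ j ∈ y, w j) = ∅ := by
          rw [Finset.filter_eq_empty_iff]
          intro i hi h
          apply hc
          have h1 := hw0 i hi
          have h2 := hw1 i hi
          constructor <;> linarith
        rw [this]
        simp
    refine le_trans (Finset.sum_le_sum e3) ?_
    rw [← Finset.mul_sum, Finset.sum_boole]
    apply mul_le_mul_of_nonneg_left _ hT0
    exact hDW (fun s => t - A ≤ s ∧ s < t) (fun a b ha hb => by linarith [ha.1, hb.2])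
  -- minus part: add an element
  have hminus : (∑ x ∈ S, ((Y1 \ x).card : ℝ)) ≤ T * D := by
    have e1 : ∀ x ∈ S, ((Y1 \ x).card : ℝ) = ∑ i ∈ Y1, (if i ∉ x then (1 : ℝ) else 0) := by
      intro x _
      rw [Finset.sum_boole, Finset.filter_notMem_eq_sdiff]
    rw [Finset.sum_congr rfl e1, Finset.sum_comm]
    have e2 : ∀ i ∈ Y1, (∑ x ∈ S, (if i ∉ x then (1 : ℝ) else 0)) ≤
        ∑ y ∈ F.powerset, (if w i = (∑ j ∈ y, w j) - t then (1 : ℝ) else 0) := by
      intro i hi
      rw [Finset.sum_boole, Finset.sum_boole, Nat.cast_le]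
      apply Finset.card_le_card_of_injOn (fun x => insert i x)
      · intro x hx
        simp only [hS, coe_filter, mem_filter, mem_powerset, Set.mem_ofPred_eq] at hx ⊢
        refine ⟨Finset.insert_subset (Finset.mem_union_left _ hi) hx.1.1, ?_⟩
        rw [Finset.sum_insert hx.2]
        linarith [hx.1.2]
      · intro x hx y hy hxy
        simp only [hS, coe_filter, mem_filter, mem_powerset, Set.mem_ofPred_eq] at hx hy hxy
        rw [← Finset.erase_insert hx.2, ← Finset.erase_insert hy.2, hxy]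
    refine le_trans (Finset.sum_le_sum e2) ?_
    rw [Finset.sum_comm]
    have e3 : ∀ y ∈ F.powerset, (∑ i ∈ Y1, (if w i = (∑ j ∈ y, w j) - t then (1 : ℝ) else 0)) ≤
        T * (if (t < ∑ j ∈ y, w j ∧ ∑ j ∈ y, w j ≤ t + A) then (1 : ℝ) else 0) := by
      intro y _
      split_ifs with hc
      · rw [Finset.sum_boole, mul_one]
        exact hT _
      · rw [mul_zero, Finset.sum_boole]
        have : Y1.filter (fun i => w i = (∑ j ∈ y, w j) - t) = ∅ := by
          rw [Finset.filter_eq_empty_iff]
          intro i hi h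
          apply hc
          have h1 := hw0 i hi
          have h2 := hw1 i hi
          constructor <;> linarith
        rw [this]
        simp
    refine le_trans (Finset.sum_le_sum e3) ?_
    rw [← Finset.mul_sum, Finset.sum_boole]
    apply mul_le_mul_of_nonneg_left _ hT0
    exact hDW (fun s => t < s ∧ s ≤ t + A) (fun a b ha hb => by linarith [ha.1, hb.2])
  have hsum : ∑ x ∈ S, (((x ∩ Y1).card : ℝ) + ((Y1 \ x).card : ℝ)) = Y1.card * S.card := by
    have : ∀ x ∈ S, (((x ∩ Y1).card : ℝ) + ((Y1 \ x).card : ℝ)) = Y1.card := by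
      intro x _
      rw [Finset.inter_comm]
      exact_mod_cast Finset.card_inter_add_card_sdiff Y1 x
    rw [Finset.sum_congr rfl this, Finset.sum_const, nsmul_eq_mul]
    ring
  have hD0 : 0 ≤ D := by positivity
  have hTD : 0 ≤ T * D := mul_nonneg hT0 hD0
  rw [← hsum, Finset.sum_add_distrib]
  linarith

theorem centralBinom_sq (m : ℕ) : (Nat.centralBinom m) ^ 2 * (3 * m + 1) ≤ 16 ^ m := by
  induction m with
  | zero => simp
  | succ m ih =>
    have h := Nat.succ_mul_centralBinom_succ m
    -- (m+1) C(m+1) = 2 (2m+1) C(m)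
    have h1 : ((m + 1) * Nat.centralBinom (m + 1)) ^ 2 * (3 * (m + 1) + 1) * (3 * m + 1)
        ≤ (m + 1) ^ 2 * 16 ^ (m + 1) * (3 * m + 1) := by
      rw [h]
      have h2 : (2 * m + 1) ^ 2 * (3 * (m + 1) + 1) ≤ 4 * (m + 1) ^ 2 * (3 * m + 1) := by
        nlinarith [Nat.zero_le m]
      calc (2 * (2 * m + 1) * Nat.centralBinom m) ^ 2 * (3 * (m + 1) + 1) * (3 * m + 1)
          = 4 * ((2 * m + 1) ^ 2 * (3 * (m + 1) + 1)) *
              ((Nat.centralBinom m) ^ 2 * (3 * m + 1)) := by ring
        _ ≤ 4 * (4 * (m + 1) ^ 2 * (3 * m + 1)) * 16 ^ m := by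
            apply Nat.mul_le_mul _ ih
            exact Nat.mul_le_mul_left _ h2
        _ = (m + 1) ^ 2 * 16 ^ (m + 1) * (3 * m + 1) := by ring
    have h3 : 0 < (m + 1) ^ 2 * (3 * m + 1) := by positivity
    apply Nat.le_of_mul_le_mul_left _ h3
    calc (m + 1) ^ 2 * (3 * m + 1) * (Nat.centralBinom (m + 1) ^ 2 * (3 * (m + 1) + 1))
        = ((m + 1) * Nat.centralBinom (m + 1)) ^ 2 * (3 * (m + 1) + 1) * (3 * m + 1) := by ring
      _ ≤ (m + 1) ^ 2 * 16 ^ (m + 1) * (3 * m + 1) := h1
      _ = (m + 1) ^ 2 * (3 * m + 1) * 16 ^ (m + 1) := by ring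

theorem choose_half_sq (k : ℕ) : (k.choose (k / 2)) ^ 2 * k ≤ 4 ^ k := by
  rcases Nat.even_or_odd' k with ⟨m, rfl | rfl⟩
  · have h := centralBinom_sq m
    rw [Nat.centralBinom_eq_two_mul_choose] at h
    rw [Nat.mul_div_cancel_left m (by norm_num : 0 < 2), pow_mul]
    calc (2 * m).choose m ^ 2 * (2 * m) ≤ (2 * m).choose m ^ 2 * (3 * m + 1) := by
          apply Nat.mul_le_mul_left
          omega
      _ ≤ 16 ^ m := h
      _ = (4 ^ 2) ^ m := by norm_num
  · have h := centralBinom_sq (m + 1)
    have h0 : Nat.centralBinom (m + 1) = 2 * (2 * m + 1).choose m := by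
      rw [Nat.centralBinom_eq_two_mul_choose, show 2 * (m + 1) = (2 * m + 1) + 1 by ring,
        Nat.choose_succ_succ]
      have : (2 * m + 1).choose (m + 1) = (2 * m + 1).choose m := by
        rw [← Nat.choose_symm (by omega : m + 1 ≤ 2 * m + 1)]
        congr 1
        omega
      rw [this]
      ring
    have h1 : (2 * m + 1) / 2 = m := by omega
    rw [h1]
    rw [h0] at h
    have h2 : 4 * ((2 * m + 1).choose m ^ 2 * (2 * m + 1)) ≤ 4 * 4 ^ (2 * m + 1) := by
      calc 4 * ((2 * m + 1).choose m ^ 2 * (2 * m + 1))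
          = (2 * (2 * m + 1).choose m) ^ 2 * (2 * m + 1) := by ring
        _ ≤ (2 * (2 * m + 1).choose m) ^ 2 * (3 * (m + 1) + 1) := by
            apply Nat.mul_le_mul_left
            omega
        _ ≤ 16 ^ (m + 1) := h
        _ = 4 * 4 ^ (2 * m + 1) := by
            rw [show (16 : ℕ) = 4 ^ 2 by norm_num, ← pow_mul]
            ring
    omega

theorem choose_half_le (k : ℕ) (hk : 0 < k) :
    ((k.choose (k / 2) : ℕ) : ℝ) ≤ 2 ^ k / Real.sqrt k := by
  have h : ((k.choose (k / 2) : ℕ) : ℝ) ^ 2 * k ≤ 4 ^ k := by exact_mod_cast choose_half_sq k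
  have hk' : (0 : ℝ) < k := by exact_mod_cast hk
  rw [le_div_iff₀ (Real.sqrt_pos.2 hk')]
  apply le_of_sq_le_sq _ (by positivity)
  rw [mul_pow, Real.sq_sqrt hk'.le, ← pow_mul, mul_comm k 2, pow_mul]
  norm_num
  exact h

/-- Erdos with a real bound. -/
theorem erdos_real {ι : Type*} [DecidableEq ι] (F : Finset ι) (u : ι → ℝ)
    (hu : ∀ i ∈ F, u i ≠ 0) (k : ℕ) (hk : 0 < k) (hkF : k ≤ F.card) (t : ℝ) :
    ((F.powerset.filter (fun x => ∑ i ∈ x, u i = t)).card : ℝ) ≤
      2 ^ F.card * (1 / Real.sqrt k) := by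
  have h1 : ((F.powerset.filter (fun x => ∑ i ∈ x, u i = t)).card : ℝ) ≤
      (F.card.choose (F.card / 2) : ℕ) := by exact_mod_cast erdos_lo F u hu t
  have hF : 0 < F.card := lt_of_lt_of_le hk hkF
  refine h1.trans ((choose_half_le F.card hF).trans ?_)
  rw [div_eq_mul_one_div]
  apply mul_le_mul_of_nonneg_left _ (by positivity)
  apply one_div_le_one_div_of_le
  · exact Real.sqrt_pos.2 (by exact_mod_cast hk)
  · exact Real.sqrt_le_sqrt (by exact_mod_cast hkF)

/-- Sarkozy-Szemeredi with multiplicities. -/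
theorem lo_levels {ι : Type*} [DecidableEq ι] (F Y : Finset ι) (hY : Y ⊆ F) (u : ι → ℝ)
    (hu : ∀ i ∈ Y, u i ≠ 0) (T : ℝ) (hT0 : 0 ≤ T)
    (hT : ∀ c : ℝ, ((Y.filter (fun i => |u i| = c)).card : ℝ) ≤ T)
    (k : ℕ) (hk : 0 < k) (hkY : 2 * k ≤ Y.card) (t : ℝ) :
    ((F.powerset.filter (fun x => ∑ i ∈ x, u i = t)).card : ℝ) ≤
      2 ^ F.card * (4 * T / (k * Real.sqrt k)) := by
  classical
  obtain ⟨Y1, Y2, h1, h2, hd, hc1, hc2, hle⟩ := exists_halves (fun i => |u i|) k Y hkY
  have hk' : (0 : ℝ) < k := by exact_mod_cast hk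
  have hsk : 0 < Real.sqrt k := Real.sqrt_pos.2 hk'
  have hne : Y1.Nonempty := Finset.card_pos.1 (by omega)
  obtain ⟨a, ha, hamax⟩ := Finset.exists_max_image Y1 (fun i => |u i|) hne
  have hsub : Y1 ∪ Y2 ⊆ F := (Finset.union_subset h1 h2).trans hY
  have hcard : (Y1 ∪ Y2).card = 2 * k := by
    rw [Finset.card_union_of_disjoint hd, hc1, hc2]
    ring
  have key : ∀ t : ℝ, (((Y1 ∪ Y2).powerset.filter (fun x => ∑ i ∈ x, u i = t)).card : ℝ) ≤
      2 ^ (2 * k) * (4 * T / (k * Real.sqrt k)) := by
    intro t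
    rw [flip_card]
    have hcore := core_bound Y1 Y2 hd (fun i => |u i|) (|u a|)
      (abs_pos.2 (hu a (h1 ha))) (fun i hi => abs_pos.2 (hu i (h1 hi)))
      (fun i hi => hamax i hi) (fun i hi => hle a ha i hi) T hT0
      (fun c => by
        refine le_trans ?_ (hT c)
        rw [Nat.cast_le]
        exact Finset.card_le_card (Finset.filter_subset_filter _ h1))
      (t - ∑ i ∈ (Y1 ∪ Y2).filter (fun i => u i < 0), u i)
    rw [hc1, hc2] at hcore
    have hch := choose_half_le k hk
    have h3 : (k : ℝ) * (((Y1 ∪ Y2).powerset.filter (fun x => ∑ i ∈ x, |u i| =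
        t - ∑ i ∈ (Y1 ∪ Y2).filter (fun i => u i < 0), u i)).card : ℝ) ≤
        4 * T * (2 ^ k * (2 ^ k / Real.sqrt k)) := by
      refine hcore.trans ?_
      apply mul_le_mul_of_nonneg_left _ (by positivity)
      exact mul_le_mul_of_nonneg_left hch (by positivity)
    have h4 : 2 ^ (2 * k) * (4 * T / (k * Real.sqrt k)) =
        (4 * T * (2 ^ k * (2 ^ k / Real.sqrt k))) / k := by
      rw [two_mul, pow_add]
      field_simp
    rw [h4, le_div_iff₀ hk', mul_comm]
    exact h3
  have := split_card F (Y1 ∪ Y2) hsub u _ key t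
  refine this.trans (le_of_eq ?_)
  rw [hcard, ← mul_assoc, ← pow_add]
  congr 2
  have : (Y1 ∪ Y2).card ≤ F.card := Finset.card_le_card hsub
  omega

end SingG
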