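import Pool.Agent.Lib.MP_686cbb_pr.Fresh
import Pool.Agent.Lib.MP_686cbb_pr.LO

/-!
# Counting graphs for a fixed pattern and a fixed set of rows
-/

namespace SingG

open Finset

variable {n : ℕ}

/-- Vectors supported in `S`. -/
def suppW (S : Finset (Fin n)) : Submodule ℝ (Fin n → ℝ) where
  carrier := {w | ∀ i ∉ S, w i = 0}
  add_mem' {a b} ha hb i hi := by simp [ha i hi, hb i hi]
  zero_mem' i _ := rfl
  smul_mem' c a ha i hi := by simp [ha i hi]

theorem mem_suppW {S : Finset (Fin n)} {w : Fin n → ℝ} : w ∈ suppW S ↔ ∀ i ∉ S, w i = 0 := Iff.rfl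

/-- Larger elements of `M`. -/
def Dm (M : Finset (Fin n)) (j : Fin n) : Finset (Fin n) := M.filter (fun l => j < l)

/-- Elements of `M` with at least `θ` larger elements. -/
def Jm (M : Finset (Fin n)) (θ : ℕ) : Finset (Fin n) := M.filter (fun j => θ ≤ (Dm M j).card)

theorem mem_Dm {M : Finset (Fin n)} {j l : Fin n} : l ∈ Dm M j ↔ l ∈ M ∧ j < l := by
  unfold Dm
  exact Finset.mem_filter

theorem mem_Jm {M : Finset (Fin n)} {θ : ℕ} {j : Fin n} :
    j ∈ Jm M θ ↔ j ∈ M ∧ θ ≤ (Dm M j).card := by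
  unfold Jm
  exact Finset.mem_filter

theorem card_Jm (M : Finset (Fin n)) (θ : ℕ) : M.card ≤ (Jm M θ).card + θ := by
  classical
  set X := M.filter (fun j => ¬ (θ ≤ (Dm M j).card)) with hX
  have h1 : (Jm M θ).card + X.card = M.card := by
    unfold Jm
    exact Finset.card_filter_add_card_filter_not _
  have h2 : X.card ≤ θ := by
    by_cases hne : X.Nonempty
    · have hmem := Finset.min'_mem X hne
      set j0 := X.min' hne with hj0
      have h3 : X.erase j0 ⊆ Dm M j0 := by
        intro l hl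
        rw [Finset.mem_erase] at hl
        unfold Dm
        rw [Finset.mem_filter]
        refine ⟨(Finset.mem_filter.1 hl.2).1, ?_⟩
        exact lt_of_le_of_ne (Finset.min'_le X l hl.2) (Ne.symm hl.1)
      have h4 := Finset.card_le_card h3
      rw [Finset.card_erase_of_mem hmem] at h4
      have h5 : (Dm M j0).card < θ := not_le.1 (Finset.mem_filter.1 hmem).2
      omega
    · rw [Finset.not_nonempty_iff_eq_empty] at hne
      simp [hne]
  omega

/-- The event for a support pattern `S` and rows `I`. -/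
def EvA (S I : Finset (Fin n)) (ω : Sym2 (Fin n) → Bool) : Prop :=
  ∃ w ∈ suppW S, (∀ i ∈ S, w i ≠ 0) ∧ (∀ i, row ω i w = 0) ∧
    ∀ w' ∈ suppW S, (∀ i ∈ I, row ω i w' = 0) → ∀ i, row ω i w' = 0

open Classical in
theorem evA_outer (S I : Finset (Fin n)) (c : ℝ) (hc0 : 0 ≤ c)
    (hc : ((S.card.choose (S.card / 2) : ℕ) : ℝ) ≤ 2 ^ S.card * c) :
    (((Finset.univ.filter (EvA S I)).card : ℕ) : ℝ) ≤
      c ^ (Finset.univ \ (S ∪ I)).card * Fintype.card (Sym2 (Fin n) → Bool) := by
  apply count_main (suppW S : Set (Fin n → ℝ)) I (fun w => ∀ i ∈ S, w i ≠ 0)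
    (Finset.univ \ (S ∪ I)) (fun _ => S) _ _ c hc0 _ _ (Finset.univ.filter (EvA S I))
  · intro ω hω
    obtain ⟨w, hw, h1, h2, h3⟩ := (Finset.mem_filter.1 hω).2
    exact ⟨w, hw, h1, h2, fun w' hw' => h3 w' hw'⟩
  · intro j hj h
    simp only [mem_sdiff, mem_union, not_or] at hj
    exact hj.2.1 h
  · intro i hi j _ _ h
    simp only [mem_sdiff, mem_union, not_or] at hi
    exact hi.2.1 h
  · intro i hi w hw j hj l hl
    simp only [mem_sdiff, mem_union, not_or] at hj
    constructor
    · intro h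
      exact absurd (h ▸ hi) hj.2.2
    · intro _
      exact hw j hj.2.1
  · intro w _ hQ j _ t
    refine le_trans ?_ hc
    exact_mod_cast erdos_lo S w hQ t

open Classical in
theorem evA_inner (S I : Finset (Fin n)) (θ : ℕ) (hθ : 0 < θ) :
    (((Finset.univ.filter (EvA S I)).card : ℕ) : ℝ) ≤
      (1 / Real.sqrt θ) ^ (Jm (S \ I) θ).card * Fintype.card (Sym2 (Fin n) → Bool) := by
  apply count_main (suppW S : Set (Fin n → ℝ)) I (fun w => ∀ i ∈ S, w i ≠ 0)
    (Jm (S \ I) θ) (Dm (S \ I)) _ _ _ (by positivity) _ _ (Finset.univ.filter (EvA S I))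
  · intro ω hω
    obtain ⟨w, hw, h1, h2, h3⟩ := (Finset.mem_filter.1 hω).2
    exact ⟨w, hw, h1, h2, fun w' hw' => h3 w' hw'⟩
  · intro j _ h
    simp [Dm] at h
  · intro i _ j _ hij h
    simp only [Dm, mem_filter] at h
    exact absurd h.2 (not_lt.2 hij.le)
  · intro i hi w _ j hj l hl
    simp only [mem_Jm, mem_Dm, mem_sdiff] at hj hl
    constructor
    · intro h
      exact absurd (h ▸ hi) hj.1.2
    · intro h
      exact absurd (h ▸ hi) hl.1.2
  · intro w _ hQ j hj t
    apply erdos_real _ _ _ θ hθ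
    · exact (mem_Jm.1 hj).2
    · intro i hi
      simp only [mem_Dm, mem_sdiff] at hi
      exact hQ i hi.1.1

/-- Size of the level of `i`. -/
noncomputable def cls (w : Fin n → ℝ) (i : Fin n) : ℕ :=
  (Finset.univ.filter (fun j => |w j| = |w i|)).card

/-- Number of coordinates that vanish or lie in a large level. -/
noncomputable def badc (w : Fin n → ℝ) (T : ℝ) : ℕ :=
  (Finset.univ.filter (fun i => w i = 0 ∨ T ≤ (cls w i : ℝ))).card

/-- Sign. -/
def sg (b : Bool) : ℝ := if b then 1 else -1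

/-- Pattern space: `w i = ± w (φ i)` for `i ∈ N`. -/
def patW (N : Finset (Fin n)) (φ : Fin n → Fin n) (σ : Fin n → Bool) :
    Submodule ℝ (Fin n → ℝ) where
  carrier := {w | ∀ i ∈ N, w i = sg (σ i) * w (φ i)}
  add_mem' {a b} ha hb i hi := by
    simp only [Pi.add_apply, ha i hi, hb i hi]
    ring
  zero_mem' i _ := by simp
  smul_mem' c a ha i hi := by
    simp only [Pi.smul_apply, smul_eq_mul, ha i hi]
    ring

theorem mem_patW {N : Finset (Fin n)} {φ : Fin n → Fin n} {σ : Fin n → Bool} {w : Fin n → ℝ} :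
    w ∈ patW N φ σ ↔ ∀ i ∈ N, w i = sg (σ i) * w (φ i) := Iff.rfl

/-- The event for a level pattern and rows `I`. -/
def EvB (N : Finset (Fin n)) (φ : Fin n → Fin n) (σ : Fin n → Bool) (I : Finset (Fin n))
    (T : ℝ) (x : ℕ) (ω : Sym2 (Fin n) → Bool) : Prop :=
  ∃ w ∈ patW N φ σ, badc w T ≤ x ∧ (∀ i, row ω i w = 0) ∧
    ∀ w' ∈ patW N φ σ, (∀ i ∈ I, row ω i w' = 0) → ∀ i, row ω i w' = 0

open Classical in
theorem evB_bound (N : Finset (Fin n)) (φ : Fin n → Fin n) (σ : Fin n → Bool)
    (I : Finset (Fin n)) (T : ℝ) (hT : 0 ≤ T) (x θ k : ℕ) (hk : 0 < k) (hθ : 2 * k + x ≤ θ) :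
    (((Finset.univ.filter (EvB N φ σ I T x)).card : ℕ) : ℝ) ≤
      (4 * T / (k * Real.sqrt k)) ^ (Jm (Finset.univ \ I) θ).card *
        Fintype.card (Sym2 (Fin n) → Bool) := by
  apply count_main (patW N φ σ : Set (Fin n → ℝ)) I (fun w => badc w T ≤ x)
    (Jm (Finset.univ \ I) θ) (Dm (Finset.univ \ I)) _ _ _ (by positivity) _ _
    (Finset.univ.filter (EvB N φ σ I T x))
  · intro ω hω
    obtain ⟨w, hw, h1, h2, h3⟩ := (Finset.mem_filter.1 hω).2
    exact ⟨w, hw, h1, h2, fun w' hw' => h3 w' hw'⟩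
  · intro j _ h
    simp [Dm] at h
  · intro i _ j _ hij h
    simp only [Dm, mem_filter] at h
    exact absurd h.2 (not_lt.2 hij.le)
  · intro i hi w _ j hj l hl
    simp only [mem_Jm, mem_Dm, mem_sdiff, mem_univ, true_and] at hj hl
    constructor
    · intro h
      exact absurd (h ▸ hi) hj.1
    · intro h
      exact absurd (h ▸ hi) hl.1
  · intro w _ hQ j hj t
    set F := Dm (Finset.univ \ I) j with hF
    set Y := F.filter (fun i => ¬ (w i = 0 ∨ T ≤ (cls w i : ℝ))) with hY
    have hcardF : θ ≤ F.card := (mem_Jm.1 hj).2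
    have hYc : 2 * k ≤ Y.card := by
      have h1 : (F.filter (fun i => (w i = 0 ∨ T ≤ (cls w i : ℝ)))).card + Y.card = F.card :=
        Finset.card_filter_add_card_filter_not _
      have h2 : (F.filter (fun i => (w i = 0 ∨ T ≤ (cls w i : ℝ)))).card ≤ badc w T := by
        unfold badc
        apply Finset.card_le_card
        exact Finset.filter_subset_filter _ (Finset.subset_univ _)
      omega
    apply lo_levels F Y (Finset.filter_subset _ _) w _ T hT _ k hk hYc
    · intro i hi h
      have := (Finset.mem_filter.1 hi).2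
      exact this (Or.inl h)
    · intro c
      by_cases hne : (Y.filter (fun i => |w i| = c)).Nonempty
      · obtain ⟨i0, hi0⟩ := hne
        have h1 := Finset.mem_filter.1 hi0
        have h2 := (Finset.mem_filter.1 h1.1).2
        push Not at h2
        refine le_trans ?_ h2.2.le
        unfold cls
        rw [Nat.cast_le]
        apply Finset.card_le_card
        intro i hi
        have h3 := Finset.mem_filter.1 hi
        simp only [mem_filter, mem_univ, true_and]
        rw [h3.2, h1.2]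
      · rw [Finset.not_nonempty_iff_eq_empty] at hne
        rw [hne]
        simpa using hT

end SingG
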