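import Pool.Agent.Lib.MP_686cbb_pr.Graph

/-!
# Structured kernel vectors of random graphs: final assembly
-/

namespace SingG

open Finset Filter

variable {n : ℕ}

/-- Some nonzero kernel vector has at most `t` distinct absolute values. -/
def Structured (t : ℝ) (G : SimpleGraph (Fin n)) : Prop :=
  ∃ v : Fin n → ℝ, v ≠ 0 ∧ (∀ i, ∑ j, (open Classical in G.adjMatrix ℝ) i j * v j = 0) ∧
    ((Finset.univ.image (fun i => |v i|)).card : ℝ) ≤ t

theorem structured_gr (t : ℝ) (ω : Sym2 (Fin n) → Bool) :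
    Structured t (gr ω) ↔ ∃ v : Fin n → ℝ, v ≠ 0 ∧ (∀ i, row ω i v = 0) ∧
      ((absv v).card : ℝ) ≤ t := by
  unfold Structured row absv
  simp only [← ent_eq]

theorem mem_Fs' {i : Fin n} {k l : Fin n} :
    s(k, l) ∈ Fs i (Finset.univ.erase i) ↔ (k = i ∧ l ≠ i) ∨ (l = i ∧ k ≠ i) := by
  rw [mem_Fs (by simp)]
  simp

theorem card_Fs' (i : Fin n) : (Fs i (Finset.univ.erase i)).card = n - 1 := by
  rw [card_Fs, Finset.card_erase_of_mem (Finset.mem_univ i), Finset.card_univ, Fintype.card_fin]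

open Classical in
theorem fresh_one (i : Fin n) (B : Finset (Sym2 (Fin n) → Bool))
    (h : ∀ ω : Sym2 (Fin n) → Bool, ∀ x y : Finset (Sym2 (Fin n)),
      x ⊆ Fs i (Finset.univ.erase i) → y ⊆ Fs i (Finset.univ.erase i) →
      upd ω (Fs i (Finset.univ.erase i)) x ∈ B → upd ω (Fs i (Finset.univ.erase i)) y ∈ B →
      x = y) :
    (B.card : ℝ) ≤ 1 / 2 ^ (n - 1) * Fintype.card (Sym2 (Fin n) → Bool) := by
  have := fresh (Fs i (Finset.univ.erase i)) Finset.univ B (fun _ _ _ _ => Finset.mem_univ _)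
    (1 / 2 ^ (n - 1)) (by
      intro ω _
      rw [card_Fs', one_div_mul_cancel (by positivity)]
      have : (Finset.filter (fun x => upd ω (Fs i (Finset.univ.erase i)) x ∈ B)
        (Fs i (Finset.univ.erase i)).powerset).card ≤ 1 := by
        rw [Finset.card_le_one]
        intro x hx y hy
        rw [Finset.mem_filter, Finset.mem_powerset] at hx hy
        exact h ω x y hx.1 hy.1 hx.2 hy.2
      exact_mod_cast this)
  rw [Finset.univ_inter, Finset.card_univ] at this
  exact this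

theorem ext_Fs {i : Fin n} {x y : Finset (Sym2 (Fin n))}
    (hx : x ⊆ Fs i (Finset.univ.erase i)) (hy : y ⊆ Fs i (Finset.univ.erase i))
    (h : ∀ k, k ≠ i → (s(i, k) ∈ x ↔ s(i, k) ∈ y)) : x = y := by
  ext e
  constructor
  · intro he
    obtain ⟨l, hl, rfl⟩ := Finset.mem_image.1 (hx he)
    exact (h l (Finset.ne_of_mem_erase hl)).1 he
  · intro he
    obtain ⟨l, hl, rfl⟩ := Finset.mem_image.1 (hy he)
    exact (h l (Finset.ne_of_mem_erase hl)).2 he

theorem upd_adj_i (ω : Sym2 (Fin n) → Bool) (i k : Fin n) (hk : k ≠ i)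
    (x : Finset (Sym2 (Fin n))) :
    (gr (upd ω (Fs i (Finset.univ.erase i)) x)).Adj i k ↔ s(i, k) ∈ x := by
  have h1 : s(i, k) ∈ Fs i (Finset.univ.erase i) := mem_Fs'.2 (Or.inl ⟨rfl, hk⟩)
  rw [gr_adj]
  simp [upd, h1, Ne.symm hk]

theorem upd_adj_j (ω : Sym2 (Fin n) → Bool) (i j k : Fin n) (hk : k ≠ i) (hj : j ≠ i)
    (x : Finset (Sym2 (Fin n))) :
    (gr (upd ω (Fs i (Finset.univ.erase i)) x)).Adj j k ↔ (gr ω).Adj j k := by
  have h1 : s(j, k) ∉ Fs i (Finset.univ.erase i) := by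
    rw [mem_Fs']
    rintro (⟨h, _⟩ | ⟨h, _⟩)
    · exact hj h
    · exact hk h
  rw [gr_adj, gr_adj]
  simp [upd, h1]

open Classical in
theorem twins_prob :
    ((Finset.univ.filter (fun ω : Sym2 (Fin n) → Bool => Twins (gr ω))).card : ℝ) ≤
      ((n : ℝ) + n ^ 2) / 2 ^ (n - 1) * Fintype.card (Sym2 (Fin n) → Bool) := by
  set A : Fin n → Finset (Sym2 (Fin n) → Bool) := fun i =>
    Finset.univ.filter (fun ω => ∀ k, ¬ (gr ω).Adj i k) with hA
  set B : Fin n × Fin n → Finset (Sym2 (Fin n) → Bool) := fun p =>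
    Finset.univ.filter (fun ω => p.1 ≠ p.2 ∧ ∀ k, ((gr ω).Adj p.1 k ↔ (gr ω).Adj p.2 k)) with hB
  have hA1 : ∀ i, ((A i).card : ℝ) ≤ 1 / 2 ^ (n - 1) * Fintype.card (Sym2 (Fin n) → Bool) := by
    intro i
    apply fresh_one i
    intro ω x y hx hy h1 h2
    simp only [hA, Finset.mem_filter, Finset.mem_univ, true_and] at h1 h2
    apply ext_Fs hx hy
    intro k hk
    have e1 := h1 k
    have e2 := h2 k
    rw [upd_adj_i ω i k hk] at e1 e2
    tauto
  have hB1 : ∀ p, ((B p).card : ℝ) ≤ 1 / 2 ^ (n - 1) * Fintype.card (Sym2 (Fin n) → Bool) := by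
    intro p
    apply fresh_one p.1
    intro ω x y hx hy h1 h2
    simp only [hB, Finset.mem_filter, Finset.mem_univ, true_and] at h1 h2
    apply ext_Fs hx hy
    intro k hk
    have e1 := h1.2 k
    have e2 := h2.2 k
    rw [upd_adj_i ω p.1 k hk, upd_adj_j ω p.1 p.2 k hk h1.1.symm] at e1
    rw [upd_adj_i ω p.1 k hk, upd_adj_j ω p.1 p.2 k hk h2.1.symm] at e2
    rw [e1, e2]
  have hsub : (Finset.univ.filter (fun ω : Sym2 (Fin n) → Bool => Twins (gr ω))) ⊆
      (Finset.univ.biUnion A) ∪ (Finset.univ.biUnion B) := by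
    intro ω hω
    rw [Finset.mem_union, Finset.mem_biUnion, Finset.mem_biUnion]
    rcases (Finset.mem_filter.1 hω).2 with ⟨i, hi⟩ | ⟨i, j, hij, h⟩
    · left
      exact ⟨i, Finset.mem_univ _, Finset.mem_filter.2 ⟨Finset.mem_univ _, hi⟩⟩
    · right
      exact ⟨(i, j), Finset.mem_univ _, Finset.mem_filter.2 ⟨Finset.mem_univ _, hij, h⟩⟩
  have h3 : ((Finset.univ.biUnion A).card : ℝ) ≤
      n * (1 / 2 ^ (n - 1) * Fintype.card (Sym2 (Fin n) → Bool)) := by
    calc ((Finset.univ.biUnion A).card : ℝ) ≤ ∑ i, ((A i).card : ℝ) := by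
          exact_mod_cast Finset.card_biUnion_le
      _ ≤ ∑ _i : Fin n, 1 / 2 ^ (n - 1) * (Fintype.card (Sym2 (Fin n) → Bool) : ℝ) :=
          Finset.sum_le_sum (fun i _ => hA1 i)
      _ = n * (1 / 2 ^ (n - 1) * Fintype.card (Sym2 (Fin n) → Bool)) := by
          rw [Finset.sum_const, nsmul_eq_mul, Finset.card_univ, Fintype.card_fin]
  have h4 : ((Finset.univ.biUnion B).card : ℝ) ≤
      n ^ 2 * (1 / 2 ^ (n - 1) * Fintype.card (Sym2 (Fin n) → Bool)) := by
    calc ((Finset.univ.biUnion B).card : ℝ) ≤ ∑ p, ((B p).card : ℝ) := by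
          exact_mod_cast Finset.card_biUnion_le
      _ ≤ ∑ _p : Fin n × Fin n, 1 / 2 ^ (n - 1) * (Fintype.card (Sym2 (Fin n) → Bool) : ℝ) :=
          Finset.sum_le_sum (fun p _ => hB1 p)
      _ = n ^ 2 * (1 / 2 ^ (n - 1) * Fintype.card (Sym2 (Fin n) → Bool)) := by
          rw [Finset.sum_const, nsmul_eq_mul, Finset.card_univ, Fintype.card_prod,
            Fintype.card_fin]
          push_cast
          ring
  have h5 : ((Finset.univ.filter (fun ω : Sym2 (Fin n) → Bool => Twins (gr ω))).card : ℝ) ≤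
      ((Finset.univ.biUnion A).card : ℝ) + ((Finset.univ.biUnion B).card : ℝ) := by
    exact_mod_cast (Finset.card_le_card hsub).trans (Finset.card_union_le _ _)
  refine h5.trans ((add_le_add h3 h4).trans (le_of_eq ?_))
  ring

open Classical in
theorem iso_prob (i : Fin n) :
    (Fintype.card (Sym2 (Fin n) → Bool) : ℝ) ≤ 2 ^ (n - 1) *
      (Finset.univ.filter (fun ω : Sym2 (Fin n) → Bool => ∀ k, ¬ (gr ω).Adj i k)).card := by
  set F := Fs i (Finset.univ.erase i) with hF
  set B := Finset.univ.filter (fun ω : Sym2 (Fin n) → Bool => ∀ k, ¬ (gr ω).Adj i k) with hB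
  have h1 : (Finset.univ : Finset (Sym2 (Fin n) → Bool)).card ≤ (F.powerset ×ˢ B).card := by
    apply Finset.card_le_card_of_injOn
      (fun ω => (F.filter (fun e => ω e = true), upd ω F ∅))
    · intro ω _
      rw [Finset.mem_coe, Finset.mem_product]
      refine ⟨Finset.mem_powerset.2 (Finset.filter_subset _ _), ?_⟩
      rw [hB, Finset.mem_filter]
      refine ⟨Finset.mem_univ _, ?_⟩
      intro k
      by_cases hk : k = i
      · subst hk
        exact fun h => h.1 rfl
      · rw [upd_adj_i ω i k hk]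
        simp
    · intro ω _ ω' _ h
      rw [Prod.mk.injEq] at h
      funext e
      by_cases he : e ∈ F
      · have h3 : e ∈ F.filter (fun e => ω e = true) ↔ e ∈ F.filter (fun e => ω' e = true) := by
          rw [h.1]
        simp only [Finset.mem_filter, he, true_and] at h3
        exact Bool.eq_iff_iff.2 h3
      · have h3 := congrFun h.2 e
        simpa [upd, he] using h3
  rw [Finset.card_product, Finset.card_powerset, card_Fs', Finset.card_univ] at h1
  exact_mod_cast h1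

/-- The constant in the structured range. -/
noncomputable def CC : ℝ := 8 * 64 ^ 8 * 640

open Classical in
/-- Main estimate, coded form, for large `n`. -/
theorem main_coded (ε : ℝ) (hε : 0 < ε) : ∀ᶠ n : ℕ in atTop,
    ((Finset.univ.filter (fun ω : Sym2 (Fin n) → Bool => ¬ Twins (gr ω) ∧
      Structured ((n : ℝ) - CC * n / Real.log n) (gr ω))).card : ℝ) ≤
      3 * (3 / 8 + ε) ^ n * Fintype.card (Sym2 (Fin n) → Bool) := by
  obtain ⟨x, hx0, hx1, hsmall⟩ := small_bound ε hε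
  filter_upwards [hsmall, basic, mid_bound, pat_bound, eventually_gt_atTop 3] with
    n h1 h2 h3 h4 hn
  obtain ⟨hm32, hL1, hc, hbb, _⟩ := h2
  set Ω := (Fintype.card (Sym2 (Fin n) → Bool) : ℝ) with hΩ
  have hΩ0 : 0 ≤ Ω := by positivity
  have hn1 : (1 : ℝ) ≤ n := by
    have : 1 ≤ n := by omega
    exact_mod_cast this
  have hn0 : (0 : ℝ) < n := by linarith
  have hL : 0 < Real.log n := by linarith
  have hρ1 : 1 ≤ (n : ℝ) ^ (1 / 8 : ℝ) := Real.one_le_rpow hn1 (by norm_num)
  have hρ : ((n : ℝ) ^ (1 / 8 : ℝ)) ^ 8 = n := by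
    rw [← Real.rpow_natCast, ← Real.rpow_mul hn0.le]
    norm_num
  have hbb1 : bb n (mm n) ((n : ℝ) ^ (1 / 8 : ℝ)) ≤ 1 :=
    hbb.trans (Real.rpow_le_one_of_one_le_of_nonpos hn1 (by norm_num))
  have u1 := union_small (n := n) (mm n) x hx0 hx1
  have u2 := union_mid (n := n) (mm n) (by omega)
  have u3 := union_pat (n := n) (mm n) hm32 ((n : ℝ) ^ (1 / 8 : ℝ)) hρ1 hρ hc hbb1
  set S1 := Finset.univ.filter (fun ω : Sym2 (Fin n) → Bool => ∃ v : Fin n → ℝ, v ≠ 0 ∧
        (∀ i, row ω i v = 0) ∧ 3 ≤ (supp v).card ∧ (supp v).card ≤ mm n) with hS1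
  set S2 := Finset.univ.filter (fun ω : Sym2 (Fin n) → Bool => ∃ v : Fin n → ℝ, v ≠ 0 ∧
        (∀ i, row ω i v = 0) ∧ mm n ≤ (supp v).card ∧ 4 * mm n ≤ n - (supp v).card) with hS2
  set S3 := Finset.univ.filter (fun ω : Sym2 (Fin n) → Bool => ∃ v : Fin n → ℝ, v ≠ 0 ∧
        (∀ i, row ω i v = 0) ∧ n - (supp v).card < 4 * mm n ∧
        (absv v).card + 8 * 64 ^ 8 * mm n ≤ n) with hS3
  have hsub : (Finset.univ.filter (fun ω : Sym2 (Fin n) → Bool => ¬ Twins (gr ω) ∧
      Structured ((n : ℝ) - CC * n / Real.log n) (gr ω))) ⊆ S1 ∪ S2 ∪ S3 := by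
    intro ω hω
    obtain ⟨ht, hst⟩ := (Finset.mem_filter.1 hω).2
    rw [structured_gr] at hst
    obtain ⟨v, hv0, hk, hD⟩ := hst
    have hs3 : 3 ≤ (supp v).card := by
      by_contra h
      exact ht (supp_le_two ω v hv0 hk (by omega))
    rw [Finset.mem_union, Finset.mem_union]
    by_cases hc1 : (supp v).card ≤ mm n
    · left; left
      exact Finset.mem_filter.2 ⟨Finset.mem_univ _, v, hv0, hk, hs3, hc1⟩
    by_cases hc2 : 4 * mm n ≤ n - (supp v).card
    · left; right
      exact Finset.mem_filter.2 ⟨Finset.mem_univ _, v, hv0, hk, by omega, hc2⟩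
    right
    refine Finset.mem_filter.2 ⟨Finset.mem_univ _, v, hv0, hk, by omega, ?_⟩
    have h5 := mm_le n
    have h6 : CC * n / Real.log n = 8 * 64 ^ 8 * (640 * n / Real.log n) := by
      unfold CC
      ring
    rw [h6] at hD
    have h7 : ((absv v).card : ℝ) + 8 * 64 ^ 8 * mm n ≤ n := by linarith
    exact_mod_cast h7
  have e1 : (S1.card : ℝ) ≤ (3 / 8 + ε) ^ n * Ω := by
    refine u1.trans ?_
    exact mul_le_mul_of_nonneg_right h1 hΩ0
  have hmono : ((3 : ℝ) / 8) ^ n ≤ (3 / 8 + ε) ^ n :=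
    pow_le_pow_left₀ (by norm_num) (by linarith) _
  have e2 : (S2.card : ℝ) ≤ (3 / 8 + ε) ^ n * Ω := by
    refine u2.trans ?_
    exact mul_le_mul_of_nonneg_right (h3.trans hmono) hΩ0
  have e3 : (S3.card : ℝ) ≤ (3 / 8 + ε) ^ n * Ω := by
    refine u3.trans ?_
    exact mul_le_mul_of_nonneg_right (h4.trans hmono) hΩ0
  have e4 : ((Finset.univ.filter (fun ω : Sym2 (Fin n) → Bool => ¬ Twins (gr ω) ∧
      Structured ((n : ℝ) - CC * n / Real.log n) (gr ω))).card : ℝ) ≤
      S1.card + S2.card + S3.card := by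
    have := (Finset.card_le_card hsub).trans ((Finset.card_union_le _ _).trans
      (Nat.add_le_add_right (Finset.card_union_le _ _) _))
    exact_mod_cast this
  linarith

/-- First part: all `n`. -/
theorem part_one (ε : ℝ) (hε : 0 < ε) : ∃ K : ℝ, ∀ n : ℕ,
    (Nat.card {G : SimpleGraph (Fin n) // ¬ Twins G ∧
      Structured ((n : ℝ) - CC * n / Real.log n) G} : ℝ) ≤
      K * (3 / 8 + ε) ^ n * Nat.card (SimpleGraph (Fin n)) := by
  classical
  obtain ⟨n1, hn1⟩ := Filter.eventually_atTop.1 (main_coded ε hε)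
  refine ⟨3 + (8 / 3) ^ n1, fun n => ?_⟩
  by_cases hn : n1 ≤ n
  · have h := transfer (n := n) (fun G => ¬ Twins G ∧
      Structured ((n : ℝ) - CC * n / Real.log n) G) (3 * (3 / 8 + ε) ^ n) _
      (fun ω hω => Finset.mem_filter.2 ⟨Finset.mem_univ _, hω⟩) (hn1 n hn)
    refine h.trans ?_
    apply mul_le_mul_of_nonneg_right _ (by positivity)
    apply mul_le_mul_of_nonneg_right _ (by positivity)
    have : (0 : ℝ) ≤ (8 / 3) ^ n1 := by positivity
    linarith
  · have h1 : (Nat.card {G : SimpleGraph (Fin n) // ¬ Twins G ∧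
      Structured ((n : ℝ) - CC * n / Real.log n) G} : ℝ) ≤ Nat.card (SimpleGraph (Fin n)) := by
      exact_mod_cast Finite.card_subtype_le _
    refine h1.trans ?_
    have h2 : (1 : ℝ) ≤ (3 + (8 / 3) ^ n1) * (3 / 8 + ε) ^ n := by
      have h3 : (1 : ℝ) ≤ (8 / 3) ^ n * (3 / 8 + ε) ^ n := by
        rw [← mul_pow]
        apply one_le_pow₀
        linarith
      have h4 : (8 / 3 : ℝ) ^ n ≤ 3 + (8 / 3) ^ n1 := by
        have : (8 / 3 : ℝ) ^ n ≤ (8 / 3) ^ n1 :=
          pow_le_pow_right₀ (by norm_num) (by omega)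
        linarith
      exact h3.trans (mul_le_mul_of_nonneg_right h4 (by positivity))
    calc (Nat.card (SimpleGraph (Fin n)) : ℝ) = 1 * Nat.card (SimpleGraph (Fin n)) := by ring
      _ ≤ _ := mul_le_mul_of_nonneg_right h2 (by positivity)

theorem card_graph_pos : (0 : ℝ) < Nat.card (SimpleGraph (Fin n)) := by
  have : 0 < Nat.card (SimpleGraph (Fin n)) := Nat.card_pos
  exact_mod_cast this

/-- Upper bound for the probability of a structured kernel vector. -/
theorem upper_all : ∃ K : ℝ, 1 ≤ K ∧ ∀ n : ℕ, 1 ≤ n →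
    (Nat.card {G : SimpleGraph (Fin n) // Structured ((n : ℝ) - CC * n / Real.log n) G} : ℝ) /
      Nat.card (SimpleGraph (Fin n)) ≤ K * (n : ℝ) ^ 2 * (1 / 2) ^ n := by
  classical
  obtain ⟨K, hK⟩ := part_one (1 / 8) (by norm_num)
  refine ⟨4 + |K|, by linarith [abs_nonneg K], fun n hn => ?_⟩
  have hn1 : (1 : ℝ) ≤ n := by exact_mod_cast hn
  rw [div_le_iff₀ card_graph_pos]
  have h1 := transfer (n := n) (fun G => Twins G) (((n : ℝ) + n ^ 2) / 2 ^ (n - 1)) _
      (fun ω hω => Finset.mem_filter.2 ⟨Finset.mem_univ _, hω⟩) twins_prob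
  have h2 := hK n
  have h3 : Nat.card {G : SimpleGraph (Fin n) // Structured ((n : ℝ) - CC * n / Real.log n) G} ≤
      Nat.card {G : SimpleGraph (Fin n) // Twins G} +
      Nat.card {G : SimpleGraph (Fin n) // ¬ Twins G ∧
        Structured ((n : ℝ) - CC * n / Real.log n) G} := by
    simp only [Nat.card_eq_fintype_card, Fintype.card_subtype]
    refine le_trans (Finset.card_le_card ?_) (Finset.card_union_le _ _)
    intro G hG
    rw [Finset.mem_union, Finset.mem_filter, Finset.mem_filter]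
    by_cases ht : Twins G
    · exact Or.inl ⟨Finset.mem_univ _, ht⟩
    · exact Or.inr ⟨Finset.mem_univ _, ht, (Finset.mem_filter.1 hG).2⟩
  have h3' : (Nat.card {G : SimpleGraph (Fin n) //
      Structured ((n : ℝ) - CC * n / Real.log n) G} : ℝ) ≤
      Nat.card {G : SimpleGraph (Fin n) // Twins G} +
      Nat.card {G : SimpleGraph (Fin n) // ¬ Twins G ∧
        Structured ((n : ℝ) - CC * n / Real.log n) G} := by exact_mod_cast h3
  have h4 : ((n : ℝ) + n ^ 2) / 2 ^ (n - 1) ≤ 4 * (n : ℝ) ^ 2 * (1 / 2) ^ n := by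
    have e1 : (2 : ℝ) ^ n = 2 * 2 ^ (n - 1) := by
      rw [← pow_succ']
      congr 1
      omega
    rw [one_div, inv_pow, e1, div_le_iff₀ (by positivity)]
    have e2 : 4 * (n : ℝ) ^ 2 * (2 * 2 ^ (n - 1))⁻¹ * 2 ^ (n - 1) = 2 * n ^ 2 := by
      field_simp
      ring
    rw [e2]
    nlinarith
  have h5 : K * (3 / 8 + 1 / 8) ^ n ≤ |K| * (n : ℝ) ^ 2 * (1 / 2) ^ n := by
    have e1 : (3 / 8 + 1 / 8 : ℝ) = 1 / 2 := by norm_num
    rw [e1]
    apply mul_le_mul_of_nonneg_right _ (by positivity)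
    have e2 : |K| * 1 ≤ |K| * (n : ℝ) ^ 2 := by
      apply mul_le_mul_of_nonneg_left _ (abs_nonneg K)
      nlinarith
    linarith [le_abs_self K]
  have hpos := card_graph_pos (n := n)
  calc (Nat.card {G : SimpleGraph (Fin n) //
      Structured ((n : ℝ) - CC * n / Real.log n) G} : ℝ)
      ≤ ((n : ℝ) + n ^ 2) / 2 ^ (n - 1) * Nat.card (SimpleGraph (Fin n)) +
        K * (3 / 8 + 1 / 8) ^ n * Nat.card (SimpleGraph (Fin n)) := h3'.trans (add_le_add h1 h2)
    _ = (((n : ℝ) + n ^ 2) / 2 ^ (n - 1) + K * (3 / 8 + 1 / 8) ^ n) *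
        Nat.card (SimpleGraph (Fin n)) := by ring
    _ ≤ (4 + |K|) * (n : ℝ) ^ 2 * (1 / 2) ^ n * Nat.card (SimpleGraph (Fin n)) := by
        apply mul_le_mul_of_nonneg_right _ hpos.le
        linarith

/-- Lower bound. -/
theorem lower_all : ∀ᶠ n : ℕ in atTop, (1 / 2 : ℝ) ^ n ≤
    (Nat.card {G : SimpleGraph (Fin n) // Structured ((n : ℝ) - CC * n / Real.log n) G} : ℝ) /
      Nat.card (SimpleGraph (Fin n)) := by
  classical
  have hlog : ∀ᶠ n : ℕ in atTop, 2 * CC ≤ Real.log n := by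
    have := Real.tendsto_log_atTop.comp (tendsto_natCast_atTop_atTop (R := ℝ))
    exact this.eventually_ge_atTop _
  filter_upwards [hlog, eventually_gt_atTop 4] with n hn hn4
  have hCC : 0 < CC := by
    unfold CC
    norm_num
  have hL : 0 < Real.log n := by linarith
  have hn4' : (4 : ℝ) ≤ n := by
    have : 4 ≤ n := by omega
    exact_mod_cast this
  rw [le_div_iff₀ card_graph_pos]
  set i0 : Fin n := ⟨0, by omega⟩ with hi0
  apply transfer_ge (n := n) (fun G => Structured ((n : ℝ) - CC * n / Real.log n) G) _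
    (Finset.univ.filter (fun ω : Sym2 (Fin n) → Bool => ∀ k, ¬ (gr ω).Adj i0 k))
  · intro ω hω
    have hiso := (Finset.mem_filter.1 hω).2
    rw [structured_gr]
    refine ⟨Pi.single i0 1, ?_, ?_, ?_⟩
    · intro h
      have := congrFun h i0
      simp at this
    · intro i
      unfold row
      apply Finset.sum_eq_zero
      intro l _
      by_cases hl : l = i0
      · rw [hl]
        have : ent ω i i0 = 0 := by
          rcases ent_zero_or_one ω i i0 with h | h
          · exact h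
          · exact absurd ((ent_one_iff ω i i0).1 h).symm (hiso i)
        rw [this, zero_mul]
      · simp [hl]
    · have h1 : absv (Pi.single i0 (1 : ℝ) : Fin n → ℝ) ⊆ {0, 1} := by
        intro y hy
        obtain ⟨i, _, rfl⟩ := Finset.mem_image.1 hy
        by_cases h : i = i0
        · simp [h]
        · simp [h]
      have h2 : (absv (Pi.single i0 (1 : ℝ) : Fin n → ℝ)).card ≤ 2 :=
        (Finset.card_le_card h1).trans Finset.card_le_two
      have h3 : ((absv (Pi.single i0 (1 : ℝ) : Fin n → ℝ)).card : ℝ) ≤ 2 := by exact_mod_cast h2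
      refine h3.trans ?_
      have h4 : CC * n / Real.log n ≤ n / 2 := by
        rw [div_le_iff₀ hL]
        nlinarith
      linarith
  · have h1 := iso_prob i0
    have e1 : (2 : ℝ) ^ n = 2 * 2 ^ (n - 1) := by
      rw [← pow_succ']
      congr 1
      omega
    have e2 : (1 / 2 : ℝ) ^ n * (2 : ℝ) ^ (n - 1) ≤ 1 := by
      rw [one_div, inv_pow, e1, mul_inv, mul_assoc, inv_mul_cancel₀ (by positivity)]
      norm_num
    calc (1 / 2 : ℝ) ^ n * Fintype.card (Sym2 (Fin n) → Bool)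
        ≤ (1 / 2 : ℝ) ^ n * (2 ^ (n - 1) * (Finset.univ.filter
          (fun ω : Sym2 (Fin n) → Bool => ∀ k, ¬ (gr ω).Adj i0 k)).card) :=
          mul_le_mul_of_nonneg_left h1 (by positivity)
      _ = ((1 / 2 : ℝ) ^ n * 2 ^ (n - 1)) * (Finset.univ.filter
          (fun ω : Sym2 (Fin n) → Bool => ∀ k, ¬ (gr ω).Adj i0 k)).card := by ring
      _ ≤ 1 * (Finset.univ.filter
          (fun ω : Sym2 (Fin n) → Bool => ∀ k, ¬ (gr ω).Adj i0 k)).card := by
          apply mul_le_mul_of_nonneg_right e2 (by positivity)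
      _ = _ := by rw [one_mul]

/-- Second part: the exponential rate is exactly `1/2`. -/
theorem part_two : Tendsto (fun n : ℕ =>
    ((Nat.card {G : SimpleGraph (Fin n) // Structured ((n : ℝ) - CC * n / Real.log n) G} : ℝ) /
      Nat.card (SimpleGraph (Fin n))) ^ ((1 : ℝ) / n)) atTop (nhds (1 / 2)) := by
  obtain ⟨K, hK1, hK⟩ := upper_all
  have hup : Tendsto (fun n : ℕ => (K ^ ((1 : ℝ) / n)) * (((n : ℝ) ^ ((1 : ℝ) / n)) ^ 2) * (1 / 2))
      atTop (nhds (1 / 2)) := by
    have h1 : Tendsto (fun n : ℕ => K ^ ((1 : ℝ) / n)) atTop (nhds 1) := by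
      have : Tendsto (fun n : ℕ => (1 : ℝ) / n) atTop (nhds 0) :=
        tendsto_one_div_atTop_nhds_zero_nat
      have h2 := (Real.continuousAt_const_rpow (a := K) (b := 0) (by linarith)).tendsto.comp this
      rw [Real.rpow_zero] at h2
      exact h2
    have h2 : Tendsto (fun n : ℕ => ((n : ℝ) ^ ((1 : ℝ) / n))) atTop (nhds 1) :=
      tendsto_rpow_div.comp (tendsto_natCast_atTop_atTop (R := ℝ))
    have h3 := (h1.mul (h2.pow 2)).mul_const (1 / 2 : ℝ)
    simpa using h3
  apply tendsto_of_tendsto_of_tendsto_of_le_of_le' (tendsto_const_nhds (x := (1 / 2 : ℝ))) hup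
  · filter_upwards [lower_all, eventually_gt_atTop 0] with n hn hn0
    have hn0' : (0 : ℝ) < n := by exact_mod_cast hn0
    have h1 := Real.rpow_le_rpow (by positivity) hn (show (0 : ℝ) ≤ 1 / n by positivity)
    rw [← Real.rpow_natCast, ← Real.rpow_mul (by norm_num), mul_one_div_cancel hn0'.ne',
      Real.rpow_one] at h1
    exact h1
  · filter_upwards [eventually_gt_atTop 0] with n hn0
    have hn0' : (0 : ℝ) < n := by exact_mod_cast hn0
    have h1 := Real.rpow_le_rpow (by positivity) (hK n hn0) (show (0 : ℝ) ≤ 1 / n by positivity)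
    refine h1.trans (le_of_eq ?_)
    rw [Real.mul_rpow (by positivity) (by positivity), Real.mul_rpow (by positivity)
      (by positivity)]
    congr 1
    · congr 1
      rw [← Real.rpow_natCast, ← Real.rpow_natCast, ← Real.rpow_mul hn0'.le,
        ← Real.rpow_mul hn0'.le, mul_comm]
    · rw [← Real.rpow_natCast, ← Real.rpow_mul (by norm_num), mul_one_div_cancel hn0'.ne',
        Real.rpow_one]

end SingG
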