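import Mathlib

/-!
# Exposing fresh entries of a random symmetric matrix
-/

namespace SingG

open Finset

section abstract_fresh

variable {α : Type*} [Fintype α] [DecidableEq α]

/-- Overwrite `w` on `F` by the indicator of `x`. -/
def upd (ω : α → Bool) (F x : Finset α) : α → Bool := fun e => if e ∈ F then decide (e ∈ x) else ω e

theorem fresh (F : Finset α) (G B : Finset (α → Bool))
    (hG : ∀ ω ∈ G, ∀ ω' : α → Bool, (∀ e ∉ F, ω' e = ω e) → ω' ∈ G) (c : ℝ)
    (hc : ∀ ω ∈ G, ((F.powerset.filter (fun x => upd ω F x ∈ B)).card : ℝ) ≤ c * 2 ^ F.card) :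
    ((G ∩ B).card : ℝ) ≤ c * G.card := by
  classical
  by_cases hne : G.Nonempty
  swap
  · rw [Finset.not_nonempty_iff_eq_empty] at hne
    simp [hne]
  have hc0 : 0 ≤ c := by
    obtain ⟨ω, hω⟩ := hne
    have h1 := hc ω hω
    have h2 : (0 : ℝ) ≤ ((F.powerset.filter (fun x => upd ω F x ∈ B)).card : ℝ) := by positivity
    have h3 : (0 : ℝ) < 2 ^ F.card := by positivity
    by_contra h
    push Not at h
    have : c * 2 ^ F.card < 0 := mul_neg_of_neg_of_pos h h3
    linarith
  set r : (α → Bool) → (α → Bool) := fun ω e => if e ∈ F then false else ω e with hr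
  have h1 : ∀ ω ∈ G ∩ B, r ω ∈ G.image r := fun ω hω =>
    Finset.mem_image_of_mem r (Finset.mem_inter.1 hω).1
  have h2 : ∀ ω ∈ G, r ω ∈ G.image r := fun ω hω => Finset.mem_image_of_mem r hω
  rw [Finset.card_eq_sum_card_fiberwise h1, Finset.card_eq_sum_card_fiberwise h2]
  push_cast
  rw [Finset.mul_sum]
  apply Finset.sum_le_sum
  intro ρ hρ
  obtain ⟨ω0, hω0, rfl⟩ := Finset.mem_image.1 hρ
  have hrr : ∀ ω : α → Bool, r ω = r ω0 → ∀ e ∉ F, ω e = ω0 e := by
    intro ω h e he
    have := congrFun h e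
    simpa [hr, he] using this
  have hA : ((G ∩ B).filter (fun ω => r ω = r ω0)).card ≤
      (F.powerset.filter (fun x => upd ω0 F x ∈ B)).card := by
    apply Finset.card_le_card_of_injOn (fun ω => F.filter (fun e => ω e = true))
    · intro ω hω
      simp only [coe_filter, mem_inter, mem_powerset, Set.mem_ofPred_eq] at hω ⊢
      refine ⟨Finset.filter_subset _ _, ?_⟩
      have : upd ω0 F (F.filter (fun e => ω e = true)) = ω := by
        funext e
        by_cases he : e ∈ F
        · simp [upd, he]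
        · simp [upd, he, hrr ω hω.2 e he]
      rw [this]
      exact hω.1.2
    · intro ω hω ω' hω' h
      simp only [coe_filter, mem_inter, Set.mem_ofPred_eq] at hω hω' h
      funext e
      by_cases he : e ∈ F
      · have h3 : e ∈ F.filter (fun e => ω e = true) ↔ e ∈ F.filter (fun e => ω' e = true) := by
          rw [h]
        simp only [mem_filter, he, true_and] at h3
        exact Bool.eq_iff_iff.2 h3
      · rw [hrr ω hω.2 e he, hrr ω' hω'.2 e he]
  have hB : 2 ^ F.card ≤ (G.filter (fun ω => r ω = r ω0)).card := by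
    rw [← Finset.card_powerset]
    apply Finset.card_le_card_of_injOn (fun x => upd ω0 F x)
    · intro x hx
      simp only [coe_filter, Set.mem_ofPred_eq]
      constructor
      · apply hG ω0 hω0
        intro e he
        simp [upd, he]
      · funext e
        by_cases he : e ∈ F <;> simp [hr, upd, he]
    · intro x hx y hy h
      simp only [coe_powerset, Set.mem_preimage, Set.mem_powerset_iff, coe_subset] at hx hy
      ext e
      constructor
      · intro he
        have := congrFun h e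
        simp only [upd, hx he, if_true] at this
        simpa [he] using this.symm
      · intro he
        have := congrFun h e
        simp only [upd, hy he, if_true] at this
        simpa [he] using this
  calc (((G ∩ B).filter (fun ω => r ω = r ω0)).card : ℝ)
      ≤ ((F.powerset.filter (fun x => upd ω0 F x ∈ B)).card : ℝ) := by exact_mod_cast hA
    _ ≤ c * 2 ^ F.card := hc ω0 hω0
    _ ≤ c * ((G.filter (fun ω => r ω = r ω0)).card : ℝ) := by
        apply mul_le_mul_of_nonneg_left _ hc0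
        exact_mod_cast hB

end abstract_fresh

variable {V : Type*} [Fintype V] [DecidableEq V]

/-- Entry of the adjacency matrix coded by `w : Sym2 V -> Bool` (diagonal bits are ignored). -/
def ent (ω : Sym2 V → Bool) (i j : V) : ℝ := if i = j then 0 else if ω s(i, j) then 1 else 0

/-- Row functional. -/
def row (ω : Sym2 V → Bool) (i : V) (w : V → ℝ) : ℝ := ∑ l, ent ω i l * w l

/-- The pairs `{j,l}`, `l` in `D`. -/
def Fs (j : V) (D : Finset V) : Finset (Sym2 V) := D.image (fun l => s(j, l))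

theorem card_Fs (j : V) (D : Finset V) : (Fs j D).card = D.card := by
  unfold Fs
  apply Finset.card_image_of_injective
  intro a b h
  simp only [Sym2.eq_iff] at h
  rcases h with h | h
  · exact h.2
  · exact h.2.trans h.1

omit [Fintype V] in
theorem mem_Fs {j : V} {D : Finset V} {i l : V} (hj : j ∉ D) :
    s(i, l) ∈ Fs j D ↔ (i = j ∧ l ∈ D) ∨ (l = j ∧ i ∈ D) := by
  unfold Fs
  simp only [mem_image, Sym2.eq_iff]
  constructor
  · rintro ⟨a, ha, h | h⟩
    · left
      exact ⟨h.1.symm, h.2 ▸ ha⟩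
    · right
      exact ⟨h.1.symm, h.2 ▸ ha⟩
  · rintro (⟨rfl, h⟩ | ⟨rfl, h⟩)
    · exact ⟨l, h, Or.inl ⟨rfl, rfl⟩⟩
    · exact ⟨i, h, Or.inr ⟨rfl, rfl⟩⟩

theorem row_congr {ω ω' : Sym2 V → Bool} {i : V} {w : V → ℝ}
    (h : ∀ l, l ≠ i → w l ≠ 0 → ω' s(i, l) = ω s(i, l)) : row ω' i w = row ω i w := by
  unfold row
  apply Finset.sum_congr rfl
  intro l _
  by_cases hl : l = i
  · subst hl
    simp [ent]
  by_cases hw : w l = 0
  · simp [hw]
  · simp [ent, h l hl hw]

theorem row_upd (ω : Sym2 V → Bool) (j : V) (D : Finset V) (hj : j ∉ D) (x : Finset (Sym2 V))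
    (w : V → ℝ) :
    row (upd ω (Fs j D) x) j w =
      ∑ l ∈ univ \ D, ent ω j l * w l + ∑ l ∈ D.filter (fun l => s(j, l) ∈ x), w l := by
  unfold row
  rw [← Finset.sum_sdiff (Finset.subset_univ D)]
  congr 1
  · apply Finset.sum_congr rfl
    intro l hl
    simp only [mem_sdiff, mem_univ, true_and] at hl
    have h1 : s(j, l) ∉ Fs j D := by
      rw [mem_Fs hj]
      rintro (⟨_, h⟩ | ⟨rfl, h⟩)
      · exact hl h
      · exact hj h
    simp [ent, upd, h1]
  · rw [Finset.sum_filter]
    apply Finset.sum_congr rfl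
    intro l hl
    have hne : j ≠ l := fun h => hj (h ▸ hl)
    have h1 : s(j, l) ∈ Fs j D := by
      rw [mem_Fs hj]
      exact Or.inl ⟨rfl, hl⟩
    by_cases hx : s(j, l) ∈ x <;> simp [ent, upd, h1, hne, hx]

theorem card_fresh_row (ω : Sym2 V → Bool) (j : V) (D : Finset V) (hj : j ∉ D) (w : V → ℝ) (c : ℝ)
    (hLO : ∀ t : ℝ, ((D.powerset.filter (fun x => ∑ l ∈ x, w l = t)).card : ℝ) ≤
      2 ^ D.card * c) :
    (((Fs j D).powerset.filter (fun x => row (upd ω (Fs j D) x) j w = 0)).card : ℝ) ≤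
      c * 2 ^ (Fs j D).card := by
  classical
  rw [card_Fs, mul_comm]
  refine le_trans ?_ (hLO (-∑ l ∈ univ \ D, ent ω j l * w l))
  rw [Nat.cast_le]
  apply Finset.card_le_card_of_injOn (fun x => D.filter (fun l => s(j, l) ∈ x))
  · intro x hx
    simp only [coe_filter, mem_powerset, Set.mem_ofPred_eq] at hx ⊢
    refine ⟨Finset.filter_subset _ _, ?_⟩
    have := hx.2
    rw [row_upd ω j D hj] at this
    linarith
  · intro x hx y hy h
    simp only [coe_filter, mem_powerset, Set.mem_ofPred_eq] at hx hy h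
    have key : ∀ l ∈ D, (s(j, l) ∈ x ↔ s(j, l) ∈ y) := by
      intro l hl
      have h3 : l ∈ D.filter (fun l => s(j, l) ∈ x) ↔ l ∈ D.filter (fun l => s(j, l) ∈ y) := by
        rw [h]
      simpa [hl] using h3
    ext e
    constructor
    · intro he
      obtain ⟨l, hl, rfl⟩ := Finset.mem_image.1 (hx.1 he)
      exact (key l hl).1 he
    · intro he
      obtain ⟨l, hl, rfl⟩ := Finset.mem_image.1 (hy.1 he)
      exact (key l hl).2 he

theorem chain [LinearOrder V] (D : V → Finset V) (c : ℝ) (hc0 : 0 ≤ c)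
    (G0 : Finset (Sym2 V → Bool)) (u : (Sym2 V → Bool) → V → ℝ) (J : Finset V) :
    (∀ j ∈ J, j ∉ D j) → (∀ i ∈ J, ∀ j ∈ J, i < j → i ∉ D j) →
    (∀ ω ∈ G0, ∀ ω' : Sym2 V → Bool, (∀ e, (∀ j ∈ J, e ∉ Fs j (D j)) → ω' e = ω e) →
      ω' ∈ G0 ∧ u ω' = u ω) →
    (∀ ω ∈ G0, ∀ j ∈ J, ∀ t : ℝ,
      (((D j).powerset.filter (fun x => ∑ l ∈ x, u ω l = t)).card : ℝ) ≤ 2 ^ (D j).card * c) →
    ((G0.filter (fun ω => ∀ j ∈ J, row ω j (u ω) = 0)).card : ℝ) ≤ c ^ J.card * G0.card := by
  classical
  induction J using Finset.induction_on_max with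
  | empty =>
    intro _ _ _ _
    simp
  | insert m J' hm ih =>
    intro hJ hlt hinv hLO
    have hmJ : m ∉ J' := fun h => lt_irrefl _ (hm m h)
    have ih' := ih (fun j hj => hJ j (Finset.mem_insert_of_mem hj))
      (fun i hi j hj => hlt i (Finset.mem_insert_of_mem hi) j (Finset.mem_insert_of_mem hj))
      (fun ω hω ω' h => hinv ω hω ω' (fun e he =>
        h e (fun j hj => he j (Finset.mem_insert_of_mem hj))))
      (fun ω hω j hj => hLO ω hω j (Finset.mem_insert_of_mem hj))
    set G' := G0.filter (fun ω => ∀ j ∈ J', row ω j (u ω) = 0) with hG'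
    set B : Finset (Sym2 V → Bool) := Finset.univ.filter (fun ω => row ω m (u ω) = 0) with hB
    have hmD : m ∉ D m := hJ m (Finset.mem_insert_self _ _)
    have hsame : ∀ ω ∈ G0, ∀ ω' : Sym2 V → Bool, (∀ e ∉ Fs m (D m), ω' e = ω e) →
        ω' ∈ G0 ∧ u ω' = u ω := by
      intro ω hω ω' h
      apply hinv ω hω ω'
      intro e he
      exact h e (he m (Finset.mem_insert_self _ _))
    have heq : G0.filter (fun ω => ∀ j ∈ insert m J', row ω j (u ω) = 0) = G' ∩ B := by
      ext ω
      simp only [hG', hB, mem_filter, mem_inter, Finset.forall_mem_insert, mem_univ, true_and]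
      tauto
    rw [heq]
    have hfr : ((G' ∩ B).card : ℝ) ≤ c * G'.card := by
      apply fresh (Fs m (D m))
      · intro ω hω ω' h
        simp only [hG', mem_filter] at hω ⊢
        obtain ⟨h1, h2⟩ := hsame ω hω.1 ω' h
        refine ⟨h1, ?_⟩
        intro j hj
        rw [h2, row_congr, hω.2 j hj]
        intro l hl _
        apply h
        rw [mem_Fs hmD]
        have hjm : j < m := hm j hj
        rintro (⟨h3, _⟩ | ⟨_, h4⟩)
        · exact hjm.ne h3
        · exact hlt j (Finset.mem_insert_of_mem hj) m (Finset.mem_insert_self _ _) hjm h4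
      · intro ω hω
        simp only [hG', mem_filter] at hω
        refine le_trans (le_of_eq ?_) (card_fresh_row ω m (D m) hmD (u ω) c
          (hLO ω hω.1 m (Finset.mem_insert_self _ _)))
        congr 2
        apply Finset.filter_congr
        intro x _
        simp only [hB, mem_filter, mem_univ, true_and]
        rw [(hsame ω hω.1 (upd ω (Fs m (D m)) x) (fun e he => by simp [upd, he])).2]
    calc ((G' ∩ B).card : ℝ) ≤ c * G'.card := hfr
      _ ≤ c * (c ^ J'.card * G0.card) := mul_le_mul_of_nonneg_left ih' hc0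
      _ = c ^ (insert m J').card * G0.card := by
          rw [Finset.card_insert_of_notMem hmJ]
          ring

/-- Vectors of `W` killed by the rows in `I`. -/
def Kset (W : Set (V → ℝ)) (I : Finset V) (ω : Sym2 V → Bool) : Set (V → ℝ) :=
  {w | w ∈ W ∧ ∀ i ∈ I, row ω i w = 0}

/-- A chosen element of `K` with property `Q`. -/
noncomputable def pick (Q : (V → ℝ) → Prop) (K : Set (V → ℝ)) : V → ℝ := by
  classical
  exact if h : ∃ w ∈ K, Q w then h.choose else 0

omit [Fintype V] [DecidableEq V] in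
theorem pick_spec {Q : (V → ℝ) → Prop} {K : Set (V → ℝ)} (h : ∃ w ∈ K, Q w) :
    pick Q K ∈ K ∧ Q (pick Q K) := by
  unfold pick
  rw [dif_pos h]
  exact h.choose_spec

/-- Main counting lemma. -/
theorem count_main [LinearOrder V] (W : Set (V → ℝ)) (I : Finset V) (Q : (V → ℝ) → Prop)
    (J : Finset V) (D : V → Finset V) (hJ : ∀ j ∈ J, j ∉ D j)
    (hlt : ∀ i ∈ J, ∀ j ∈ J, i < j → i ∉ D j) (c : ℝ) (hc0 : 0 ≤ c)
    (hinv : ∀ i ∈ I, ∀ w ∈ W, ∀ j ∈ J, ∀ l ∈ D j, (i = j → w l = 0) ∧ (i = l → w j = 0))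
    (hLO : ∀ w ∈ W, Q w → ∀ j ∈ J, ∀ t : ℝ,
      (((D j).powerset.filter (fun x => ∑ l ∈ x, w l = t)).card : ℝ) ≤ 2 ^ (D j).card * c)
    (Bad : Finset (Sym2 V → Bool))
    (hBad : ∀ ω ∈ Bad, ∃ w ∈ W, Q w ∧ (∀ i, row ω i w = 0) ∧
      ∀ w' ∈ W, (∀ i ∈ I, row ω i w' = 0) → ∀ i, row ω i w' = 0) :
    (Bad.card : ℝ) ≤ c ^ J.card * Fintype.card (Sym2 V → Bool) := by
  classical
  set G0 : Finset (Sym2 V → Bool) := Finset.univ.filter (fun ω => ∃ w ∈ Kset W I ω, Q w) with hG0
  set u : (Sym2 V → Bool) → V → ℝ := fun ω => pick Q (Kset W I ω) with hu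
  have hK : ∀ ω ω' : Sym2 V → Bool, (∀ e, (∀ j ∈ J, e ∉ Fs j (D j)) → ω' e = ω e) →
      Kset W I ω' = Kset W I ω := by
    intro ω ω' h
    have hrow : ∀ i ∈ I, ∀ w ∈ W, row ω' i w = row ω i w := by
      intro i hi w hw
      apply row_congr
      intro l hl hwl
      apply h
      intro j hj
      rw [mem_Fs (hJ j hj)]
      rintro (⟨h1, h2⟩ | ⟨h1, h2⟩)
      · exact hwl ((hinv i hi w hw j hj l h2).1 h1)
      · have := (hinv i hi w hw j hj i h2).2 rfl
        rw [← h1] at this
        exact hwl this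
    ext w
    simp only [Kset, Set.mem_ofPred_eq]
    constructor
    · rintro ⟨hw, h1⟩
      exact ⟨hw, fun i hi => by rw [← hrow i hi w hw]; exact h1 i hi⟩
    · rintro ⟨hw, h1⟩
      exact ⟨hw, fun i hi => by rw [hrow i hi w hw]; exact h1 i hi⟩
  have hchain := chain D c hc0 G0 u J hJ hlt (by
      intro ω hω ω' h
      have hKe := hK ω ω' h
      constructor
      · simp only [hG0, mem_filter, mem_univ, true_and] at hω ⊢
        rw [hKe]
        exact hω
      · simp only [hu, hKe]) (by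
      intro ω hω j hj t
      simp only [hG0, mem_filter, mem_univ, true_and] at hω
      obtain ⟨h1, h2⟩ := pick_spec hω
      exact hLO _ h1.1 h2 j hj t)
  have hsub : Bad ⊆ G0.filter (fun ω => ∀ j ∈ J, row ω j (u ω) = 0) := by
    intro ω hω
    obtain ⟨w, hw, hQ, hall, hdet⟩ := hBad ω hω
    have hex : ∃ w ∈ Kset W I ω, Q w := ⟨w, ⟨hw, fun i _ => hall i⟩, hQ⟩
    simp only [hG0, mem_filter, mem_univ, true_and]
    refine ⟨hex, ?_⟩
    intro j _
    obtain ⟨h1, _⟩ := pick_spec hex
    exact hdet _ h1.1 h1.2 j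
  calc (Bad.card : ℝ) ≤ ((G0.filter (fun ω => ∀ j ∈ J, row ω j (u ω) = 0)).card : ℝ) := by
        exact_mod_cast Finset.card_le_card hsub
    _ ≤ c ^ J.card * G0.card := hchain
    _ ≤ c ^ J.card * Fintype.card (Sym2 V → Bool) := by
        apply mul_le_mul_of_nonneg_left _ (by positivity)
        exact_mod_cast Finset.card_le_univ G0

end SingG
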