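import Pool.Agent.Lib.MP_686cbb_pr.Asym

/-!
# Translation to simple graphs, trivial singularities
-/

namespace SingG

open Finset Filter

variable {n : ℕ}

/-- The graph coded by `w`. -/
def gr (ω : Sym2 (Fin n) → Bool) : SimpleGraph (Fin n) where
  Adj i j := i ≠ j ∧ ω s(i, j) = true
  symm := ⟨fun i j h => ⟨h.1.symm, by rw [Sym2.eq_swap]; exact h.2⟩⟩
  loopless := ⟨fun i h => h.1 rfl⟩

theorem gr_adj (ω : Sym2 (Fin n) → Bool) (i j : Fin n) :
    (gr ω).Adj i j ↔ i ≠ j ∧ ω s(i, j) = true := Iff.rfl

open Classical in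
theorem ent_eq (ω : Sym2 (Fin n) → Bool) (i j : Fin n) :
    ent ω i j = (gr ω).adjMatrix ℝ i j := by
  rw [SimpleGraph.adjMatrix_apply, gr_adj]
  unfold ent
  by_cases h : i = j
  · simp [h]
  · by_cases h' : ω s(i, j) = true <;> simp [h, h']

open Classical in
theorem row_eq (ω : Sym2 (Fin n) → Bool) (v : Fin n → ℝ) :
    ((gr ω).adjMatrix ℝ).mulVec v = 0 ↔ ∀ i, row ω i v = 0 := by
  rw [funext_iff]
  apply forall_congr'
  intro i
  unfold row Matrix.mulVec dotProduct
  simp only [← ent_eq, Pi.zero_apply]

open Classical in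
/-- Bits versus graph and diagonal bits. -/
noncomputable def bitEquiv : (Sym2 (Fin n) → Bool) ≃ SimpleGraph (Fin n) × (Fin n → Bool) where
  toFun ω := (gr ω, fun i => ω s(i, i))
  invFun p := fun e => decide (e ∈ p.1.edgeSet) || decide (∃ i, e = s(i, i) ∧ p.2 i = true)
  left_inv ω := by
    funext e
    induction e using Sym2.ind with
    | _ i j =>
      by_cases h : i = j
      · subst h
        have h1 : s(i, i) ∉ (gr ω).edgeSet := by
          rw [SimpleGraph.mem_edgeSet]
          exact fun h => h.1 rfl
        have h2 : (∃ k, s(i, i) = s(k, k) ∧ ω s(k, k) = true) ↔ ω s(i, i) = true := by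
          constructor
          · rintro ⟨k, hk, h⟩
            rw [hk]
            exact h
          · intro h
            exact ⟨i, rfl, h⟩
        simp only [h1, decide_false, Bool.false_or, h2, Bool.decide_eq_true]
      · have h2 : ¬ (∃ k, s(i, j) = s(k, k) ∧ ω s(k, k) = true) := by
          rintro ⟨k, hk, _⟩
          rw [Sym2.eq_iff] at hk
          rcases hk with hk | hk
          · exact h (hk.1.trans hk.2.symm)
          · exact h (hk.1.trans hk.2.symm)
        simp only [h2, decide_false, Bool.or_false, SimpleGraph.mem_edgeSet, gr_adj, ne_eq, h,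
          not_false_eq_true, true_and, Bool.decide_eq_true]
  right_inv p := by
    obtain ⟨G, d⟩ := p
    apply Prod.ext
    · ext i j
      simp only [gr_adj]
      by_cases h : i = j
      · subst h
        simp
      · have h2 : ¬ (∃ k, s(i, j) = s(k, k) ∧ d k = true) := by
          rintro ⟨k, hk, _⟩
          rw [Sym2.eq_iff] at hk
          rcases hk with hk | hk
          · exact h (hk.1.trans hk.2.symm)
          · exact h (hk.1.trans hk.2.symm)
        simp only [h2, decide_false, Bool.or_false, SimpleGraph.mem_edgeSet, ne_eq, h,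
          not_false_eq_true, true_and, decide_eq_true_eq]
    · funext i
      have h1 : s(i, i) ∉ G.edgeSet := by
        rw [SimpleGraph.mem_edgeSet]
        exact G.loopless.irrefl i
      have h2 : (∃ k, s(i, i) = s(k, k) ∧ d k = true) ↔ d i = true := by
        constructor
        · rintro ⟨k, hk, h⟩
          rw [Sym2.eq_iff] at hk
          have : i = k := by
            rcases hk with hk | hk
            · exact hk.1
            · exact hk.1
          rw [this]
          exact h
        · intro h
          exact ⟨i, rfl, h⟩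
      simp only [h1, decide_false, Bool.false_or, h2, Bool.decide_eq_true]

theorem card_graph (P : SimpleGraph (Fin n) → Prop) :
    Nat.card {ω : Sym2 (Fin n) → Bool // P (gr ω)} =
      Nat.card {G : SimpleGraph (Fin n) // P G} * 2 ^ n := by
  have e : {ω : Sym2 (Fin n) → Bool // P (gr ω)} ≃
      {G : SimpleGraph (Fin n) // P G} × (Fin n → Bool) :=
    ((bitEquiv (n := n)).subtypeEquiv (fun ω => Iff.rfl)).trans
      (Equiv.prodSubtypeFstEquivSubtypeProd (p := fun G => P G)).symm.symm
  rw [Nat.card_congr e, Nat.card_prod]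
  congr 1
  simp

theorem card_all :
    Fintype.card (Sym2 (Fin n) → Bool) = Nat.card (SimpleGraph (Fin n)) * 2 ^ n := by
  rw [← Nat.card_eq_fintype_card, Nat.card_congr (bitEquiv (n := n)), Nat.card_prod]
  congr 1
  simp

/-- Transfer of upper bounds. -/
theorem transfer (P : SimpleGraph (Fin n) → Prop) (c : ℝ) (S : Finset (Sym2 (Fin n) → Bool))
    (hS : ∀ ω, P (gr ω) → ω ∈ S)
    (h : (S.card : ℝ) ≤ c * Fintype.card (Sym2 (Fin n) → Bool)) :
    (Nat.card {G : SimpleGraph (Fin n) // P G} : ℝ) ≤ c * Nat.card (SimpleGraph (Fin n)) := by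
  classical
  have h1 : Nat.card {G : SimpleGraph (Fin n) // P G} * 2 ^ n ≤ S.card := by
    rw [← card_graph, Nat.card_eq_fintype_card, Fintype.card_subtype]
    apply Finset.card_le_card
    intro ω hω
    exact hS ω (Finset.mem_filter.1 hω).2
  have h1' : (Nat.card {G : SimpleGraph (Fin n) // P G} : ℝ) * 2 ^ n ≤ S.card := by
    exact_mod_cast h1
  rw [card_all] at h
  push_cast at h
  have h2 : (0 : ℝ) < 2 ^ n := by positivity
  rw [← mul_assoc] at h
  exact le_of_mul_le_mul_right (h1'.trans h) h2

/-- Transfer of lower bounds. -/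
theorem transfer_ge (P : SimpleGraph (Fin n) → Prop) (c : ℝ) (S : Finset (Sym2 (Fin n) → Bool))
    (hS : ∀ ω ∈ S, P (gr ω))
    (h : c * Fintype.card (Sym2 (Fin n) → Bool) ≤ (S.card : ℝ)) :
    c * Nat.card (SimpleGraph (Fin n)) ≤ (Nat.card {G : SimpleGraph (Fin n) // P G} : ℝ) := by
  classical
  have h1 : S.card ≤ Nat.card {G : SimpleGraph (Fin n) // P G} * 2 ^ n := by
    rw [← card_graph, Nat.card_eq_fintype_card, Fintype.card_subtype]
    apply Finset.card_le_card
    intro ω hω
    exact Finset.mem_filter.2 ⟨Finset.mem_univ _, hS ω hω⟩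
  have h1' : (S.card : ℝ) ≤ (Nat.card {G : SimpleGraph (Fin n) // P G} : ℝ) * 2 ^ n := by
    exact_mod_cast h1
  rw [card_all] at h
  push_cast at h
  have h2 : (0 : ℝ) < 2 ^ n := by positivity
  rw [← mul_assoc] at h
  exact le_of_mul_le_mul_right (h.trans h1') h2

/-- Isolated vertex or two vertices with the same neighbours. -/
def Twins (G : SimpleGraph (Fin n)) : Prop :=
  (∃ i, ∀ k, ¬ G.Adj i k) ∨ ∃ i j, i ≠ j ∧ ∀ k, (G.Adj i k ↔ G.Adj j k)

theorem ent_symm (ω : Sym2 (Fin n) → Bool) (i j : Fin n) : ent ω i j = ent ω j i := by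
  unfold ent
  rw [Sym2.eq_swap]
  by_cases h : i = j
  · simp [h]
  · simp [h, Ne.symm h]

theorem ent_zero_or_one (ω : Sym2 (Fin n) → Bool) (i j : Fin n) :
    ent ω i j = 0 ∨ ent ω i j = 1 := by
  unfold ent
  by_cases h : i = j
  · simp [h]
  · by_cases h' : ω s(i, j) = true <;> simp [h, h']

theorem ent_one_iff (ω : Sym2 (Fin n) → Bool) (i j : Fin n) :
    ent ω i j = 1 ↔ (gr ω).Adj i j := by
  rw [gr_adj]
  unfold ent
  by_cases h : i = j
  · simp [h]
  · by_cases h' : ω s(i, j) = true <;> simp [h, h']

/-- Kernel vectors with support at most two come from trivial singularities. -/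
theorem supp_le_two (ω : Sym2 (Fin n) → Bool) (v : Fin n → ℝ) (hv0 : v ≠ 0)
    (hker : ∀ i, row ω i v = 0) (hs : (supp v).card < 3) : Twins (gr ω) := by
  classical
  have hrow : ∀ i, row ω i v = ∑ l ∈ supp v, ent ω i l * v l := by
    intro i
    unfold row
    symm
    apply Finset.sum_subset (Finset.subset_univ _)
    intro l _ hl
    have : v l = 0 := by
      by_contra h
      exact hl (Finset.mem_filter.2 ⟨Finset.mem_univ _, h⟩)
    simp [this]
  have hne : (supp v).Nonempty := by
    obtain ⟨i, hi⟩ : ∃ i, v i ≠ 0 := by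
      by_contra h
      push Not at h
      exact hv0 (funext h)
    exact ⟨i, Finset.mem_filter.2 ⟨Finset.mem_univ _, hi⟩⟩
  have hpos := Finset.card_pos.2 hne
  have hcases : (supp v).card = 1 ∨ (supp v).card = 2 := by omega
  rcases hcases with h1 | h2
  · obtain ⟨a, ha⟩ := Finset.card_eq_one.1 h1
    have hva : v a ≠ 0 := by
      have : a ∈ supp v := by rw [ha]; simp
      exact (Finset.mem_filter.1 this).2
    left
    refine ⟨a, fun k hk => ?_⟩
    have h3 := hker k
    rw [hrow, ha, Finset.sum_singleton] at h3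
    have h4 : ent ω k a = 1 := (ent_one_iff ω k a).2 hk.symm
    rw [h4, one_mul] at h3
    exact hva h3
  · obtain ⟨a, b, hab, hs2⟩ := Finset.card_eq_two.1 h2
    have hva : v a ≠ 0 := by
      have : a ∈ supp v := by rw [hs2]; simp
      exact (Finset.mem_filter.1 this).2
    have hvb : v b ≠ 0 := by
      have : b ∈ supp v := by rw [hs2]; simp
      exact (Finset.mem_filter.1 this).2
    have heq : ∀ k, ent ω k a * v a + ent ω k b * v b = 0 := by
      intro k
      have h3 := hker k
      rw [hrow, hs2, Finset.sum_pair hab] at h3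
      exact h3
    right
    refine ⟨a, b, hab, fun k => ?_⟩
    have h3 := heq k
    rw [SimpleGraph.adj_comm, (gr ω).adj_comm b k, ← ent_one_iff, ← ent_one_iff]
    constructor
    · intro h
      rcases ent_zero_or_one ω k b with h' | h'
      · rw [h, h', one_mul, zero_mul, add_zero] at h3
        exact absurd h3 hva
      · exact h'
    · intro h
      rcases ent_zero_or_one ω k a with h' | h'
      · rw [h, h', one_mul, zero_mul, zero_add] at h3
        exact absurd h3 hvb
      · exact h'

end SingG
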