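import Pool.Agent.Lib.MP_686cbb_pr.Fresh

/-!
# Choosing rows that determine the kernel inside a pattern space
-/

namespace SingG

open Finset

variable {V : Type*} [Fintype V] [DecidableEq V]

theorem row_add (ω : Sym2 V → Bool) (i : V) (w w' : V → ℝ) :
    row ω i (w + w') = row ω i w + row ω i w' := by
  unfold row
  rw [← Finset.sum_add_distrib]
  apply Finset.sum_congr rfl
  intro l _
  simp [mul_add]

theorem row_smul (ω : Sym2 V → Bool) (i : V) (c : ℝ) (w : V → ℝ) :
    row ω i (c • w) = c * row ω i w := by
  unfold row
  rw [Finset.mul_sum]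
  apply Finset.sum_congr rfl
  intro l _
  simp
  ring

/-- The row functional restricted to a subspace. -/
def rowDual (ω : Sym2 V → Bool) (W : Submodule ℝ (V → ℝ)) (i : V) : Module.Dual ℝ W where
  toFun w := row ω i w
  map_add' a b := row_add ω i a b
  map_smul' c a := row_smul ω i c a

theorem rowsel (ω : Sym2 V → Bool) (W : Submodule ℝ (V → ℝ)) (R : Finset V)
    (hR : ∀ w ∈ W, (∀ i ∈ R, w i = 0) → w = 0) (v : V → ℝ) (hv : v ∈ W) (hv0 : v ≠ 0)
    (hker : ∀ i, row ω i v = 0) :
    ∃ I : Finset V, I.card + 1 ≤ R.card ∧
      ∀ w ∈ W, (∀ i ∈ I, row ω i w = 0) → ∀ i, row ω i w = 0 := by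
  classical
  obtain ⟨κ, a, hinj, hspan, hLI⟩ := exists_linearIndependent' ℝ (rowDual ω W)
  haveI : Finite κ := Finite.of_injective a hinj
  haveI : Fintype κ := Fintype.ofFinite κ
  refine ⟨Finset.univ.image a, ?_, ?_⟩
  · have hcard : (Finset.univ.image a).card = Fintype.card κ := by
      rw [Finset.card_image_of_injective _ hinj, Finset.card_univ]
    have h1 : Module.finrank ℝ (Submodule.span ℝ (Set.range (rowDual ω W ∘ a))) =
        Fintype.card κ := finrank_span_eq_card hLI
    have h2 : Submodule.span ℝ (Set.range (rowDual ω W ∘ a)) ≠ ⊤ := by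
      intro htop
      obtain ⟨i, hi⟩ : ∃ i, v i ≠ 0 := by
        by_contra h
        push Not at h
        exact hv0 (funext h)
      have hvan : ∀ φ ∈ Submodule.span ℝ (Set.range (rowDual ω W ∘ a)), φ ⟨v, hv⟩ = 0 := by
        intro φ hφ
        induction hφ using Submodule.span_induction with
        | mem x hx =>
          obtain ⟨k, rfl⟩ := hx
          exact hker (a k)
        | zero => simp
        | add x y _ _ hx hy => simp [hx, hy]
        | smul c x _ hx => simp [hx]
      have hg := hvan ((LinearMap.proj i : (V → ℝ) →ₗ[ℝ] ℝ).comp W.subtype) (by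
        rw [htop]
        exact Submodule.mem_top)
      exact hi (by simpa using hg)
    have h3 : Module.finrank ℝ (Submodule.span ℝ (Set.range (rowDual ω W ∘ a))) <
        Module.finrank ℝ (Module.Dual ℝ W) := Submodule.finrank_lt (lt_top_iff_ne_top.2 h2).ne
    rw [h1, Subspace.dual_finrank_eq] at h3
    have h4 : Module.finrank ℝ W ≤ R.card := by
      let res : W →ₗ[ℝ] (R → ℝ) :=
        { toFun := fun w i => (w : V → ℝ) i
          map_add' := fun _ _ => rfl
          map_smul' := fun _ _ => rfl }
      have hinj' : Function.Injective res := by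
        rw [injective_iff_map_eq_zero]
        intro w hw
        have := hR w w.2 (fun i hi => congrFun hw ⟨i, hi⟩)
        exact Subtype.ext this
      have := LinearMap.finrank_le_finrank_of_injective hinj'
      simpa using this
    rw [hcard]
    omega
  · intro w hw hI i
    have hvan : ∀ φ ∈ Submodule.span ℝ (Set.range (rowDual ω W ∘ a)), φ ⟨w, hw⟩ = 0 := by
      intro φ hφ
      induction hφ using Submodule.span_induction with
      | mem x hx =>
        obtain ⟨k, rfl⟩ := hx
        exact hI (a k) (Finset.mem_image_of_mem a (Finset.mem_univ k))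
      | zero => simp
      | add x y _ _ hx hy => simp [hx, hy]
      | smul c x _ hx => simp [hx]
    have : rowDual ω W i ∈ Submodule.span ℝ (Set.range (rowDual ω W ∘ a)) := by
      rw [hspan]
      exact Submodule.subset_span ⟨i, rfl⟩
    exact hvan _ this

end SingG
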