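import Pool.Agent.Lib.MP_686cbb_pr.Events
import Pool.Agent.Lib.MP_686cbb_pr.RowSel

/-!
# Every structured kernel vector produces a pattern
-/

namespace SingG

open Finset

variable {n : ℕ}

/-- Support of a vector. -/
noncomputable def supp (v : Fin n → ℝ) : Finset (Fin n) := Finset.univ.filter (fun i => v i ≠ 0)

/-- The absolute values. -/
noncomputable def absv (v : Fin n → ℝ) : Finset ℝ := Finset.univ.image (fun i => |v i|)

theorem exists_evA (ω : Sym2 (Fin n) → Bool) (v : Fin n → ℝ) (hv0 : v ≠ 0)
    (hker : ∀ i, row ω i v = 0) :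
    ∃ I : Finset (Fin n), I.card + 1 ≤ (supp v).card ∧ EvA (supp v) I ω := by
  classical
  have hv : v ∈ suppW (supp v) := by
    intro i hi
    by_contra h
    exact hi (Finset.mem_filter.2 ⟨Finset.mem_univ _, h⟩)
  obtain ⟨I, hI, h⟩ := rowsel ω (suppW (supp v)) (supp v) (by
    intro w hw h
    funext i
    by_cases hi : i ∈ supp v
    · exact h i hi
    · exact hw i hi) v hv hv0 hker
  exact ⟨I, hI, v, hv, fun i hi => (Finset.mem_filter.1 hi).2, hker, h⟩

/-- Number of nonzero coordinates in levels of size at least `T`. -/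
noncomputable def hT (v : Fin n → ℝ) (T : ℝ) : Finset (Fin n) :=
  Finset.univ.filter (fun i => v i ≠ 0 ∧ T ≤ (cls v i : ℝ))

theorem cls_le (v : Fin n → ℝ) (i : Fin n) : cls v i ≤ n := by
  unfold cls
  refine (Finset.card_le_univ _).trans ?_
  simp

theorem cls_pos (v : Fin n → ℝ) (i : Fin n) : 0 < cls v i := by
  unfold cls
  apply Finset.card_pos.2
  exact ⟨i, by simp⟩

theorem cls_congr (v : Fin n → ℝ) {i j : Fin n} (h : |v i| = |v j|) : cls v i = cls v j := by
  unfold cls
  rw [h]

theorem badc_le (v : Fin n → ℝ) (T : ℝ) : badc v T ≤ (n - (supp v).card) + (hT v T).card := by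
  classical
  unfold badc
  have h1 : (Finset.univ.filter (fun i => v i = 0)).card = n - (supp v).card := by
    have : (Finset.univ.filter (fun i => v i = 0)).card +
        (Finset.univ.filter (fun i => ¬ v i = 0)).card = n := by
      rw [Finset.card_filter_add_card_filter_not]
      simp
    have h2 : (Finset.univ.filter (fun i => ¬ v i = 0)).card = (supp v).card := rfl
    omega
  rw [← h1]
  refine le_trans (Finset.card_le_card ?_) (Finset.card_union_le _ _)
  intro i hi
  simp only [hT, mem_filter, mem_univ, true_and, mem_union] at hi ⊢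
  by_cases h : v i = 0
  · exact Or.inl h
  · right
    rcases hi with h' | h'
    · exact absurd h' h
    · exact ⟨h, h'⟩

/-- Lower bound for the number of coordinates in levels of size at least two. -/
theorem hT_two (v : Fin n → ℝ) :
    n ≤ (n - (supp v).card) + (absv v).card + (hT v 2).card := by
  classical
  have h1 : (Finset.univ.filter (fun i => v i = 0)).card = n - (supp v).card := by
    have : (Finset.univ.filter (fun i => v i = 0)).card +
        (Finset.univ.filter (fun i => ¬ v i = 0)).card = n := by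
      rw [Finset.card_filter_add_card_filter_not]
      simp
    have h2 : (Finset.univ.filter (fun i => ¬ v i = 0)).card = (supp v).card := rfl
    omega
  have h3 : (Finset.univ.filter (fun i => cls v i = 1)).card ≤ (absv v).card := by
    apply Finset.card_le_card_of_injOn (fun i => |v i|)
    · intro i _
      exact Finset.mem_coe.2 (Finset.mem_image_of_mem _ (Finset.mem_univ i))
    · intro i hi j _ hij
      simp only [coe_filter, mem_univ, true_and, Set.mem_ofPred_eq] at hi
      unfold cls at hi
      rw [Finset.card_eq_one] at hi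
      obtain ⟨a, ha⟩ := hi
      have hi' : i ∈ Finset.univ.filter (fun j => |v j| = |v i|) := by simp
      have hj' : j ∈ Finset.univ.filter (fun j => |v j| = |v i|) := by
        simp only [mem_filter, mem_univ, true_and]
        exact hij.symm
      rw [ha, Finset.mem_singleton] at hi' hj'
      rw [hi', hj']
  have h4 : (Finset.univ : Finset (Fin n)) ⊆ (Finset.univ.filter (fun i => v i = 0)) ∪
      (Finset.univ.filter (fun i => cls v i = 1)) ∪ hT v 2 := by
    intro i _
    simp only [hT, mem_filter, mem_univ, true_and, mem_union]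
    by_cases h : v i = 0
    · exact Or.inl (Or.inl h)
    by_cases h' : cls v i = 1
    · exact Or.inl (Or.inr h')
    right
    refine ⟨h, ?_⟩
    have := cls_pos v i
    have : 2 ≤ cls v i := by omega
    exact_mod_cast this
  have h5 := Finset.card_le_card h4
  rw [Finset.card_univ, Fintype.card_fin] at h5
  have h6 := Finset.card_union_le ((Finset.univ.filter (fun i => v i = 0)) ∪
      (Finset.univ.filter (fun i => cls v i = 1))) (hT v 2)
  have h7 := Finset.card_union_le (Finset.univ.filter (fun i => v i = 0))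
      (Finset.univ.filter (fun i => cls v i = 1))
  omega

/-- Selecting a scale. -/
theorem exists_scale (h : ℕ → ℝ) (h0 : 0 < h 0) (h8 : h 8 ≤ 0) :
    ∃ j < 8, h (j + 1) ≤ h j / 64 ∧ h 0 / 64 ^ j ≤ h j := by
  by_contra hcon
  push Not at hcon
  have key : ∀ j ≤ 8, h 0 / 64 ^ j ≤ h j := by
    intro j
    induction j with
    | zero => intro _; simp
    | succ j ih =>
      intro hj
      have h1 := ih (by omega)
      by_contra hlt
      push Not at hlt
      have h2 : h (j + 1) ≤ h j / 64 := by
        refine hlt.le.trans ?_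
        rw [pow_succ, ← div_div]
        linarith
      exact absurd h1 (not_le.2 (hcon j (by omega) h2))
  have := key 8 le_rfl
  have h3 : 0 < h 0 / 64 ^ 8 := by positivity
  linarith

/-- Representative of the level of `i`. -/
noncomputable def rep (v : Fin n → ℝ) (i : Fin n) : Fin n :=
  (Finset.univ.filter (fun j => |v j| = |v i|)).min' ⟨i, by simp⟩

theorem abs_rep (v : Fin n → ℝ) (i : Fin n) : |v (rep v i)| = |v i| := by
  have := Finset.min'_mem (Finset.univ.filter (fun j => |v j| = |v i|)) ⟨i, by simp⟩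
  exact (Finset.mem_filter.1 this).2

theorem rep_congr (v : Fin n → ℝ) {i j : Fin n} (h : |v i| = |v j|) : rep v i = rep v j := by
  unfold rep
  congr 1
  rw [h]

theorem exists_evB (ω : Sym2 (Fin n) → Bool) (v : Fin n → ℝ) (hv0 : v ≠ 0)
    (hker : ∀ i, row ω i v = 0) (T T' : ℝ) (hT2 : 2 ≤ T) (x : ℕ) (hx : badc v T' ≤ x) :
    ∃ N L I : Finset (Fin n), ∃ φ : Fin n → Fin n, ∃ σ : Fin n → Bool,
      ((L.card : ℝ) * T ≤ n) ∧ ((hT v T).card ≤ 2 * N.card) ∧
      φ ∈ Fintype.piFinset (fun i => if i ∈ N then L else {i}) ∧ I.card + 1 + N.card ≤ n ∧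
      EvB N φ σ I T' x ω := by
  classical
  set H := hT v T with hH
  set L := H.image (rep v) with hL
  set N := H \ L with hN
  have hrepH : ∀ i ∈ H, ∀ j, |v j| = |v i| → j ∈ H := by
    intro i hi j hj
    simp only [hH, hT, mem_filter, mem_univ, true_and] at hi ⊢
    refine ⟨?_, ?_⟩
    · intro h
      rw [h, abs_zero] at hj
      exact hi.1 (abs_eq_zero.1 hj.symm)
    · rw [cls_congr v hj]
      exact hi.2
  have hLH : L ⊆ H := by
    intro l hl
    obtain ⟨i, hi, rfl⟩ := Finset.mem_image.1 hl
    exact hrepH i hi _ (abs_rep v i)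
  have hLT : (L.card : ℝ) * T ≤ H.card := by
    have h1 : H.card = ∑ b ∈ L, (H.filter (fun a => rep v a = b)).card :=
      Finset.card_eq_sum_card_image (rep v) H
    rw [h1]
    push_cast
    rw [← nsmul_eq_mul]
    apply Finset.card_nsmul_le_sum
    intro b hb
    obtain ⟨a, ha, rfl⟩ := Finset.mem_image.1 hb
    have h2 : T ≤ (cls v a : ℝ) := by
      simp only [hH, hT, mem_filter, mem_univ, true_and] at ha
      exact ha.2
    refine h2.trans ?_
    rw [Nat.cast_le]
    unfold cls
    apply Finset.card_le_card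
    intro j hj
    simp only [mem_filter, mem_univ, true_and] at hj ⊢
    exact ⟨hrepH a ha j hj, rep_congr v hj⟩
  have hLn : (L.card : ℝ) * T ≤ n := by
    refine hLT.trans ?_
    have : H.card ≤ n := by
      refine (Finset.card_le_univ _).trans ?_
      simp
    exact_mod_cast this
  have hNc : N.card + L.card = H.card := by
    rw [hN, Finset.card_sdiff_of_subset hLH]
    have := Finset.card_le_card hLH
    omega
  have hN2 : H.card ≤ 2 * N.card := by
    have h1 : (L.card : ℝ) * 2 ≤ H.card := by
      refine le_trans ?_ hLT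
      exact mul_le_mul_of_nonneg_left hT2 (by positivity)
    have h2 : L.card * 2 ≤ H.card := by exact_mod_cast h1
    omega
  set φ : Fin n → Fin n := fun i => if i ∈ N then rep v i else i with hφ
  set σ : Fin n → Bool := fun i => decide (v i = v (rep v i)) with hσ
  have hφN : ∀ i ∈ N, φ i ∈ L := by
    intro i hi
    simp only [hφ, hi, if_true]
    exact Finset.mem_image_of_mem _ (Finset.mem_sdiff.1 hi).1
  have hvW : v ∈ patW N φ σ := by
    intro i hi
    simp only [hφ, hi, if_true, hσ]
    by_cases h : v i = v (rep v i)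
    · simp [sg, ← h]
    · have h1 := abs_rep v i
      rcases abs_eq_abs.1 h1 with h2 | h2
      · exact absurd h2.symm h
      · rw [decide_eq_false h, h2]
        simp [sg]
  obtain ⟨I, hI, h⟩ := rowsel ω (patW N φ σ) (Finset.univ \ N) (by
    intro w hw h
    funext i
    by_cases hi : i ∈ N
    · rw [hw i hi]
      have : φ i ∉ N := fun h' => (Finset.mem_sdiff.1 h').2 (hφN i hi)
      rw [h (φ i) (by simp [this])]
      simp
    · exact h i (by simp [hi])) v hvW hv0 hker
  refine ⟨N, L, I, φ, σ, hLn, hN2, ?_, ?_, v, hvW, hx, hker, h⟩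
  · rw [Fintype.mem_piFinset]
    intro i
    by_cases hi : i ∈ N
    · simp only [hi, if_true]
      exact hφN i hi
    · simp [hφ, hi]
  · rw [Finset.card_sdiff_of_subset (Finset.subset_univ _), Finset.card_univ,
      Fintype.card_fin] at hI
    omega

/-- Structured vectors with few zeros: a scale and a pattern. -/
theorem exists_pattern (ω : Sym2 (Fin n) → Bool) (v : Fin n → ℝ) (hv0 : v ≠ 0)
    (hker : ∀ i, row ω i v = 0) (ρ : ℝ) (hρ1 : 1 ≤ ρ) (hρ : ρ ^ 8 = n) (m : ℕ) (hm : 0 < m)
    (hz : n - (supp v).card < 4 * m) (hD : (absv v).card + 8 * 64 ^ 8 * m ≤ n) :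
    ∃ j < 8, ∃ N L I : Finset (Fin n), ∃ φ : Fin n → Fin n, ∃ σ : Fin n → Bool,
      m ≤ N.card ∧ ((L.card : ℝ) * (2 * ρ ^ j) ≤ n) ∧
      φ ∈ Fintype.piFinset (fun i => if i ∈ N then L else {i}) ∧ I.card + 1 + N.card ≤ n ∧
      EvB N φ σ I (2 * ρ ^ j * ρ) (N.card / 16) ω := by
  classical
  have h2 := hT_two v
  have hn : 0 < n := by
    by_contra h
    have h0 : n = 0 := by omega
    subst h0
    omega
  have hH0 : 4 * 64 ^ 8 * m ≤ (hT v 2).card := by
    have : 4 * m ≤ 4 * 64 ^ 8 * m := by
      apply Nat.mul_le_mul_right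
      norm_num
    have h3 : 8 * 64 ^ 8 * m = 4 * 64 ^ 8 * m + 4 * 64 ^ 8 * m := by ring
    omega
  set h : ℕ → ℝ := fun j => ((hT v (2 * ρ ^ j)).card : ℝ) with hh
  have hh0 : (4 * 64 ^ 8 * m : ℝ) ≤ h 0 := by
    simp only [hh, pow_zero, mul_one]
    exact_mod_cast hH0
  have hm' : (1 : ℝ) ≤ m := by exact_mod_cast hm
  obtain ⟨j, hj, hj1, hj2⟩ := exists_scale h (by
      refine lt_of_lt_of_le ?_ hh0
      positivity) (by
      simp only [hh]
      have : hT v (2 * ρ ^ 8) = ∅ := by
        unfold hT
        rw [Finset.filter_eq_empty_iff]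
        intro i _ hi
        have h3 : (cls v i : ℝ) ≤ n := by exact_mod_cast cls_le v i
        have h4 := hi.2
        rw [hρ] at h4
        have h5 : (1 : ℝ) ≤ n := by exact_mod_cast hn
        linarith
      rw [this]
      simp)
  have hjm : (256 * m : ℝ) ≤ h j := by
    have h5 : h 0 / 64 ^ 7 ≤ h 0 / 64 ^ j := by
      apply div_le_div_of_nonneg_left
      · simp only [hh]; positivity
      · positivity
      · apply pow_le_pow_right₀ (by norm_num)
        omega
    have h6 : (256 * m : ℝ) ≤ h 0 / 64 ^ 7 := by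
      rw [le_div_iff₀ (by positivity)]
      refine le_trans (le_of_eq ?_) hh0
      ring
    linarith
  have hT2 : (2 : ℝ) ≤ 2 * ρ ^ j := by
    have : 1 ≤ ρ ^ j := one_le_pow₀ hρ1
    linarith
  -- bad coordinates
  have hbad : ∀ N : Finset (Fin n), (hT v (2 * ρ ^ j)).card ≤ 2 * N.card →
      badc v (2 * ρ ^ j * ρ) ≤ N.card / 16 := by
    intro N hN
    have h7 := badc_le v (2 * ρ ^ j * ρ)
    have h8 : ((hT v (2 * ρ ^ j * ρ)).card : ℝ) ≤ h j / 64 := by
      refine le_trans (le_of_eq ?_) hj1
      simp only [hh, pow_succ, mul_assoc]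
    have h9 : ((n - (supp v).card : ℕ) : ℝ) ≤ h j / 64 := by
      have : ((n - (supp v).card : ℕ) : ℝ) ≤ 4 * m := by exact_mod_cast hz.le
      linarith
    have h10 : h j ≤ 2 * N.card := by
      simp only [hh]
      exact_mod_cast hN
    have h11 : (badc v (2 * ρ ^ j * ρ) : ℝ) ≤ ((n - (supp v).card : ℕ) : ℝ) +
        ((hT v (2 * ρ ^ j * ρ)).card : ℝ) := by exact_mod_cast h7
    have h12 : (badc v (2 * ρ ^ j * ρ) : ℝ) * 16 ≤ N.card := by linarith
    have h13 : badc v (2 * ρ ^ j * ρ) * 16 ≤ N.card := by exact_mod_cast h12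
    omega
  -- pattern with the exact number of bad coordinates, then weaken
  obtain ⟨N, L, I, φ, σ, h1', h2', h3', h4', w, hw, hwb, hwk, hwd⟩ :=
    exists_evB ω v hv0 hker (2 * ρ ^ j) (2 * ρ ^ j * ρ) hT2 (badc v (2 * ρ ^ j * ρ)) le_rfl
  refine ⟨j, hj, N, L, I, φ, σ, ?_, h1', h3', h4', w, hw, hwb.trans (hbad N h2'), hwk, hwd⟩
  have h14 : h j ≤ 2 * N.card := by
    simp only [hh]
    exact_mod_cast h2'
  have h15 : (m : ℝ) ≤ N.card := by linarith
  exact_mod_cast h15

end SingG
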