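import Pool.Agent.Lib.MP_686cbb_pr.Twins

/-!
# The probability of a trivial singularity, up to an error `O(n^4 / 4^n)`
-/

namespace SingG

open Finset Filter

variable {n : ℕ}

/-- `i` has no neighbour outside `T`. -/
def Iso (T : Finset (Fin n)) (i : Fin n) (ω : Sym2 (Fin n) → Bool) : Prop :=
  ∀ k ∉ T, ¬ (gr ω).Adj i k

open Classical in
theorem iso_upper (T : Finset (Fin n)) (i : Fin n) (hi : i ∉ T)
    (G : Finset (Sym2 (Fin n) → Bool))
    (hG : ∀ ω ∈ G, ∀ ω' : Sym2 (Fin n) → Bool,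
      (∀ e ∉ Fs i (Finset.univ \ insert i T), ω' e = ω e) → ω' ∈ G) :
    ((G.filter (Iso T i)).card : ℝ) ≤ 1 / 2 ^ (n - 1 - T.card) * G.card := by
  set D := Finset.univ \ insert i T with hD
  have hiD : i ∉ D := by simp [hD]
  have hcard : (Fs i D).card = n - 1 - T.card := by
    rw [card_Fs, hD, Finset.card_sdiff_of_subset (Finset.subset_univ _), Finset.card_univ,
      Fintype.card_fin, Finset.card_insert_of_notMem hi]
    omega
  have hfr := fresh (Fs i D) G (Finset.univ.filter (Iso T i)) hG (1 / 2 ^ (n - 1 - T.card)) (by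
    intro ω _
    rw [hcard, one_div_mul_cancel (by positivity)]
    have : ((Fs i D).powerset.filter
        (fun x => upd ω (Fs i D) x ∈ Finset.univ.filter (Iso T i))).card ≤ 1 := by
      rw [Finset.card_le_one]
      intro x hx y hy
      rw [Finset.mem_filter, Finset.mem_powerset] at hx hy
      have key : ∀ z : Finset (Sym2 (Fin n)),
          upd ω (Fs i D) z ∈ Finset.univ.filter (Iso T i) → ∀ k ∈ D, s(i, k) ∉ z := by
        intro z hz k hk
        have hkT : k ∉ T ∧ k ≠ i := by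
          rw [hD, Finset.mem_sdiff, Finset.mem_insert, not_or] at hk
          exact ⟨hk.2.2, hk.2.1⟩
        have h1 := (Finset.mem_filter.1 hz).2 k hkT.1
        rw [gr_adj] at h1
        have h2 : s(i, k) ∈ Fs i D := (mem_Fs hiD).2 (Or.inl ⟨rfl, hk⟩)
        simp only [upd, h2, if_true, decide_eq_true_eq] at h1
        exact fun h => h1 ⟨hkT.2.symm, h⟩
      ext e
      constructor
      · intro he
        obtain ⟨l, hl, rfl⟩ := Finset.mem_image.1 (hx.1 he)
        exact absurd he (key x hx.2 l hl)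
      · intro he
        obtain ⟨l, hl, rfl⟩ := Finset.mem_image.1 (hy.1 he)
        exact absurd he (key y hy.2 l hl)
    exact_mod_cast this)
  have heq : G ∩ Finset.univ.filter (Iso T i) = G.filter (Iso T i) := by
    ext ω
    simp
  rw [heq] at hfr
  exact hfr

open Classical in
/-- The event that `i` is isolated. -/
noncomputable def IsoE (i : Fin n) : Finset (Sym2 (Fin n) → Bool) :=
  Finset.univ.filter (fun ω => ∀ k, ¬ (gr ω).Adj i k)

theorem mem_IsoE {i : Fin n} {ω : Sym2 (Fin n) → Bool} :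
    ω ∈ IsoE i ↔ ∀ k, ¬ (gr ω).Adj i k := by
  classical
  unfold IsoE
  rw [Finset.mem_filter]
  exact ⟨fun h => h.2, fun h => ⟨Finset.mem_univ _, h⟩⟩

theorem isoE_upper (i : Fin n) :
    ((IsoE i).card : ℝ) ≤ 1 / 2 ^ (n - 1) * Fintype.card (Sym2 (Fin n) → Bool) := by
  classical
  have := iso_upper ∅ i (by simp) Finset.univ (fun _ _ _ _ => Finset.mem_univ _)
  rw [Finset.card_empty, Nat.sub_zero, Finset.card_univ] at this
  refine le_trans ?_ this
  rw [Nat.cast_le]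
  apply Finset.card_le_card
  intro ω hω
  exact Finset.mem_filter.2 ⟨Finset.mem_univ _, fun k _ => mem_IsoE.1 hω k⟩

theorem isoE_lower (i : Fin n) :
    (Fintype.card (Sym2 (Fin n) → Bool) : ℝ) ≤ 2 ^ (n - 1) * (IsoE i).card :=
  iso_prob i

/-- Isolated `k`, together with an event outside `k`. -/
theorem isoE_two (k : Fin n) (G : Finset (Sym2 (Fin n) → Bool))
    (hG : ∀ ω ∈ G, ∀ ω' : Sym2 (Fin n) → Bool,
      (∀ a b, a ≠ k → b ≠ k → ω' s(a, b) = ω s(a, b)) → ω' ∈ G)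
    (hc : (G.card : ℝ) ≤ 1 / 2 ^ (n - 2) * Fintype.card (Sym2 (Fin n) → Bool))
    (S : Finset (Sym2 (Fin n) → Bool)) (hS : ∀ ω ∈ S, ω ∈ G ∧ ω ∈ IsoE k) :
    (S.card : ℝ) ≤
      1 / 2 ^ (n - 1) * (1 / 2 ^ (n - 2)) * Fintype.card (Sym2 (Fin n) → Bool) := by
  classical
  have h1 := iso_upper ∅ k (by simp) G (by
    intro ω hω ω' h
    apply hG ω hω
    intro a b ha hb
    apply h
    rw [mem_Fs (by simp)]
    rintro (⟨h4, _⟩ | ⟨h4, _⟩)
    · exact ha h4
    · exact hb h4)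
  rw [Finset.card_empty, Nat.sub_zero] at h1
  have hsub : S ⊆ G.filter (Iso ∅ k) := by
    intro ω hω
    exact Finset.mem_filter.2 ⟨(hS ω hω).1, fun m _ => mem_IsoE.1 (hS ω hω).2 m⟩
  calc (S.card : ℝ) ≤ ((G.filter (Iso ∅ k)).card : ℝ) := by
        exact_mod_cast Finset.card_le_card hsub
    _ ≤ 1 / 2 ^ (n - 1) * G.card := h1
    _ ≤ 1 / 2 ^ (n - 1) * (1 / 2 ^ (n - 2) * Fintype.card (Sym2 (Fin n) → Bool)) :=
        mul_le_mul_of_nonneg_left hc (by positivity)
    _ = _ := by ring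

theorem iso_iso (i k : Fin n) (hik : i ≠ k) (S : Finset (Sym2 (Fin n) → Bool))
    (hS : ∀ ω ∈ S, ω ∈ IsoE i ∧ ω ∈ IsoE k) :
    (S.card : ℝ) ≤
      1 / 2 ^ (n - 1) * (1 / 2 ^ (n - 2)) * Fintype.card (Sym2 (Fin n) → Bool) := by
  classical
  apply isoE_two k (Finset.univ.filter (Iso {k} i))
  · intro ω hω ω' h
    refine Finset.mem_filter.2 ⟨Finset.mem_univ _, ?_⟩
    intro m hm hadj
    have hmk : m ≠ k := by simpa using hm
    apply (Finset.mem_filter.1 hω).2 m hm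
    rw [gr_adj] at hadj ⊢
    rw [← h i m hik hmk]
    exact hadj
  · have := iso_upper {k} i (by simpa using hik) Finset.univ (fun _ _ _ _ => Finset.mem_univ _)
    rw [Finset.card_singleton, Finset.card_univ, Nat.sub_sub] at this
    exact this
  · intro ω hω
    exact ⟨Finset.mem_filter.2 ⟨Finset.mem_univ _, fun m _ => mem_IsoE.1 (hS ω hω).1 m⟩,
      (hS ω hω).2⟩

theorem iso_tw (k i j : Fin n) (hij : i ≠ j) (S : Finset (Sym2 (Fin n) → Bool))
    (hS : ∀ ω ∈ S, ω ∈ IsoE k ∧ ω ∈ TwE i j) :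
    (S.card : ℝ) ≤
      1 / 2 ^ (n - 1) * (1 / 2 ^ (n - 2)) * Fintype.card (Sym2 (Fin n) → Bool) := by
  classical
  by_cases hki : k = i
  · subst hki
    apply iso_iso k j hij
    intro ω hω
    refine ⟨(hS ω hω).1, ?_⟩
    rw [mem_IsoE]
    intro m hm
    exact mem_IsoE.1 (hS ω hω).1 m ((mem_TwE.1 (hS ω hω).2 m).2 hm)
  by_cases hkj : k = j
  · subst hkj
    apply iso_iso k i hij.symm
    intro ω hω
    refine ⟨(hS ω hω).1, ?_⟩
    rw [mem_IsoE]
    intro m hm
    exact mem_IsoE.1 (hS ω hω).1 m ((mem_TwE.1 (hS ω hω).2 m).1 hm)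
  apply isoE_two k (Finset.univ.filter (Tw {k} i j))
  · intro ω hω ω' h
    refine Finset.mem_filter.2 ⟨Finset.mem_univ _, ?_⟩
    intro m hm
    have hmk : m ≠ k := by simpa using hm
    have h2 := (Finset.mem_filter.1 hω).2 m hm
    rw [gr_adj, gr_adj] at h2 ⊢
    rw [h i m (Ne.symm hki) hmk, h j m (Ne.symm hkj) hmk]
    exact h2
  · have := tw_upper {k} i j hij (by simpa using Ne.symm hki) Finset.univ
      (fun _ _ _ _ => Finset.mem_univ _)
    rw [Finset.card_singleton, Finset.card_univ, Nat.sub_sub] at this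
    exact this
  · intro ω hω
    exact ⟨Finset.mem_filter.2 ⟨Finset.mem_univ _, fun m _ => mem_TwE.1 (hS ω hω).2 m⟩,
      (hS ω hω).1⟩

/-- All trivial events, indexed by pairs `i ≤ j`. -/
noncomputable def EE (p : Fin n × Fin n) : Finset (Sym2 (Fin n) → Bool) :=
  if p.1 = p.2 then IsoE p.1 else TwE p.1 p.2

/-- Pairs `i ≤ j`. -/
def Prs' (n : ℕ) : Finset (Fin n × Fin n) := Finset.univ.filter (fun p => p.1 ≤ p.2)

theorem card_Prs' (n : ℕ) : ((Prs' n).card : ℝ) = n * (n + 1) / 2 := by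
  have h1 : Prs' n = Prs n ∪ (Finset.univ.image (fun i : Fin n => (i, i))) := by
    ext ⟨a, b⟩
    simp only [Prs', Prs, mem_filter, mem_univ, true_and, mem_union, mem_image, Prod.mk.injEq]
    constructor
    · intro h
      rcases h.lt_or_eq with h | h
      · exact Or.inl h
      · exact Or.inr ⟨a, rfl, h⟩
    · rintro (h | ⟨c, rfl, rfl⟩)
      · exact h.le
      · exact le_rfl
  have h2 : Disjoint (Prs n) (Finset.univ.image (fun i : Fin n => (i, i))) := by
    rw [Finset.disjoint_left]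
    rintro ⟨a, b⟩ h3 h4
    simp only [Prs, mem_filter, mem_univ, true_and, mem_image, Prod.mk.injEq] at h3 h4
    obtain ⟨c, rfl, rfl⟩ := h4
    exact absurd h3 (lt_irrefl _)
  rw [h1, Finset.card_union_of_disjoint h2, Finset.card_image_of_injective _ (by
    intro a b h
    rw [Prod.mk.injEq] at h
    exact h.1)]
  push_cast
  rw [card_Prs]
  simp
  ring

theorem EE_two (p q : Fin n × Fin n) (hp : p ∈ Prs' n) (hq : q ∈ Prs' n) (hpq : p ≠ q) :
    ((EE p ∩ EE q).card : ℝ) ≤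
      1 / 2 ^ (n - 1) * (1 / 2 ^ (n - 2)) * Fintype.card (Sym2 (Fin n) → Bool) := by
  have hp' : p.1 ≤ p.2 := (Finset.mem_filter.1 hp).2
  have hq' : q.1 ≤ q.2 := (Finset.mem_filter.1 hq).2
  unfold EE
  by_cases h1 : p.1 = p.2 <;> by_cases h2 : q.1 = q.2
  · rw [if_pos h1, if_pos h2]
    apply iso_iso p.1 q.1
    · intro h
      exact hpq (Prod.ext h (h1.symm.trans (h.trans h2)))
    · intro ω hω
      exact Finset.mem_inter.1 hω
  · rw [if_pos h1, if_neg h2]
    apply iso_tw p.1 q.1 q.2 h2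
    intro ω hω
    exact Finset.mem_inter.1 hω
  · rw [if_neg h1, if_pos h2, Finset.inter_comm]
    apply iso_tw q.1 p.1 p.2 h1
    intro ω hω
    exact Finset.mem_inter.1 hω
  · rw [if_neg h1, if_neg h2]
    exact twE_two' p q (lt_of_le_of_ne hp' h1) (lt_of_le_of_ne hq' h2) hpq

theorem EE_lower (p : Fin n × Fin n) :
    (Fintype.card (Sym2 (Fin n) → Bool) : ℝ) ≤ 2 ^ (n - 1) * (EE p).card := by
  unfold EE
  split_ifs with h
  · exact isoE_lower p.1
  · exact twE_lower p.1 p.2 h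

theorem EE_twins (p : Fin n × Fin n) (ω : Sym2 (Fin n) → Bool) (h : ω ∈ EE p) :
    Twins (gr ω) := by
  unfold EE at h
  split_ifs at h with h1
  · exact Or.inl ⟨p.1, mem_IsoE.1 h⟩
  · exact Or.inr ⟨p.1, p.2, h1, mem_TwE.1 h⟩

open Classical in
theorem twins_lower' (hn : 2 ≤ n) :
    ((n : ℝ) ^ 2 + n - 8 * n ^ 4 / 2 ^ n) / 2 ^ n * Fintype.card (Sym2 (Fin n) → Bool) ≤
      ((Finset.univ.filter (fun ω : Sym2 (Fin n) → Bool => Twins (gr ω))).card : ℝ) := by
  set Ω := (Fintype.card (Sym2 (Fin n) → Bool) : ℝ) with hΩ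
  have hΩ0 : 0 ≤ Ω := by positivity
  have hB : ∑ p ∈ Prs' n, ((EE p).card : ℝ) ≤
      ((Finset.univ.filter (fun ω : Sym2 (Fin n) → Bool => Twins (gr ω))).card : ℝ) +
      ∑ p ∈ Prs' n, ∑ q ∈ (Prs' n).erase p, ((EE p ∩ EE q).card : ℝ) := by
    have e1 : ∀ S : Finset (Sym2 (Fin n) → Bool),
        (S.card : ℝ) = ∑ ω, (if ω ∈ S then (1 : ℝ) else 0) := by
      intro S
      rw [Finset.sum_boole]
      simp
    have e2 : ∑ p ∈ Prs' n, ((EE p).card : ℝ) =
        ∑ ω, ∑ p ∈ Prs' n, (if ω ∈ EE p then (1 : ℝ) else 0) := by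
      rw [Finset.sum_comm]
      exact Finset.sum_congr rfl (fun p _ => e1 _)
    have e3 : ∑ p ∈ Prs' n, ∑ q ∈ (Prs' n).erase p, ((EE p ∩ EE q).card : ℝ) =
        ∑ ω, ∑ p ∈ Prs' n, ∑ q ∈ (Prs' n).erase p,
          (if ω ∈ EE p ∩ EE q then (1 : ℝ) else 0) := by
      rw [Finset.sum_comm]
      apply Finset.sum_congr rfl
      intro p _
      rw [Finset.sum_comm]
      exact Finset.sum_congr rfl (fun q _ => e1 _)
    rw [e2, e3, e1, ← Finset.sum_add_distrib]
    apply Finset.sum_le_sum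
    intro ω _
    set Q := (Prs' n).filter (fun p => ω ∈ EE p) with hQ
    have f1 : ∑ p ∈ Prs' n, (if ω ∈ EE p then (1 : ℝ) else 0) = Q.card := by
      rw [Finset.sum_boole]
    have f2 : ∑ p ∈ Prs' n, ∑ q ∈ (Prs' n).erase p,
          (if ω ∈ EE p ∩ EE q then (1 : ℝ) else 0) ≥
          ∑ p ∈ Q, ((Q.erase p).card : ℝ) := by
      have g1 : ∑ p ∈ Q, ((Q.erase p).card : ℝ) ≤ ∑ p ∈ Q, ∑ q ∈ (Prs' n).erase p,
          (if ω ∈ EE p ∩ EE q then (1 : ℝ) else 0) := by
        apply Finset.sum_le_sum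
        intro p hp
        rw [Finset.sum_boole]
        rw [Nat.cast_le]
        apply Finset.card_le_card
        intro q hq
        rw [Finset.mem_erase] at hq
        rw [Finset.mem_filter, Finset.mem_erase, Finset.mem_inter]
        have hq' := Finset.mem_filter.1 hq.2
        exact ⟨⟨hq.1, hq'.1⟩, (Finset.mem_filter.1 hp).2, hq'.2⟩
      refine g1.trans ?_
      apply Finset.sum_le_sum_of_subset_of_nonneg (Finset.filter_subset _ _)
      intro p _ _
      apply Finset.sum_nonneg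
      intro q _
      split_ifs <;> norm_num
    have f3 : ∑ p ∈ Q, ((Q.erase p).card : ℝ) = Q.card * ((Q.card : ℝ) - 1) := by
      have : ∀ p ∈ Q, ((Q.erase p).card : ℝ) = (Q.card : ℝ) - 1 := by
        intro p hp
        rw [Finset.card_erase_of_mem hp, Nat.cast_sub (Finset.card_pos.2 ⟨p, hp⟩)]
        simp
      rw [Finset.sum_congr rfl this, Finset.sum_const, nsmul_eq_mul]
    rw [f1]
    by_cases hQ0 : Q.card = 0
    · rw [hQ0]
      have : 0 ≤ ∑ p ∈ Prs' n, ∑ q ∈ (Prs' n).erase p,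
          (if ω ∈ EE p ∩ EE q then (1 : ℝ) else 0) := by
        apply Finset.sum_nonneg
        intro p _
        apply Finset.sum_nonneg
        intro q _
        split_ifs <;> norm_num
      have h' : (0 : ℝ) ≤ (if ω ∈ Finset.univ.filter
          (fun ω : Sym2 (Fin n) → Bool => Twins (gr ω)) then (1 : ℝ) else 0) := by
        split_ifs <;> norm_num
      push_cast
      linarith
    · have hQ1 : 1 ≤ Q.card := by omega
      obtain ⟨p, hp⟩ := Finset.card_pos.1 hQ1
      have hT : ω ∈ Finset.univ.filter (fun ω : Sym2 (Fin n) → Bool => Twins (gr ω)) := by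
        rw [Finset.mem_filter]
        exact ⟨Finset.mem_univ _, EE_twins p ω (Finset.mem_filter.1 hp).2⟩
      rw [if_pos hT]
      rw [f3] at f2
      have hQr : (1 : ℝ) ≤ Q.card := by exact_mod_cast hQ1
      nlinarith
  have e1 : (2 : ℝ) ^ n = 2 * 2 ^ (n - 1) := by
    rw [← pow_succ']
    congr 1
    omega
  have e2 : (2 : ℝ) ^ n = 4 * 2 ^ (n - 2) := by
    rw [show (4 : ℝ) = 2 ^ 2 by norm_num, ← pow_add]
    congr 1
    omega
  have hlow : ((n : ℝ) ^ 2 + n) / 2 ^ n * Ω ≤ ∑ p ∈ Prs' n, ((EE p).card : ℝ) := by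
    calc ((n : ℝ) ^ 2 + n) / 2 ^ n * Ω = ∑ _p ∈ Prs' n, (1 / 2 ^ (n - 1) * Ω) := by
          rw [Finset.sum_const, nsmul_eq_mul, card_Prs', e1]
          field_simp
      _ ≤ _ := by
          apply Finset.sum_le_sum
          intro p _
          have := EE_lower p
          rw [one_div, inv_mul_le_iff₀ (by positivity)]
          exact this
  have hcardsq : ∀ S : Finset (Fin n × Fin n), (S.card : ℝ) ≤ n ^ 2 := by
    intro S
    have : S.card ≤ n ^ 2 := by
      refine (Finset.card_le_univ _).trans ?_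
      rw [Fintype.card_prod, Fintype.card_fin, sq]
    exact_mod_cast this
  have hup : ∑ p ∈ Prs' n, ∑ q ∈ (Prs' n).erase p, ((EE p ∩ EE q).card : ℝ) ≤
      8 * n ^ 4 / 2 ^ n / 2 ^ n * Ω := by
    have g1 : ∀ p ∈ Prs' n, ∑ q ∈ (Prs' n).erase p, ((EE p ∩ EE q).card : ℝ) ≤
        n ^ 2 * (1 / 2 ^ (n - 1) * (1 / 2 ^ (n - 2)) * Ω) := by
      intro p hp
      calc ∑ q ∈ (Prs' n).erase p, ((EE p ∩ EE q).card : ℝ)
          ≤ ∑ _q ∈ (Prs' n).erase p, (1 / 2 ^ (n - 1) * (1 / 2 ^ (n - 2)) * Ω) := by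
            apply Finset.sum_le_sum
            intro q hq
            rw [Finset.mem_erase] at hq
            exact EE_two p q hp hq.2 hq.1.symm
        _ = ((Prs' n).erase p).card * (1 / 2 ^ (n - 1) * (1 / 2 ^ (n - 2)) * Ω) := by
            rw [Finset.sum_const, nsmul_eq_mul]
        _ ≤ n ^ 2 * (1 / 2 ^ (n - 1) * (1 / 2 ^ (n - 2)) * Ω) :=
            mul_le_mul_of_nonneg_right (hcardsq _) (by positivity)
    calc ∑ p ∈ Prs' n, ∑ q ∈ (Prs' n).erase p, ((EE p ∩ EE q).card : ℝ)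
        ≤ ∑ _p ∈ Prs' n, (n ^ 2 * (1 / 2 ^ (n - 1) * (1 / 2 ^ (n - 2)) * Ω) : ℝ) :=
          Finset.sum_le_sum g1
      _ = (Prs' n).card * (n ^ 2 * (1 / 2 ^ (n - 1) * (1 / 2 ^ (n - 2)) * Ω)) := by
          rw [Finset.sum_const, nsmul_eq_mul]
      _ ≤ n ^ 2 * (n ^ 2 * (1 / 2 ^ (n - 1) * (1 / 2 ^ (n - 2)) * Ω)) :=
          mul_le_mul_of_nonneg_right (hcardsq _) (by positivity)
      _ = 8 * n ^ 4 / 2 ^ n / 2 ^ n * Ω := by
          nth_rewrite 1 [e1]
          rw [e2]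
          field_simp
          ring
  have hfin : ((n : ℝ) ^ 2 + n - 8 * n ^ 4 / 2 ^ n) / 2 ^ n * Ω =
      ((n : ℝ) ^ 2 + n) / 2 ^ n * Ω - 8 * n ^ 4 / 2 ^ n / 2 ^ n * Ω := by
    ring
  rw [hfin]
  linarith

/-- The final two-sided estimate. -/
theorem sharp (ε : ℝ) (hε : 0 < ε) : ∃ K : ℝ, ∀ n : ℕ,
    |(Nat.card {G : SimpleGraph (Fin n) // Structured ((n : ℝ) - CC * n / Real.log n) G} : ℝ) /
      Nat.card (SimpleGraph (Fin n)) - n * (n + 1) / 2 ^ n| ≤ K * (3 / 8 + ε) ^ n := by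
  classical
  obtain ⟨K, hK⟩ := part_one ε hε
  -- the error of Bonferroni
  have hpoly : Tendsto (fun n : ℕ => (n : ℝ) ^ 4 * (2 / 3 : ℝ) ^ n) atTop (nhds 0) :=
    tendsto_pow_const_mul_const_pow_of_abs_lt_one 4 (by
      rw [abs_of_pos (by norm_num)]
      norm_num)
  have hev : ∀ᶠ n : ℕ in atTop, (n : ℝ) ^ 4 * (2 / 3 : ℝ) ^ n ≤ 1 :=
    (hpoly.eventually (gt_mem_nhds one_pos)).mono (fun n h => le_of_lt h)
  obtain ⟨n1, hn1⟩ := Filter.eventually_atTop.1
    (hev.and (twins_structured.and (eventually_ge_atTop 2)))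
  refine ⟨8 + |K| + 3 * (8 / 3) ^ n1, fun n => ?_⟩
  set P := (Nat.card {G : SimpleGraph (Fin n) //
    Structured ((n : ℝ) - CC * n / Real.log n) G} : ℝ) / Nat.card (SimpleGraph (Fin n)) with hP
  have hpos := card_graph_pos (n := n)
  have hP0 : 0 ≤ P := by positivity
  have hP1 : P ≤ 1 := by
    rw [hP, div_le_one hpos]
    exact_mod_cast Finite.card_subtype_le _
  have hbase : (0 : ℝ) < 3 / 8 + ε := by positivity
  by_cases hn : n1 ≤ n
  · obtain ⟨h1, h2, h3⟩ := hn1 n hn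
    have htwlow := transfer_ge (n := n) (fun G => Structured ((n : ℝ) - CC * n / Real.log n) G) _
      (Finset.univ.filter (fun ω : Sym2 (Fin n) → Bool => Twins (gr ω)))
      (fun ω hω => h2 ω (Finset.mem_filter.1 hω).2) (twins_lower' h3)
    have hlo : ((n : ℝ) ^ 2 + n - 8 * n ^ 4 / 2 ^ n) / 2 ^ n ≤ P := by
      rw [hP, le_div_iff₀ hpos]
      exact htwlow
    have htwup := transfer (n := n) (fun G => Twins G) (((n : ℝ) ^ 2 + n) / 2 ^ n) _
      (fun ω hω => Finset.mem_filter.2 ⟨Finset.mem_univ _, hω⟩) (twins_upper (by omega))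
    have hKn := hK n
    have h4 : Nat.card {G : SimpleGraph (Fin n) //
        Structured ((n : ℝ) - CC * n / Real.log n) G} ≤
        Nat.card {G : SimpleGraph (Fin n) // Twins G} +
        Nat.card {G : SimpleGraph (Fin n) // ¬ Twins G ∧
          Structured ((n : ℝ) - CC * n / Real.log n) G} := by
      simp only [Nat.card_eq_fintype_card, Fintype.card_subtype]
      refine le_trans (Finset.card_le_card ?_) (Finset.card_union_le _ _)
      intro G hG
      rw [Finset.mem_union, Finset.mem_filter, Finset.mem_filter]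
      by_cases ht : Twins G
      · exact Or.inl ⟨Finset.mem_univ _, ht⟩
      · exact Or.inr ⟨Finset.mem_univ _, ht, (Finset.mem_filter.1 hG).2⟩
    have h4' : (Nat.card {G : SimpleGraph (Fin n) //
        Structured ((n : ℝ) - CC * n / Real.log n) G} : ℝ) ≤
        Nat.card {G : SimpleGraph (Fin n) // Twins G} +
        Nat.card {G : SimpleGraph (Fin n) // ¬ Twins G ∧
          Structured ((n : ℝ) - CC * n / Real.log n) G} := by exact_mod_cast h4
    have hhi : P ≤ ((n : ℝ) ^ 2 + n) / 2 ^ n + K * (3 / 8 + ε) ^ n := by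
      rw [hP, div_le_iff₀ hpos, add_mul]
      exact h4'.trans (add_le_add htwup hKn)
    have h5 : 8 * (n : ℝ) ^ 4 / 2 ^ n / 2 ^ n ≤ 8 * (3 / 8 + ε) ^ n := by
      have e1 : 8 * (n : ℝ) ^ 4 / 2 ^ n / 2 ^ n = 8 * (n ^ 4 * (2 / 3) ^ n) * (3 / 8) ^ n := by
        have : (1 : ℝ) / 2 ^ n / 2 ^ n = (2 / 3) ^ n * (3 / 8) ^ n := by
          rw [← mul_pow, div_div, ← mul_pow, one_div, ← inv_pow]
          norm_num
        calc 8 * (n : ℝ) ^ 4 / 2 ^ n / 2 ^ n = 8 * n ^ 4 * (1 / 2 ^ n / 2 ^ n) := by ring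
          _ = _ := by rw [this]; ring
      rw [e1]
      have e2 : (3 / 8 : ℝ) ^ n ≤ (3 / 8 + ε) ^ n :=
        pow_le_pow_left₀ (by norm_num) (by linarith) _
      have e3 : 8 * ((n : ℝ) ^ 4 * (2 / 3) ^ n) ≤ 8 := by linarith
      exact mul_le_mul e3 e2 (by positivity) (by norm_num)
    have h6 : (n : ℝ) * (n + 1) / 2 ^ n = ((n : ℝ) ^ 2 + n) / 2 ^ n := by ring
    have h7 : ((n : ℝ) ^ 2 + n - 8 * n ^ 4 / 2 ^ n) / 2 ^ n =
        ((n : ℝ) ^ 2 + n) / 2 ^ n - 8 * n ^ 4 / 2 ^ n / 2 ^ n := by ring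
    have hq : 0 < (3 / 8 + ε) ^ n := by positivity
    have h8 : K * (3 / 8 + ε) ^ n ≤ |K| * (3 / 8 + ε) ^ n :=
      mul_le_mul_of_nonneg_right (le_abs_self K) hq.le
    have h9 : 0 ≤ |K| * (3 / 8 + ε) ^ n := by positivity
    have h10 : 0 ≤ 3 * (8 / 3) ^ n1 * (3 / 8 + ε) ^ n := by positivity
    rw [abs_le]
    constructor
    · rw [h6]
      rw [h7] at hlo
      nlinarith
    · rw [h6]
      nlinarith
  · have h1 : (n : ℝ) * (n + 1) / 2 ^ n ≤ 2 := by
      rw [div_le_iff₀ (by positivity)]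
      have : ∀ m : ℕ, m * (m + 1) ≤ 2 * 2 ^ m := by
        intro m
        induction m with
        | zero => norm_num
        | succ m ih =>
          by_cases hm : m ≤ 2
          · interval_cases m <;> norm_num
          · have : (m + 1) * (m + 1 + 1) ≤ 2 * (m * (m + 1)) := by
              have : 3 ≤ m := by omega
              nlinarith
            calc (m + 1) * (m + 1 + 1) ≤ 2 * (m * (m + 1)) := this
              _ ≤ 2 * (2 * 2 ^ m) := Nat.mul_le_mul_left _ ih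
              _ = 2 * 2 ^ (m + 1) := by ring
      exact_mod_cast this n
    have h2 : (0 : ℝ) ≤ n * (n + 1) / 2 ^ n := by positivity
    have h3 : |P - n * (n + 1) / 2 ^ n| ≤ 3 := by
      rw [abs_le]
      constructor <;> linarith
    refine h3.trans ?_
    have h4 : (1 : ℝ) ≤ (8 / 3) ^ n1 * (3 / 8 + ε) ^ n := by
      have h5 : (1 : ℝ) ≤ (8 / 3) ^ n * (3 / 8 + ε) ^ n := by
        rw [← mul_pow]
        apply one_le_pow₀
        linarith
      have h6 : (8 / 3 : ℝ) ^ n ≤ (8 / 3) ^ n1 := pow_le_pow_right₀ (by norm_num) (by omega)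
      exact h5.trans (mul_le_mul_of_nonneg_right h6 (by positivity))
    have h7 : 0 ≤ (8 + |K|) * (3 / 8 + ε) ^ n := by positivity
    nlinarith

end SingG
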