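import Pool.Agent.Lib.MP_686cbb_pr.Final

/-!
# The probability of twins, and the sharp asymptotics of the structured part
-/

namespace SingG

open Finset Filter

variable {n : ℕ}

/-- `i` and `j` are twins outside `T`. -/
def Tw (T : Finset (Fin n)) (i j : Fin n) (ω : Sym2 (Fin n) → Bool) : Prop :=
  ∀ k ∉ T, ((gr ω).Adj i k ↔ (gr ω).Adj j k)

open Classical in
/-- Twin event outside `T ∋ i`-independent: at most one completion. -/
theorem tw_upper (T : Finset (Fin n)) (i j : Fin n) (hij : i ≠ j) (hi : i ∉ T)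
    (G : Finset (Sym2 (Fin n) → Bool))
    (hG : ∀ ω ∈ G, ∀ ω' : Sym2 (Fin n) → Bool,
      (∀ e ∉ Fs i (Finset.univ \ insert i T), ω' e = ω e) → ω' ∈ G) :
    ((G.filter (Tw T i j)).card : ℝ) ≤ 1 / 2 ^ (n - 1 - T.card) * G.card := by
  set D := Finset.univ \ insert i T with hD
  have hiD : i ∉ D := by simp [hD]
  have hcard : (Fs i D).card = n - 1 - T.card := by
    rw [card_Fs, hD, Finset.card_sdiff_of_subset (Finset.subset_univ _), Finset.card_univ,
      Fintype.card_fin, Finset.card_insert_of_notMem hi]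
    omega
  have hfr := fresh (Fs i D) G (Finset.univ.filter (Tw T i j)) hG (1 / 2 ^ (n - 1 - T.card)) (by
    intro ω _
    rw [hcard, one_div_mul_cancel (by positivity)]
    have : ((Fs i D).powerset.filter
        (fun x => upd ω (Fs i D) x ∈ Finset.univ.filter (Tw T i j))).card ≤ 1 := by
      rw [Finset.card_le_one]
      intro x hx y hy
      rw [Finset.mem_filter, Finset.mem_powerset] at hx hy
      have key : ∀ z : Finset (Sym2 (Fin n)),
          upd ω (Fs i D) z ∈ Finset.univ.filter (Tw T i j) → ∀ k ∈ D,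
          (s(i, k) ∈ z ↔ (gr ω).Adj j k) := by
        intro z hz k hk
        have hkT : k ∉ T ∧ k ≠ i := by
          rw [hD, Finset.mem_sdiff, Finset.mem_insert, not_or] at hk
          exact ⟨hk.2.2, hk.2.1⟩
        have h1 := (Finset.mem_filter.1 hz).2 k hkT.1
        rw [gr_adj, gr_adj] at h1
        have h2 : s(i, k) ∈ Fs i D := (mem_Fs hiD).2 (Or.inl ⟨rfl, hk⟩)
        have h3 : s(j, k) ∉ Fs i D := by
          rw [mem_Fs hiD]
          rintro (⟨h, _⟩ | ⟨h, _⟩)
          · exact hij h.symm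
          · exact hkT.2 h
        simp only [upd, h2, h3, if_true, if_false, decide_eq_true_eq] at h1
        rw [gr_adj, ← h1]
        exact ⟨fun h => ⟨hkT.2.symm, h⟩, fun h => h.2⟩
      ext e
      constructor
      · intro he
        obtain ⟨l, hl, rfl⟩ := Finset.mem_image.1 (hx.1 he)
        exact ((key y hy.2 l hl).2 ((key x hx.2 l hl).1 he))
      · intro he
        obtain ⟨l, hl, rfl⟩ := Finset.mem_image.1 (hy.1 he)
        exact ((key x hx.2 l hl).2 ((key y hy.2 l hl).1 he))
    exact_mod_cast this)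
  have heq : G ∩ Finset.univ.filter (Tw T i j) = G.filter (Tw T i j) := by
    ext ω
    simp
  rw [heq] at hfr
  exact hfr

open Classical in
/-- The event that `i, j` are twins. -/
noncomputable def TwE (i j : Fin n) : Finset (Sym2 (Fin n) → Bool) :=
  Finset.univ.filter (Tw ∅ i j)

theorem mem_TwE {i j : Fin n} {ω : Sym2 (Fin n) → Bool} :
    ω ∈ TwE i j ↔ ∀ k, ((gr ω).Adj i k ↔ (gr ω).Adj j k) := by
  classical
  have h : ω ∈ TwE i j ↔ Tw ∅ i j ω := by
    unfold TwE
    rw [Finset.mem_filter]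
    exact ⟨fun h => h.2, fun h => ⟨Finset.mem_univ _, h⟩⟩
  rw [h]
  unfold Tw
  simp

theorem twE_upper (i j : Fin n) (hij : i ≠ j) :
    ((TwE i j).card : ℝ) ≤ 1 / 2 ^ (n - 1) * Fintype.card (Sym2 (Fin n) → Bool) := by
  classical
  have := tw_upper ∅ i j hij (by simp) Finset.univ (fun _ _ _ _ => Finset.mem_univ _)
  rw [Finset.card_empty, Nat.sub_zero, Finset.card_univ] at this
  exact this

theorem twE_lower (i j : Fin n) (hij : i ≠ j) :
    (Fintype.card (Sym2 (Fin n) → Bool) : ℝ) ≤ 2 ^ (n - 1) * (TwE i j).card := by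
  classical
  set F := Fs i (Finset.univ.erase i) with hF
  -- overwrite the row of `i` by the row of `j`
  set m : (Sym2 (Fin n) → Bool) → (Sym2 (Fin n) → Bool) := fun ω =>
    upd ω F (F.filter (fun e => ∃ k, e = s(i, k) ∧ (gr ω).Adj j k ∧ k ≠ i)) with hm
  have hmF : ∀ ω e, e ∉ F → m ω e = ω e := by
    intro ω e he
    simp [hm, upd, he]
  have h1 : (Finset.univ : Finset (Sym2 (Fin n) → Bool)).card ≤
      (F.powerset ×ˢ (TwE i j)).card := by
    apply Finset.card_le_card_of_injOn
      (fun ω => (F.filter (fun e => ω e = true), m ω))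
    · intro ω _
      rw [Finset.mem_coe, Finset.mem_product]
      refine ⟨Finset.mem_powerset.2 (Finset.filter_subset _ _), ?_⟩
      rw [mem_TwE]
      intro k
      by_cases hk : k = i
      · subst hk
        constructor
        · intro h
          exact absurd rfl h.1
        · intro h
          have h2 : (gr (m ω)).Adj k j := h.symm
          rw [hm, upd_adj_i ω k j hij.symm] at h2
          obtain ⟨_, k', hk', h3, h4⟩ := Finset.mem_filter.1 h2
          rw [Sym2.eq_iff] at hk'
          rcases hk' with h5 | h5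
          · rw [← h5.2] at h3
            exact absurd rfl h3.1
          · exact absurd h5.1.symm h4
      · rw [hm, upd_adj_i ω i k hk, upd_adj_j ω i j k hk hij.symm]
        constructor
        · intro h2
          obtain ⟨_, k', hk', h3, h4⟩ := Finset.mem_filter.1 h2
          rw [Sym2.eq_iff] at hk'
          rcases hk' with h5 | h5
          · rw [h5.2]
            exact h3
          · exact absurd h5.1.symm h4
        · intro h2
          refine Finset.mem_filter.2 ⟨mem_Fs'.2 (Or.inl ⟨rfl, hk⟩), k, rfl, h2, hk⟩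
    · intro ω _ ω' _ h
      rw [Prod.mk.injEq] at h
      funext e
      by_cases he : e ∈ F
      · have h3 : e ∈ F.filter (fun e => ω e = true) ↔ e ∈ F.filter (fun e => ω' e = true) := by
          rw [h.1]
        simp only [Finset.mem_filter, he, true_and] at h3
        exact Bool.eq_iff_iff.2 h3
      · have h3 := congrFun h.2 e
        rwa [hmF ω e he, hmF ω' e he] at h3
  rw [Finset.card_product, Finset.card_powerset, card_Fs', Finset.card_univ] at h1
  exact_mod_cast h1

/-- Two different twin pairs. -/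
theorem twE_two (i j k l : Fin n) (hij : i ≠ j) (hkl : k ≠ l) (hki : k ≠ i) (hkj : k ≠ j) :
    ((TwE i j ∩ TwE k l).card : ℝ) ≤
      1 / 2 ^ (n - 1) * (1 / 2 ^ (n - 2)) * Fintype.card (Sym2 (Fin n) → Bool) := by
  classical
  set G : Finset (Sym2 (Fin n) → Bool) := Finset.univ.filter (Tw {k} i j) with hG
  have h1 : ((G.filter (Tw ∅ k l)).card : ℝ) ≤ 1 / 2 ^ (n - 1) * G.card := by
    have := tw_upper ∅ k l hkl (by simp) G (by
      intro ω hω ω' h
      rw [hG, Finset.mem_filter] at hω ⊢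
      refine ⟨Finset.mem_univ _, ?_⟩
      intro m hm
      have hmk : m ≠ k := by simpa using hm
      have h2 := hω.2 m hm
      have hkD : k ∉ Finset.univ \ insert k (∅ : Finset (Fin n)) := by simp
      have h3 : ∀ a, a ≠ k → ω' s(a, m) = ω s(a, m) := by
        intro a ha
        apply h
        rw [mem_Fs hkD]
        rintro (⟨h4, _⟩ | ⟨h4, _⟩)
        · exact ha h4
        · exact hmk h4
      rw [gr_adj, gr_adj] at h2 ⊢
      rw [h3 i hki.symm, h3 j hkj.symm]
      exact h2)
    rw [Finset.card_empty, Nat.sub_zero] at this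
    exact this
  have h2 : (G.card : ℝ) ≤ 1 / 2 ^ (n - 2) * Fintype.card (Sym2 (Fin n) → Bool) := by
    have := tw_upper {k} i j hij (by simpa using hki.symm) Finset.univ
      (fun _ _ _ _ => Finset.mem_univ _)
    rw [Finset.card_singleton, Finset.card_univ, Nat.sub_sub] at this
    exact this
  have hsub : TwE i j ∩ TwE k l ⊆ G.filter (Tw ∅ k l) := by
    intro ω hω
    rw [Finset.mem_inter, mem_TwE, mem_TwE] at hω
    rw [Finset.mem_filter, hG, Finset.mem_filter]
    exact ⟨⟨Finset.mem_univ _, fun m _ => hω.1 m⟩, fun m _ => hω.2 m⟩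
  calc ((TwE i j ∩ TwE k l).card : ℝ) ≤ ((G.filter (Tw ∅ k l)).card : ℝ) := by
        exact_mod_cast Finset.card_le_card hsub
    _ ≤ 1 / 2 ^ (n - 1) * G.card := h1
    _ ≤ 1 / 2 ^ (n - 1) * (1 / 2 ^ (n - 2) * Fintype.card (Sym2 (Fin n) → Bool)) :=
        mul_le_mul_of_nonneg_left h2 (by positivity)
    _ = _ := by ring

theorem twE_comm (i j : Fin n) : TwE i j = TwE j i := by
  classical
  ext ω
  rw [mem_TwE, mem_TwE]
  exact ⟨fun h k => (h k).symm, fun h k => (h k).symm⟩

/-- Any two different pairs. -/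
theorem twE_two' (p q : Fin n × Fin n) (hp : p.1 < p.2) (hq : q.1 < q.2) (hpq : p ≠ q) :
    ((TwE p.1 p.2 ∩ TwE q.1 q.2).card : ℝ) ≤
      1 / 2 ^ (n - 1) * (1 / 2 ^ (n - 2)) * Fintype.card (Sym2 (Fin n) → Bool) := by
  by_cases h1 : q.1 = p.1
  · -- then q.2 differs from p.1 and p.2
    have h2 : q.2 ≠ p.2 := by
      intro h
      exact hpq (Prod.ext h1.symm h.symm)
    have h3 : q.2 ≠ p.1 := by
      rw [← h1]
      exact hq.ne'
    rw [twE_comm q.1 q.2]
    exact twE_two p.1 p.2 q.2 q.1 hp.ne hq.ne' h3 h2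
  by_cases h2 : q.1 = p.2
  · have h3 : q.2 ≠ p.2 := by
      rw [← h2]
      exact hq.ne'
    have h4 : q.2 ≠ p.1 := by
      intro h
      rw [h2, h] at hq
      exact absurd hp (not_lt.2 hq.le)
    rw [twE_comm q.1 q.2]
    exact twE_two p.1 p.2 q.2 q.1 hp.ne hq.ne' h4 h3
  · exact twE_two p.1 p.2 q.1 q.2 hp.ne hq.ne h1 h2

/-- Ordered pairs. -/
def Prs (n : ℕ) : Finset (Fin n × Fin n) := Finset.univ.filter (fun p => p.1 < p.2)

theorem card_Prs (n : ℕ) : ((Prs n).card : ℝ) = n * (n - 1) / 2 := by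
  have h : (Prs n).card * 2 = n * (n - 1) := by
    have h1 : (Finset.univ.filter (fun p : Fin n × Fin n => p.1 < p.2)).card =
        (Finset.univ.filter (fun p : Fin n × Fin n => p.2 < p.1)).card := by
      apply Finset.card_bij (fun p _ => (p.2, p.1))
      · intro p hp
        simpa using hp
      · intro p _ q _ h
        rw [Prod.mk.injEq] at h
        exact Prod.ext h.2 h.1
      · intro p hp
        exact ⟨(p.2, p.1), by simpa using hp, rfl⟩
    have h2 : (Finset.univ.filter (fun p : Fin n × Fin n => p.1 = p.2)).card = n := by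
      have : (Finset.univ.filter (fun p : Fin n × Fin n => p.1 = p.2)) =
          Finset.univ.image (fun i : Fin n => (i, i)) := by
        ext ⟨a, b⟩
        simp only [mem_filter, mem_univ, true_and, mem_image, Prod.mk.injEq]
        constructor
        · intro h
          exact ⟨a, rfl, h⟩
        · rintro ⟨c, rfl, rfl⟩
          rfl
      rw [this, Finset.card_image_of_injective]
      · simp
      · intro a b h
        rw [Prod.mk.injEq] at h
        exact h.1
    have h3 : (Finset.univ : Finset (Fin n × Fin n)).card = n * n := by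
      rw [Finset.card_univ, Fintype.card_prod, Fintype.card_fin]
    have h4 : (Finset.univ : Finset (Fin n × Fin n)) =
        (Finset.univ.filter (fun p : Fin n × Fin n => p.1 < p.2)) ∪
        ((Finset.univ.filter (fun p : Fin n × Fin n => p.2 < p.1)) ∪
        (Finset.univ.filter (fun p : Fin n × Fin n => p.1 = p.2))) := by
      ext ⟨a, b⟩
      simp only [mem_filter, mem_univ, true_and, mem_union]
      rcases lt_trichotomy a b with h | h | h
      · simp [h]
      · simp [h]
      · simp [h]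
    have h5 : Disjoint (Finset.univ.filter (fun p : Fin n × Fin n => p.2 < p.1))
        (Finset.univ.filter (fun p : Fin n × Fin n => p.1 = p.2)) := by
      rw [Finset.disjoint_left]
      rintro ⟨a, b⟩ h6 h7
      simp only [mem_filter, mem_univ, true_and] at h6 h7
      exact absurd h7 h6.ne'
    have h6 : Disjoint (Finset.univ.filter (fun p : Fin n × Fin n => p.1 < p.2))
        ((Finset.univ.filter (fun p : Fin n × Fin n => p.2 < p.1)) ∪
        (Finset.univ.filter (fun p : Fin n × Fin n => p.1 = p.2))) := by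
      rw [Finset.disjoint_left]
      rintro ⟨a, b⟩ h6 h7
      simp only [mem_filter, mem_univ, true_and, mem_union] at h6 h7
      rcases h7 with h7 | h7
      · exact absurd h7 (not_lt.2 h6.le)
      · exact absurd h7 h6.ne
    rw [h4, Finset.card_union_of_disjoint h6, Finset.card_union_of_disjoint h5, ← h1, h2] at h3
    unfold Prs
    have h7 : n * (n - 1) = n * n - n := by
      rw [Nat.mul_sub, Nat.mul_one]
    omega
  rcases Nat.eq_zero_or_pos n with h0 | h0
  · subst h0
    simp [Prs]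
  · have h8 : (((Prs n).card * 2 : ℕ) : ℝ) = ((n * (n - 1) : ℕ) : ℝ) := by rw [h]
    rw [Nat.cast_mul, Nat.cast_mul, Nat.cast_sub h0] at h8
    push_cast at h8
    linarith

open Classical in
theorem twins_upper (hn : 1 ≤ n) :
    ((Finset.univ.filter (fun ω : Sym2 (Fin n) → Bool => Twins (gr ω))).card : ℝ) ≤
      ((n : ℝ) ^ 2 + n) / 2 ^ n * Fintype.card (Sym2 (Fin n) → Bool) := by
  set A : Fin n → Finset (Sym2 (Fin n) → Bool) := fun i =>
    Finset.univ.filter (fun ω => ∀ k, ¬ (gr ω).Adj i k) with hA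
  have hA1 : ∀ i, ((A i).card : ℝ) ≤ 1 / 2 ^ (n - 1) * Fintype.card (Sym2 (Fin n) → Bool) := by
    intro i
    apply fresh_one i
    intro ω x y hx hy h1 h2
    simp only [hA, Finset.mem_filter, Finset.mem_univ, true_and] at h1 h2
    apply ext_Fs hx hy
    intro k hk
    have e1 := h1 k
    have e2 := h2 k
    rw [upd_adj_i ω i k hk] at e1 e2
    tauto
  have hsub : (Finset.univ.filter (fun ω : Sym2 (Fin n) → Bool => Twins (gr ω))) ⊆
      (Finset.univ.biUnion A) ∪ ((Prs n).biUnion (fun p => TwE p.1 p.2)) := by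
    intro ω hω
    rw [Finset.mem_union, Finset.mem_biUnion, Finset.mem_biUnion]
    rcases (Finset.mem_filter.1 hω).2 with ⟨i, hi⟩ | ⟨i, j, hij, h⟩
    · left
      exact ⟨i, Finset.mem_univ _, Finset.mem_filter.2 ⟨Finset.mem_univ _, hi⟩⟩
    · right
      have h1 : ω ∈ TwE i j := mem_TwE.2 h
      rcases lt_or_gt_of_ne hij with h2 | h2
      · exact ⟨(i, j), Finset.mem_filter.2 ⟨Finset.mem_univ _, h2⟩, h1⟩
      · exact ⟨(j, i), Finset.mem_filter.2 ⟨Finset.mem_univ _, h2⟩, by rw [twE_comm]; exact h1⟩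
  have h3 : ((Finset.univ.biUnion A).card : ℝ) ≤
      n * (1 / 2 ^ (n - 1) * Fintype.card (Sym2 (Fin n) → Bool)) := by
    calc ((Finset.univ.biUnion A).card : ℝ) ≤ ∑ i, ((A i).card : ℝ) := by
          exact_mod_cast Finset.card_biUnion_le
      _ ≤ ∑ _i : Fin n, 1 / 2 ^ (n - 1) * (Fintype.card (Sym2 (Fin n) → Bool) : ℝ) :=
          Finset.sum_le_sum (fun i _ => hA1 i)
      _ = n * (1 / 2 ^ (n - 1) * Fintype.card (Sym2 (Fin n) → Bool)) := by
          rw [Finset.sum_const, nsmul_eq_mul, Finset.card_univ, Fintype.card_fin]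
  have h4 : (((Prs n).biUnion (fun p => TwE p.1 p.2)).card : ℝ) ≤
      n * (n - 1) / 2 * (1 / 2 ^ (n - 1) * Fintype.card (Sym2 (Fin n) → Bool)) := by
    calc (((Prs n).biUnion (fun p => TwE p.1 p.2)).card : ℝ)
        ≤ ∑ p ∈ Prs n, ((TwE p.1 p.2).card : ℝ) := by
          exact_mod_cast Finset.card_biUnion_le
      _ ≤ ∑ _p ∈ Prs n, 1 / 2 ^ (n - 1) * (Fintype.card (Sym2 (Fin n) → Bool) : ℝ) :=
          Finset.sum_le_sum (fun p hp => twE_upper p.1 p.2 (Finset.mem_filter.1 hp).2.ne)
      _ = n * (n - 1) / 2 * (1 / 2 ^ (n - 1) * Fintype.card (Sym2 (Fin n) → Bool)) := by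
          rw [Finset.sum_const, nsmul_eq_mul, card_Prs]
  have h5 : ((Finset.univ.filter (fun ω : Sym2 (Fin n) → Bool => Twins (gr ω))).card : ℝ) ≤
      ((Finset.univ.biUnion A).card : ℝ) +
        (((Prs n).biUnion (fun p => TwE p.1 p.2)).card : ℝ) := by
    exact_mod_cast (Finset.card_le_card hsub).trans (Finset.card_union_le _ _)
  refine h5.trans ((add_le_add h3 h4).trans (le_of_eq ?_))
  have e1 : (2 : ℝ) ^ n = 2 * 2 ^ (n - 1) := by
    rw [← pow_succ']
    congr 1
    omega
  rw [e1]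
  field_simp
  ring

open Classical in
theorem twins_lower (hn : 2 ≤ n) :
    ((n : ℝ) ^ 2 - n - 8 * n ^ 4 / 2 ^ n) / 2 ^ n * Fintype.card (Sym2 (Fin n) → Bool) ≤
      ((Finset.univ.filter (fun ω : Sym2 (Fin n) → Bool => Twins (gr ω))).card : ℝ) := by
  set Ω := (Fintype.card (Sym2 (Fin n) → Bool) : ℝ) with hΩ
  have hΩ0 : 0 ≤ Ω := by positivity
  -- Bonferroni via counting
  have hB : ∑ p ∈ Prs n, ((TwE p.1 p.2).card : ℝ) ≤
      ((Finset.univ.filter (fun ω : Sym2 (Fin n) → Bool => Twins (gr ω))).card : ℝ) +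
      ∑ p ∈ Prs n, ∑ q ∈ (Prs n).erase p, ((TwE p.1 p.2 ∩ TwE q.1 q.2).card : ℝ) := by
    have e1 : ∀ S : Finset (Sym2 (Fin n) → Bool),
        (S.card : ℝ) = ∑ ω, (if ω ∈ S then (1 : ℝ) else 0) := by
      intro S
      rw [Finset.sum_boole]
      simp
    have e2 : ∑ p ∈ Prs n, ((TwE p.1 p.2).card : ℝ) =
        ∑ ω, ∑ p ∈ Prs n, (if ω ∈ TwE p.1 p.2 then (1 : ℝ) else 0) := by
      rw [Finset.sum_comm]
      exact Finset.sum_congr rfl (fun p _ => e1 _)
    have e3 : ∑ p ∈ Prs n, ∑ q ∈ (Prs n).erase p, ((TwE p.1 p.2 ∩ TwE q.1 q.2).card : ℝ) =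
        ∑ ω, ∑ p ∈ Prs n, ∑ q ∈ (Prs n).erase p,
          (if ω ∈ TwE p.1 p.2 ∩ TwE q.1 q.2 then (1 : ℝ) else 0) := by
      rw [Finset.sum_comm]
      apply Finset.sum_congr rfl
      intro p _
      rw [Finset.sum_comm]
      exact Finset.sum_congr rfl (fun q _ => e1 _)
    rw [e2, e3, e1, ← Finset.sum_add_distrib]
    apply Finset.sum_le_sum
    intro ω _
    -- k = number of twin pairs
    set Q := (Prs n).filter (fun p => ω ∈ TwE p.1 p.2) with hQ
    have f1 : ∑ p ∈ Prs n, (if ω ∈ TwE p.1 p.2 then (1 : ℝ) else 0) = Q.card := by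
      rw [Finset.sum_boole]
    have f2 : ∑ p ∈ Prs n, ∑ q ∈ (Prs n).erase p,
          (if ω ∈ TwE p.1 p.2 ∩ TwE q.1 q.2 then (1 : ℝ) else 0) ≥
          ∑ p ∈ Q, ((Q.erase p).card : ℝ) := by
      have g1 : ∑ p ∈ Q, ((Q.erase p).card : ℝ) ≤ ∑ p ∈ Q, ∑ q ∈ (Prs n).erase p,
          (if ω ∈ TwE p.1 p.2 ∩ TwE q.1 q.2 then (1 : ℝ) else 0) := by
        apply Finset.sum_le_sum
        intro p hp
        rw [Finset.sum_boole]
        rw [Nat.cast_le]
        apply Finset.card_le_card
        intro q hq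
        rw [Finset.mem_erase] at hq
        rw [Finset.mem_filter, Finset.mem_erase, Finset.mem_inter]
        have hq' := Finset.mem_filter.1 hq.2
        exact ⟨⟨hq.1, hq'.1⟩, (Finset.mem_filter.1 hp).2, hq'.2⟩
      refine g1.trans ?_
      apply Finset.sum_le_sum_of_subset_of_nonneg (Finset.filter_subset _ _)
      intro p _ _
      apply Finset.sum_nonneg
      intro q _
      split_ifs <;> norm_num
    have f3 : ∑ p ∈ Q, ((Q.erase p).card : ℝ) = Q.card * ((Q.card : ℝ) - 1) := by
      have : ∀ p ∈ Q, ((Q.erase p).card : ℝ) = (Q.card : ℝ) - 1 := by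
        intro p hp
        rw [Finset.card_erase_of_mem hp, Nat.cast_sub (Finset.card_pos.2 ⟨p, hp⟩)]
        simp
      rw [Finset.sum_congr rfl this, Finset.sum_const, nsmul_eq_mul]
    rw [f1]
    by_cases hQ0 : Q.card = 0
    · rw [hQ0]
      have : 0 ≤ ∑ p ∈ Prs n, ∑ q ∈ (Prs n).erase p,
          (if ω ∈ TwE p.1 p.2 ∩ TwE q.1 q.2 then (1 : ℝ) else 0) := by
        apply Finset.sum_nonneg
        intro p _
        apply Finset.sum_nonneg
        intro q _
        split_ifs <;> norm_num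
      have h' : (0 : ℝ) ≤ (if ω ∈ Finset.univ.filter
          (fun ω : Sym2 (Fin n) → Bool => Twins (gr ω)) then (1 : ℝ) else 0) := by
        split_ifs <;> norm_num
      push_cast
      linarith
    · have hQ1 : 1 ≤ Q.card := by omega
      obtain ⟨p, hp⟩ := Finset.card_pos.1 hQ1
      have hT : ω ∈ Finset.univ.filter (fun ω : Sym2 (Fin n) → Bool => Twins (gr ω)) := by
        rw [Finset.mem_filter]
        refine ⟨Finset.mem_univ _, Or.inr ⟨p.1, p.2, ?_, ?_⟩⟩
        · exact (Finset.mem_filter.1 (Finset.mem_filter.1 hp).1).2.ne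
        · exact mem_TwE.1 (Finset.mem_filter.1 hp).2
      rw [if_pos hT]
      rw [f3] at f2
      have hQr : (1 : ℝ) ≤ Q.card := by exact_mod_cast hQ1
      nlinarith
  have e1 : (2 : ℝ) ^ n = 2 * 2 ^ (n - 1) := by
    rw [← pow_succ']
    congr 1
    omega
  have e2 : (2 : ℝ) ^ n = 4 * 2 ^ (n - 2) := by
    rw [show (4 : ℝ) = 2 ^ 2 by norm_num, ← pow_add]
    congr 1
    omega
  have hlow : ((n : ℝ) ^ 2 - n) / 2 ^ n * Ω ≤ ∑ p ∈ Prs n, ((TwE p.1 p.2).card : ℝ) := by
    calc ((n : ℝ) ^ 2 - n) / 2 ^ n * Ω = ∑ _p ∈ Prs n, (1 / 2 ^ (n - 1) * Ω) := by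
          rw [Finset.sum_const, nsmul_eq_mul, card_Prs, e1]
          field_simp
      _ ≤ _ := by
          apply Finset.sum_le_sum
          intro p hp
          have := twE_lower p.1 p.2 (Finset.mem_filter.1 hp).2.ne
          rw [one_div, inv_mul_le_iff₀ (by positivity)]
          exact this
  have hup : ∑ p ∈ Prs n, ∑ q ∈ (Prs n).erase p, ((TwE p.1 p.2 ∩ TwE q.1 q.2).card : ℝ) ≤
      8 * n ^ 4 / 2 ^ n / 2 ^ n * Ω := by
    have g1 : ∀ p ∈ Prs n, ∑ q ∈ (Prs n).erase p, ((TwE p.1 p.2 ∩ TwE q.1 q.2).card : ℝ) ≤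
        n ^ 2 * (1 / 2 ^ (n - 1) * (1 / 2 ^ (n - 2)) * Ω) := by
      intro p hp
      calc ∑ q ∈ (Prs n).erase p, ((TwE p.1 p.2 ∩ TwE q.1 q.2).card : ℝ)
          ≤ ∑ _q ∈ (Prs n).erase p, (1 / 2 ^ (n - 1) * (1 / 2 ^ (n - 2)) * Ω) := by
            apply Finset.sum_le_sum
            intro q hq
            rw [Finset.mem_erase] at hq
            exact twE_two' p q (Finset.mem_filter.1 hp).2 (Finset.mem_filter.1 hq.2).2 hq.1.symm
        _ = ((Prs n).erase p).card * (1 / 2 ^ (n - 1) * (1 / 2 ^ (n - 2)) * Ω) := by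
            rw [Finset.sum_const, nsmul_eq_mul]
        _ ≤ n ^ 2 * (1 / 2 ^ (n - 1) * (1 / 2 ^ (n - 2)) * Ω) := by
            apply mul_le_mul_of_nonneg_right _ (by positivity)
            have : ((Prs n).erase p).card ≤ n ^ 2 := by
              refine (Finset.card_le_univ _).trans ?_
              rw [Fintype.card_prod, Fintype.card_fin, sq]
            exact_mod_cast this
    calc ∑ p ∈ Prs n, ∑ q ∈ (Prs n).erase p, ((TwE p.1 p.2 ∩ TwE q.1 q.2).card : ℝ)
        ≤ ∑ _p ∈ Prs n, (n ^ 2 * (1 / 2 ^ (n - 1) * (1 / 2 ^ (n - 2)) * Ω) : ℝ) :=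
          Finset.sum_le_sum g1
      _ = (Prs n).card * (n ^ 2 * (1 / 2 ^ (n - 1) * (1 / 2 ^ (n - 2)) * Ω)) := by
          rw [Finset.sum_const, nsmul_eq_mul]
      _ ≤ n ^ 2 * (n ^ 2 * (1 / 2 ^ (n - 1) * (1 / 2 ^ (n - 2)) * Ω)) := by
          apply mul_le_mul_of_nonneg_right _ (by positivity)
          have : (Prs n).card ≤ n ^ 2 := by
            refine (Finset.card_le_univ _).trans ?_
            rw [Fintype.card_prod, Fintype.card_fin, sq]
          exact_mod_cast this
      _ = 8 * n ^ 4 / 2 ^ n / 2 ^ n * Ω := by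
          nth_rewrite 1 [e1]
          rw [e2]
          field_simp
          ring
  have hfin : ((n : ℝ) ^ 2 - n - 8 * n ^ 4 / 2 ^ n) / 2 ^ n * Ω =
      ((n : ℝ) ^ 2 - n) / 2 ^ n * Ω - 8 * n ^ 4 / 2 ^ n / 2 ^ n * Ω := by
    ring
  rw [hfin]
  linarith

theorem twins_structured : ∀ᶠ n : ℕ in atTop, ∀ ω : Sym2 (Fin n) → Bool, Twins (gr ω) →
    Structured ((n : ℝ) - CC * n / Real.log n) (gr ω) := by
  classical
  have hlog : ∀ᶠ n : ℕ in atTop, 2 * CC ≤ Real.log n := by
    have := Real.tendsto_log_atTop.comp (tendsto_natCast_atTop_atTop (R := ℝ))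
    exact this.eventually_ge_atTop _
  filter_upwards [hlog, eventually_gt_atTop 4] with n hn hn4
  have hCC : 0 < CC := by
    unfold CC
    norm_num
  have hL : 0 < Real.log n := by linarith
  have hn4' : (4 : ℝ) ≤ n := by
    have : 4 ≤ n := by omega
    exact_mod_cast this
  have h2n : (2 : ℝ) ≤ (n : ℝ) - CC * n / Real.log n := by
    have h4 : CC * n / Real.log n ≤ n / 2 := by
      rw [div_le_iff₀ hL]
      nlinarith
    linarith
  intro ω hω
  rw [structured_gr]
  rcases hω with ⟨i0, hiso⟩ | ⟨a, b, hab, htw⟩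
  · refine ⟨Pi.single i0 1, ?_, ?_, ?_⟩
    · intro h
      have := congrFun h i0
      simp at this
    · intro i
      unfold row
      apply Finset.sum_eq_zero
      intro l _
      by_cases hl : l = i0
      · rw [hl]
        have : ent ω i i0 = 0 := by
          rcases ent_zero_or_one ω i i0 with h | h
          · exact h
          · exact absurd ((ent_one_iff ω i i0).1 h).symm (hiso i)
        rw [this, zero_mul]
      · simp [hl]
    · have h1 : absv (Pi.single i0 (1 : ℝ) : Fin n → ℝ) ⊆ {0, 1} := by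
        intro y hy
        obtain ⟨i, _, rfl⟩ := Finset.mem_image.1 hy
        by_cases h : i = i0
        · simp [h]
        · simp [h]
      have h2 : (absv (Pi.single i0 (1 : ℝ) : Fin n → ℝ)).card ≤ 2 :=
        (Finset.card_le_card h1).trans Finset.card_le_two
      have h3 : ((absv (Pi.single i0 (1 : ℝ) : Fin n → ℝ)).card : ℝ) ≤ 2 := by exact_mod_cast h2
      exact h3.trans h2n
  · set v : Fin n → ℝ := fun i => if i = a then 1 else if i = b then -1 else 0 with hv
    refine ⟨v, ?_, ?_, ?_⟩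
    · intro h
      have := congrFun h a
      simp [hv] at this
    · intro i
      have h1 : row ω i v = ent ω i a - ent ω i b := by
        unfold row
        have h2 : ∀ l, ent ω i l * v l =
            (if l = a then ent ω i a else 0) + (if l = b then -ent ω i b else 0) := by
          intro l
          by_cases h3 : l = a
          · subst h3
            simp [hv, hab]
          · by_cases h4 : l = b
            · subst h4
              simp [hv, h3]
            · simp [hv, h3, h4]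
        rw [Finset.sum_congr rfl (fun l _ => h2 l), Finset.sum_add_distrib]
        simp
        ring
      rw [h1]
      have h5 := htw i
      rw [(gr ω).adj_comm a i, (gr ω).adj_comm b i, ← ent_one_iff, ← ent_one_iff] at h5
      rcases ent_zero_or_one ω i a with h6 | h6 <;> rcases ent_zero_or_one ω i b with h7 | h7
      · rw [h6, h7, sub_zero]
      · exact absurd (h5.2 h7) (by rw [h6]; norm_num)
      · exact absurd (h5.1 h6) (by rw [h7]; norm_num)
      · rw [h6, h7, sub_self]
    · have h1 : absv v ⊆ {0, 1} := by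
        intro y hy
        obtain ⟨i, _, rfl⟩ := Finset.mem_image.1 hy
        by_cases h3 : i = a
        · simp [hv, h3]
        · by_cases h4 : i = b
          · subst h4
            simp [hv, h3]
          · simp [hv, h3, h4]
      have h2 : (absv v).card ≤ 2 := (Finset.card_le_card h1).trans Finset.card_le_two
      have h3 : ((absv v).card : ℝ) ≤ 2 := by exact_mod_cast h2
      exact h3.trans h2n

theorem sharp_upper : ∃ K : ℝ, 0 ≤ K ∧ ∀ n : ℕ, 1 ≤ n →
    (Nat.card {G : SimpleGraph (Fin n) // Structured ((n : ℝ) - CC * n / Real.log n) G} : ℝ) /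
      Nat.card (SimpleGraph (Fin n)) ≤ ((n : ℝ) ^ 2 + n) / 2 ^ n + K * (7 / 16) ^ n := by
  classical
  obtain ⟨K, hK⟩ := part_one (1 / 16) (by norm_num)
  refine ⟨|K|, abs_nonneg K, fun n hn => ?_⟩
  rw [div_le_iff₀ card_graph_pos]
  have h1 := transfer (n := n) (fun G => Twins G) (((n : ℝ) ^ 2 + n) / 2 ^ n) _
      (fun ω hω => Finset.mem_filter.2 ⟨Finset.mem_univ _, hω⟩) (twins_upper hn)
  have h2 := hK n
  have h3 : Nat.card {G : SimpleGraph (Fin n) // Structured ((n : ℝ) - CC * n / Real.log n) G} ≤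
      Nat.card {G : SimpleGraph (Fin n) // Twins G} +
      Nat.card {G : SimpleGraph (Fin n) // ¬ Twins G ∧
        Structured ((n : ℝ) - CC * n / Real.log n) G} := by
    simp only [Nat.card_eq_fintype_card, Fintype.card_subtype]
    refine le_trans (Finset.card_le_card ?_) (Finset.card_union_le _ _)
    intro G hG
    rw [Finset.mem_union, Finset.mem_filter, Finset.mem_filter]
    by_cases ht : Twins G
    · exact Or.inl ⟨Finset.mem_univ _, ht⟩
    · exact Or.inr ⟨Finset.mem_univ _, ht, (Finset.mem_filter.1 hG).2⟩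
  have h3' : (Nat.card {G : SimpleGraph (Fin n) //
      Structured ((n : ℝ) - CC * n / Real.log n) G} : ℝ) ≤
      Nat.card {G : SimpleGraph (Fin n) // Twins G} +
      Nat.card {G : SimpleGraph (Fin n) // ¬ Twins G ∧
        Structured ((n : ℝ) - CC * n / Real.log n) G} := by exact_mod_cast h3
  have h5 : K * (3 / 8 + 1 / 16) ^ n ≤ |K| * (7 / 16) ^ n := by
    have e1 : (3 / 8 + 1 / 16 : ℝ) = 7 / 16 := by norm_num
    rw [e1]
    exact mul_le_mul_of_nonneg_right (le_abs_self K) (by positivity)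
  have hpos := card_graph_pos (n := n)
  calc (Nat.card {G : SimpleGraph (Fin n) //
      Structured ((n : ℝ) - CC * n / Real.log n) G} : ℝ)
      ≤ ((n : ℝ) ^ 2 + n) / 2 ^ n * Nat.card (SimpleGraph (Fin n)) +
        K * (3 / 8 + 1 / 16) ^ n * Nat.card (SimpleGraph (Fin n)) := h3'.trans (add_le_add h1 h2)
    _ = (((n : ℝ) ^ 2 + n) / 2 ^ n + K * (3 / 8 + 1 / 16) ^ n) *
        Nat.card (SimpleGraph (Fin n)) := by ring
    _ ≤ _ := by
        apply mul_le_mul_of_nonneg_right _ hpos.le
        linarith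

theorem sharp_lower : ∀ᶠ n : ℕ in atTop, ((n : ℝ) ^ 2 - n - 8 * n ^ 4 / 2 ^ n) / 2 ^ n ≤
    (Nat.card {G : SimpleGraph (Fin n) // Structured ((n : ℝ) - CC * n / Real.log n) G} : ℝ) /
      Nat.card (SimpleGraph (Fin n)) := by
  classical
  filter_upwards [twins_structured, eventually_ge_atTop 2] with n hn hn2
  rw [le_div_iff₀ card_graph_pos]
  exact transfer_ge (n := n) (fun G => Structured ((n : ℝ) - CC * n / Real.log n) G) _
    (Finset.univ.filter (fun ω : Sym2 (Fin n) → Bool => Twins (gr ω)))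
    (fun ω hω => hn ω (Finset.mem_filter.1 hω).2) (twins_lower hn2)

/-- Sharp asymptotics. -/
theorem part_three : Tendsto (fun n : ℕ =>
    ((Nat.card {G : SimpleGraph (Fin n) // Structured ((n : ℝ) - CC * n / Real.log n) G} : ℝ) /
      Nat.card (SimpleGraph (Fin n))) / ((n : ℝ) ^ 2 / 2 ^ n)) atTop (nhds 1) := by
  obtain ⟨K, hK0, hK⟩ := sharp_upper
  have hinv : Tendsto (fun n : ℕ => (1 : ℝ) / n) atTop (nhds 0) :=
    tendsto_one_div_atTop_nhds_zero_nat
  have hgeo : Tendsto (fun n : ℕ => (7 / 8 : ℝ) ^ n) atTop (nhds 0) :=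
    tendsto_pow_atTop_nhds_zero_of_lt_one (by norm_num) (by norm_num)
  have hpoly : Tendsto (fun n : ℕ => (n : ℝ) ^ 2 * (1 / 2 : ℝ) ^ n) atTop (nhds 0) :=
    tendsto_pow_const_mul_const_pow_of_abs_lt_one 2 (by
      rw [abs_of_pos (by norm_num)]
      norm_num)
  have hlo : Tendsto (fun n : ℕ => 1 - 1 / (n : ℝ) - 8 * ((n : ℝ) ^ 2 * (1 / 2 : ℝ) ^ n))
      atTop (nhds 1) := by
    have := (tendsto_const_nhds (x := (1 : ℝ))).sub hinv |>.sub (hpoly.const_mul 8)
    simpa using this
  have hup : Tendsto (fun n : ℕ => 1 + 1 / (n : ℝ) + K * (7 / 8 : ℝ) ^ n) atTop (nhds 1) := by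
    have := (tendsto_const_nhds (x := (1 : ℝ))).add hinv |>.add (hgeo.const_mul K)
    simpa using this
  apply tendsto_of_tendsto_of_tendsto_of_le_of_le' hlo hup
  · filter_upwards [sharp_lower, eventually_gt_atTop 0] with n hn hn0
    have hn0' : (0 : ℝ) < n := by exact_mod_cast hn0
    rw [le_div_iff₀ (by positivity)]
    refine le_trans (le_of_eq ?_) hn
    rw [one_div_pow]
    field_simp
  · filter_upwards [eventually_gt_atTop 0] with n hn0
    have hn0' : (0 : ℝ) < n := by exact_mod_cast hn0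
    have hn1 : (1 : ℝ) ≤ n := by exact_mod_cast hn0
    rw [div_le_iff₀ (by positivity)]
    refine (hK n hn0).trans ?_
    have h78 : (7 / 8 : ℝ) ^ n / 2 ^ n = (7 / 16) ^ n := by
      rw [← div_pow]
      norm_num
    have h2 : K * (7 / 16) ^ n ≤ K * (7 / 8 : ℝ) ^ n * ((n : ℝ) ^ 2 / 2 ^ n) := by
      have h3 : K * (7 / 8 : ℝ) ^ n * ((n : ℝ) ^ 2 / 2 ^ n) =
          (K * ((7 / 8 : ℝ) ^ n / 2 ^ n)) * (n : ℝ) ^ 2 := by ring
      rw [h3, h78]
      have h4 : 0 ≤ K * (7 / 16 : ℝ) ^ n := by positivity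
      have h5 : (1 : ℝ) ≤ (n : ℝ) ^ 2 := by nlinarith
      calc K * (7 / 16 : ℝ) ^ n = K * (7 / 16 : ℝ) ^ n * 1 := by ring
        _ ≤ _ := mul_le_mul_of_nonneg_left h5 h4
    have h6 : ((n : ℝ) ^ 2 + n) / 2 ^ n = (1 + 1 / (n : ℝ)) * ((n : ℝ) ^ 2 / 2 ^ n) := by
      field_simp
    rw [h6]
    linarith

end SingG
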