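import Pool.Agent.Lib.MP_686cbb_pr.Pattern

/-!
# Union bounds
-/

namespace SingG

open Finset

variable {n : ℕ}

theorem choose_half_three (s : ℕ) (hs : 3 ≤ s) : 8 * s.choose (s / 2) ≤ 3 * 2 ^ s := by
  induction s, hs using Nat.le_induction with
  | base => decide
  | succ s hs ih =>
    have h1 : (s + 1).choose ((s + 1) / 2) ≤ 2 * s.choose (s / 2) := by
      obtain ⟨k, hk⟩ : ∃ k, (s + 1) / 2 = k + 1 := ⟨(s + 1) / 2 - 1, by omega⟩
      rw [hk, Nat.choose_succ_succ, Nat.succ_eq_add_one]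
      have h2 := Nat.choose_le_middle k s
      have h3 := Nat.choose_le_middle (k + 1) s
      omega
    calc 8 * (s + 1).choose ((s + 1) / 2) ≤ 8 * (2 * s.choose (s / 2)) := Nat.mul_le_mul_left _ h1
      _ = 2 * (8 * s.choose (s / 2)) := by ring
      _ ≤ 2 * (3 * 2 ^ s) := Nat.mul_le_mul_left _ ih
      _ = 3 * 2 ^ (s + 1) := by ring

theorem card_small_sets (m : ℕ) (x : ℝ) (hx0 : 0 < x) (hx1 : x ≤ 1) :
    (((Finset.univ : Finset (Finset (Fin n))).filter (fun S => S.card ≤ m)).card : ℝ) ≤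
      (1 + x) ^ n / x ^ m := by
  classical
  have h := Finset.sum_pow_mul_eq_add_pow x 1 (Finset.univ : Finset (Fin n))
  simp only [one_pow, mul_one, Finset.powerset_univ, Finset.card_univ, Fintype.card_fin] at h
  rw [le_div_iff₀ (by positivity), add_comm 1 x, ← h, ← nsmul_eq_mul, ← Finset.sum_const]
  calc ∑ _S ∈ (Finset.univ : Finset (Finset (Fin n))).filter (fun S => S.card ≤ m), x ^ m
      ≤ ∑ S ∈ (Finset.univ : Finset (Finset (Fin n))).filter (fun S => S.card ≤ m),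
          x ^ S.card := by
        apply Finset.sum_le_sum
        intro S hS
        exact pow_le_pow_of_le_one hx0.le hx1 (Finset.mem_filter.1 hS).2
    _ ≤ ∑ S : Finset (Fin n), x ^ S.card := by
        apply Finset.sum_le_sum_of_subset_of_nonneg (Finset.filter_subset _ _)
        intro S _ _
        positivity

open Classical in
/-- Middle supports. -/
theorem union_mid (m : ℕ) (hm : 0 < m) :
    ((Finset.univ.filter (fun ω : Sym2 (Fin n) → Bool => ∃ v : Fin n → ℝ, v ≠ 0 ∧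
        (∀ i, row ω i v = 0) ∧ m ≤ (supp v).card ∧ 4 * m ≤ n - (supp v).card)).card : ℝ) ≤
      4 ^ n * (1 / Real.sqrt m) ^ m * Fintype.card (Sym2 (Fin n) → Bool) := by
  have hm1 : (1 : ℝ) ≤ m := by exact_mod_cast hm
  have hs1 : 1 ≤ Real.sqrt m := Real.one_le_sqrt.2 hm1
  have hc0 : 0 ≤ 1 / Real.sqrt m := by positivity
  have hc1 : 1 / Real.sqrt m ≤ 1 := by
    rw [div_le_one (by linarith)]
    exact hs1
  set Pr : Finset (Finset (Fin n) × Finset (Fin n)) := Finset.univ.filter (fun p =>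
    m ≤ p.1.card ∧ 4 * m ≤ n - p.1.card ∧ p.2.card + 1 ≤ p.1.card) with hPr
  have hsub : (Finset.univ.filter (fun ω : Sym2 (Fin n) → Bool => ∃ v : Fin n → ℝ, v ≠ 0 ∧
        (∀ i, row ω i v = 0) ∧ m ≤ (supp v).card ∧ 4 * m ≤ n - (supp v).card)) ⊆
      Pr.biUnion (fun p => Finset.univ.filter (EvA p.1 p.2)) := by
    intro ω hω
    obtain ⟨v, hv0, hk, h1, h2⟩ := (Finset.mem_filter.1 hω).2
    obtain ⟨I, hI, hE⟩ := exists_evA ω v hv0 hk
    rw [Finset.mem_biUnion]
    refine ⟨(supp v, I), ?_, ?_⟩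
    · rw [hPr, Finset.mem_filter]
      exact ⟨Finset.mem_univ _, h1, h2, hI⟩
    · exact Finset.mem_filter.2 ⟨Finset.mem_univ _, hE⟩
  have hone : ∀ p ∈ Pr, ((Finset.univ.filter (EvA p.1 p.2)).card : ℝ) ≤
      (1 / Real.sqrt m) ^ m * Fintype.card (Sym2 (Fin n) → Bool) := by
    intro p hp
    obtain ⟨h1, h2, h3⟩ := (Finset.mem_filter.1 hp).2
    have hcu : (Finset.univ \ (p.1 ∪ p.2)).card + (p.1 \ p.2).card + p.2.card = n := by
      have e1 : (Finset.univ \ (p.1 ∪ p.2)).card + (p.1 ∪ p.2).card = n := by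
        rw [Finset.card_sdiff_of_subset (Finset.subset_univ _), Finset.card_univ,
          Fintype.card_fin]
        have := Finset.card_le_univ (p.1 ∪ p.2)
        rw [Fintype.card_fin] at this
        omega
      have e2 : (p.1 \ p.2).card + p.2.card = (p.1 ∪ p.2).card := Finset.card_sdiff_add_card _ _
      omega
    by_cases hcase : m ≤ (Finset.univ \ (p.1 ∪ p.2)).card
    · have hev := evA_outer p.1 p.2 (1 / Real.sqrt m) hc0 (by
        refine (choose_half_le _ (by omega)).trans ?_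
        rw [div_eq_mul_one_div]
        apply mul_le_mul_of_nonneg_left _ (by positivity)
        apply one_div_le_one_div_of_le (by linarith)
        exact Real.sqrt_le_sqrt (by exact_mod_cast h1))
      refine hev.trans ?_
      apply mul_le_mul_of_nonneg_right _ (by positivity)
      exact pow_le_pow_of_le_one hc0 hc1 hcase
    · have hev := evA_inner p.1 p.2 m hm
      refine hev.trans ?_
      apply mul_le_mul_of_nonneg_right _ (by positivity)
      apply pow_le_pow_of_le_one hc0 hc1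
      have := card_Jm (p.1 \ p.2) m
      omega
  calc ((Finset.univ.filter (fun ω : Sym2 (Fin n) → Bool => ∃ v : Fin n → ℝ, v ≠ 0 ∧
        (∀ i, row ω i v = 0) ∧ m ≤ (supp v).card ∧ 4 * m ≤ n - (supp v).card)).card : ℝ)
      ≤ ((Pr.biUnion (fun p => Finset.univ.filter (EvA p.1 p.2))).card : ℝ) := by
        exact_mod_cast Finset.card_le_card hsub
    _ ≤ ∑ p ∈ Pr, ((Finset.univ.filter (EvA p.1 p.2)).card : ℝ) := by
        exact_mod_cast Finset.card_biUnion_le
    _ ≤ ∑ p ∈ Pr, (1 / Real.sqrt m) ^ m * Fintype.card (Sym2 (Fin n) → Bool) :=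
        Finset.sum_le_sum hone
    _ = Pr.card * ((1 / Real.sqrt m) ^ m * Fintype.card (Sym2 (Fin n) → Bool)) := by
        rw [Finset.sum_const, nsmul_eq_mul]
    _ ≤ 4 ^ n * ((1 / Real.sqrt m) ^ m * Fintype.card (Sym2 (Fin n) → Bool)) := by
        apply mul_le_mul_of_nonneg_right _ (by positivity)
        have h4 : Pr.card ≤ 4 ^ n := by
          refine (Finset.card_le_univ _).trans (le_of_eq ?_)
          rw [Fintype.card_prod, Fintype.card_finset, Fintype.card_fin, ← mul_pow]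
          norm_num
        exact_mod_cast h4
    _ = _ := by ring

open Classical in
/-- Small supports. -/
theorem union_small (m : ℕ) (x : ℝ) (hx0 : 0 < x) (hx1 : x ≤ 1) :
    ((Finset.univ.filter (fun ω : Sym2 (Fin n) → Bool => ∃ v : Fin n → ℝ, v ≠ 0 ∧
        (∀ i, row ω i v = 0) ∧ 3 ≤ (supp v).card ∧ (supp v).card ≤ m)).card : ℝ) ≤
      ((1 + x) ^ n / x ^ m) ^ 2 * (3 / 8) ^ (n - 2 * m) *
        Fintype.card (Sym2 (Fin n) → Bool) := by
  set Sm : Finset (Finset (Fin n)) := Finset.univ.filter (fun S => S.card ≤ m) with hSm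
  set Pr : Finset (Finset (Fin n) × Finset (Fin n)) := (Sm ×ˢ Sm).filter (fun p =>
    3 ≤ p.1.card) with hPr
  have hsub : (Finset.univ.filter (fun ω : Sym2 (Fin n) → Bool => ∃ v : Fin n → ℝ, v ≠ 0 ∧
        (∀ i, row ω i v = 0) ∧ 3 ≤ (supp v).card ∧ (supp v).card ≤ m)) ⊆
      Pr.biUnion (fun p => Finset.univ.filter (EvA p.1 p.2)) := by
    intro ω hω
    obtain ⟨v, hv0, hk, h1, h2⟩ := (Finset.mem_filter.1 hω).2
    obtain ⟨I, hI, hE⟩ := exists_evA ω v hv0 hk
    rw [Finset.mem_biUnion]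
    refine ⟨(supp v, I), ?_, ?_⟩
    · rw [hPr, Finset.mem_filter, Finset.mem_product]
      refine ⟨⟨?_, ?_⟩, h1⟩
      · exact Finset.mem_filter.2 ⟨Finset.mem_univ _, h2⟩
      · refine Finset.mem_filter.2 ⟨Finset.mem_univ _, ?_⟩
        simp only
        omega
    · exact Finset.mem_filter.2 ⟨Finset.mem_univ _, hE⟩
  have hone : ∀ p ∈ Pr, ((Finset.univ.filter (EvA p.1 p.2)).card : ℝ) ≤
      (3 / 8) ^ (n - 2 * m) * Fintype.card (Sym2 (Fin n) → Bool) := by
    intro p hp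
    obtain ⟨h1, h2⟩ := Finset.mem_filter.1 hp
    rw [Finset.mem_product] at h1
    have h3 : p.1.card ≤ m := (Finset.mem_filter.1 h1.1).2
    have h4 : p.2.card ≤ m := (Finset.mem_filter.1 h1.2).2
    have hev := evA_outer p.1 p.2 (3 / 8) (by norm_num) (by
      have := choose_half_three p.1.card h2
      have h5 : (8 : ℝ) * ((p.1.card.choose (p.1.card / 2) : ℕ) : ℝ) ≤ 3 * 2 ^ p.1.card := by
        exact_mod_cast this
      linarith)
    refine hev.trans ?_
    apply mul_le_mul_of_nonneg_right _ (by positivity)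
    apply pow_le_pow_of_le_one (by norm_num) (by norm_num)
    have e1 : (Finset.univ \ (p.1 ∪ p.2)).card + (p.1 ∪ p.2).card = n := by
      rw [Finset.card_sdiff_of_subset (Finset.subset_univ _), Finset.card_univ,
        Fintype.card_fin]
      have := Finset.card_le_univ (p.1 ∪ p.2)
      rw [Fintype.card_fin] at this
      omega
    have e2 := Finset.card_union_le p.1 p.2
    omega
  have hPrc : (Pr.card : ℝ) ≤ ((1 + x) ^ n / x ^ m) ^ 2 := by
    have h1 : Pr.card ≤ Sm.card * Sm.card := by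
      refine (Finset.card_filter_le _ _).trans ?_
      rw [Finset.card_product]
    have h2 : (Pr.card : ℝ) ≤ (Sm.card : ℝ) * Sm.card := by exact_mod_cast h1
    have h3 := card_small_sets (n := n) m x hx0 hx1
    rw [sq]
    refine h2.trans ?_
    exact mul_le_mul h3 h3 (by positivity) (by positivity)
  calc ((Finset.univ.filter (fun ω : Sym2 (Fin n) → Bool => ∃ v : Fin n → ℝ, v ≠ 0 ∧
        (∀ i, row ω i v = 0) ∧ 3 ≤ (supp v).card ∧ (supp v).card ≤ m)).card : ℝ)
      ≤ ((Pr.biUnion (fun p => Finset.univ.filter (EvA p.1 p.2))).card : ℝ) := by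
        exact_mod_cast Finset.card_le_card hsub
    _ ≤ ∑ p ∈ Pr, ((Finset.univ.filter (EvA p.1 p.2)).card : ℝ) := by
        exact_mod_cast Finset.card_biUnion_le
    _ ≤ ∑ p ∈ Pr, (3 / 8) ^ (n - 2 * m) * (Fintype.card (Sym2 (Fin n) → Bool) : ℝ) :=
        Finset.sum_le_sum hone
    _ = Pr.card * ((3 / 8) ^ (n - 2 * m) * (Fintype.card (Sym2 (Fin n) → Bool) : ℝ)) := by
        rw [Finset.sum_const, nsmul_eq_mul]
    _ ≤ ((1 + x) ^ n / x ^ m) ^ 2 *
          ((3 / 8) ^ (n - 2 * m) * (Fintype.card (Sym2 (Fin n) → Bool) : ℝ)) :=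
        mul_le_mul_of_nonneg_right hPrc (by positivity)
    _ = _ := by ring

/-- The base of the exponential bound for level patterns. -/
noncomputable def bb (n m : ℕ) (ρ : ℝ) : ℝ :=
  n * (4 * ρ * (32 / m * Real.sqrt (32 / m))) ^ (3 / 4 : ℝ)

open Classical in
/-- One level pattern, summed over the maps `φ`. -/
theorem one_pattern (N L I : Finset (Fin n)) (σ : Fin n → Bool) (m : ℕ) (hm : 32 ≤ m)
    (hN : m ≤ N.card) (ρ : ℝ) (hρ1 : 1 ≤ ρ) (hρ : ρ ^ 8 = n) (j : ℕ) (hj : j < 8)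
    (hL : (L.card : ℝ) * (2 * ρ ^ j) ≤ n) (hI : I.card + 1 + N.card ≤ n)
    (hc : 8 * n * (32 / m * Real.sqrt (32 / m)) ≤ 1) (hb : bb n m ρ ≤ 1) :
    ∑ φ ∈ Fintype.piFinset (fun i => if i ∈ N then L else {i}),
      ((Finset.univ.filter (EvB N φ σ I (2 * ρ ^ j * ρ) (N.card / 16))).card : ℝ) ≤
      bb n m ρ ^ m * Fintype.card (Sym2 (Fin n) → Bool) := by
  set q := N.card with hq
  set T : ℝ := 2 * ρ ^ j with hT
  have hρ0 : 0 < ρ := by linarith
  have hm' : (0 : ℝ) < m := by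
    have : 0 < m := by omega
    exact_mod_cast this
  have hT1 : 1 ≤ T := by
    have : 1 ≤ ρ ^ j := one_le_pow₀ hρ1
    rw [hT]
    linarith
  set a : ℝ := 32 / m with ha
  have ha0 : 0 < a := by positivity
  set c0 : ℝ := 4 * (T * ρ) * (a * Real.sqrt a) with hc0
  have hc00 : 0 < c0 := by positivity
  have hc01 : c0 ≤ 1 := by
    have h1 : T * ρ ≤ 2 * n := by
      rw [hT, mul_assoc, ← pow_succ, ← hρ]
      apply mul_le_mul_of_nonneg_left _ (by norm_num)
      exact pow_le_pow_right₀ hρ1 (by omega)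
    calc c0 ≤ 4 * (2 * n) * (a * Real.sqrt a) := by
          rw [hc0]
          apply mul_le_mul_of_nonneg_right _ (by positivity)
          linarith
      _ = 8 * n * (a * Real.sqrt a) := by ring
      _ ≤ 1 := hc
  -- each event
  have hev : ∀ φ ∈ Fintype.piFinset (fun i => if i ∈ N then L else {i}),
      ((Finset.univ.filter (EvB N φ σ I (T * ρ) (q / 16))).card : ℝ) ≤
      (c0 ^ (3 / 4 : ℝ)) ^ q * Fintype.card (Sym2 (Fin n) → Bool) := by
    intro φ _
    have h1 := evB_bound N φ σ I (T * ρ) (by positivity) (q / 16) (q / 4) (q / 16)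
      (by omega) (by omega)
    refine h1.trans ?_
    apply mul_le_mul_of_nonneg_right _ (by positivity)
    have hk : (0 : ℝ) < ((q / 16 : ℕ) : ℝ) := by
      have : 0 < q / 16 := by omega
      exact_mod_cast this
    have hk2 : 1 / a ≤ ((q / 16 : ℕ) : ℝ) := by
      rw [ha, one_div_div]
      have h2 : q ≤ 32 * (q / 16) := by omega
      have h3 : m ≤ 32 * (q / 16) := by omega
      have h4 : (m : ℝ) ≤ 32 * ((q / 16 : ℕ) : ℝ) := by exact_mod_cast h3
      linarith
    have hcle : 4 * (T * ρ) / (((q / 16 : ℕ) : ℝ) * Real.sqrt ((q / 16 : ℕ) : ℝ)) ≤ c0 := by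
      have h5 : (1 / a) * Real.sqrt (1 / a) ≤
          ((q / 16 : ℕ) : ℝ) * Real.sqrt ((q / 16 : ℕ) : ℝ) := by
        apply mul_le_mul hk2 (Real.sqrt_le_sqrt hk2) (by positivity) (by positivity)
      calc 4 * (T * ρ) / (((q / 16 : ℕ) : ℝ) * Real.sqrt ((q / 16 : ℕ) : ℝ))
          ≤ 4 * (T * ρ) / ((1 / a) * Real.sqrt (1 / a)) := by
            apply div_le_div_of_nonneg_left (by positivity) (by positivity) h5
        _ = c0 := by
            rw [hc0, Real.sqrt_div zero_le_one, Real.sqrt_one]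
            field_simp
    have hnn : 0 ≤ 4 * (T * ρ) / (((q / 16 : ℕ) : ℝ) * Real.sqrt ((q / 16 : ℕ) : ℝ)) := by
      positivity
    have hJ : q - q / 4 ≤ (Jm (Finset.univ \ I) (q / 4)).card := by
      have h6 := card_Jm (Finset.univ \ I) (q / 4)
      have h7 : (Finset.univ \ I).card = n - I.card := by
        rw [Finset.card_sdiff_of_subset (Finset.subset_univ _), Finset.card_univ,
          Fintype.card_fin]
      omega
    calc (4 * (T * ρ) / (((q / 16 : ℕ) : ℝ) * Real.sqrt ((q / 16 : ℕ) : ℝ))) ^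
          (Jm (Finset.univ \ I) (q / 4)).card
        ≤ c0 ^ (Jm (Finset.univ \ I) (q / 4)).card := pow_le_pow_left₀ hnn hcle _
      _ ≤ c0 ^ (q - q / 4) := pow_le_pow_of_le_one hc00.le hc01 hJ
      _ ≤ (c0 ^ (3 / 4 : ℝ)) ^ q := by
          rw [← Real.rpow_natCast (c0 ^ (3 / 4 : ℝ)) q, ← Real.rpow_mul hc00.le,
            ← Real.rpow_natCast c0 (q - q / 4)]
          apply Real.rpow_le_rpow_of_exponent_ge hc00 hc01
          have h8 : 3 * q ≤ 4 * (q - q / 4) := by omega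
          have h9 : (3 : ℝ) * q ≤ 4 * ((q - q / 4 : ℕ) : ℝ) := by exact_mod_cast h8
          linarith
  have hcardφ : (Fintype.piFinset (fun i => if i ∈ N then L else {i})).card = L.card ^ q := by
    rw [Fintype.card_piFinset]
    rw [← Finset.prod_subset (Finset.subset_univ N)]
    · rw [Finset.prod_congr rfl (g := fun _ => L.card)]
      · rw [Finset.prod_const]
      · intro i hi
        simp [hi]
    · intro i _ hi
      simp [hi]
  have hbase : (L.card : ℝ) * c0 ^ (3 / 4 : ℝ) ≤ bb n m ρ := by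
    have h1 : (L.card : ℝ) ≤ n / T := by
      rw [le_div_iff₀ (by linarith)]
      exact hL
    have h2 : c0 = T * (4 * ρ * (a * Real.sqrt a)) := by
      rw [hc0]
      ring
    have h3 : c0 ^ (3 / 4 : ℝ) = T ^ (3 / 4 : ℝ) * (4 * ρ * (a * Real.sqrt a)) ^ (3 / 4 : ℝ) := by
      rw [h2, Real.mul_rpow (by linarith) (by positivity)]
    have h4 : T ^ (3 / 4 : ℝ) ≤ T := by
      conv_rhs => rw [← Real.rpow_one T]
      exact Real.rpow_le_rpow_of_exponent_le hT1 (by norm_num)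
    unfold bb
    rw [h3]
    have hT0 : 0 < T := by linarith
    calc (L.card : ℝ) * (T ^ (3 / 4 : ℝ) * (4 * ρ * (a * Real.sqrt a)) ^ (3 / 4 : ℝ))
        ≤ (n / T) * (T * (4 * ρ * (a * Real.sqrt a)) ^ (3 / 4 : ℝ)) := by
          apply mul_le_mul h1 _ (by positivity) (by positivity)
          apply mul_le_mul_of_nonneg_right h4 (by positivity)
      _ = n * (4 * ρ * (a * Real.sqrt a)) ^ (3 / 4 : ℝ) := by
          field_simp
  have hbb0 : 0 ≤ bb n m ρ := by
    unfold bb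
    positivity
  calc ∑ φ ∈ Fintype.piFinset (fun i => if i ∈ N then L else {i}),
      ((Finset.univ.filter (EvB N φ σ I (T * ρ) (q / 16))).card : ℝ)
      ≤ ∑ φ ∈ Fintype.piFinset (fun i => if i ∈ N then L else {i}),
        (c0 ^ (3 / 4 : ℝ)) ^ q * (Fintype.card (Sym2 (Fin n) → Bool) : ℝ) :=
        Finset.sum_le_sum hev
    _ = ((L.card : ℝ) * c0 ^ (3 / 4 : ℝ)) ^ q * Fintype.card (Sym2 (Fin n) → Bool) := by
        rw [Finset.sum_const, hcardφ, nsmul_eq_mul, mul_pow]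
        push_cast
        ring
    _ ≤ bb n m ρ ^ m * Fintype.card (Sym2 (Fin n) → Bool) := by
        apply mul_le_mul_of_nonneg_right _ (by positivity)
        calc ((L.card : ℝ) * c0 ^ (3 / 4 : ℝ)) ^ q ≤ bb n m ρ ^ q :=
              pow_le_pow_left₀ (by positivity) hbase _
          _ ≤ bb n m ρ ^ m := pow_le_pow_of_le_one hbb0 hb hN

open Classical in
/-- Structured vectors with few zeros. -/
theorem union_pat (m : ℕ) (hm : 32 ≤ m) (ρ : ℝ) (hρ1 : 1 ≤ ρ) (hρ : ρ ^ 8 = n)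
    (hc : 8 * n * (32 / m * Real.sqrt (32 / m)) ≤ 1) (hb : bb n m ρ ≤ 1) :
    ((Finset.univ.filter (fun ω : Sym2 (Fin n) → Bool => ∃ v : Fin n → ℝ, v ≠ 0 ∧
        (∀ i, row ω i v = 0) ∧ n - (supp v).card < 4 * m ∧
        (absv v).card + 8 * 64 ^ 8 * m ≤ n)).card : ℝ) ≤
      8 * 16 ^ n * bb n m ρ ^ m * Fintype.card (Sym2 (Fin n) → Bool) := by
  set Pr : Finset (Fin 8 × Finset (Fin n) × Finset (Fin n) × Finset (Fin n) × (Fin n → Bool)) :=
    Finset.univ.filter (fun p => m ≤ p.2.1.card ∧ ((p.2.2.1.card : ℝ) * (2 * ρ ^ (p.1 : ℕ)) ≤ n) ∧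
      p.2.2.2.1.card + 1 + p.2.1.card ≤ n) with hPr
  have hsub : (Finset.univ.filter (fun ω : Sym2 (Fin n) → Bool => ∃ v : Fin n → ℝ, v ≠ 0 ∧
        (∀ i, row ω i v = 0) ∧ n - (supp v).card < 4 * m ∧
        (absv v).card + 8 * 64 ^ 8 * m ≤ n)) ⊆
      Pr.biUnion (fun p => (Fintype.piFinset (fun i => if i ∈ p.2.1 then p.2.2.1 else {i})).biUnion
        (fun φ => Finset.univ.filter (EvB p.2.1 φ p.2.2.2.2 p.2.2.2.1
          (2 * ρ ^ (p.1 : ℕ) * ρ) (p.2.1.card / 16)))) := by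
    intro ω hω
    obtain ⟨v, hv0, hk, h1, h2⟩ := (Finset.mem_filter.1 hω).2
    obtain ⟨j, hj, N, L, I, φ, σ, e1, e2, e3, e4, e5⟩ :=
      exists_pattern ω v hv0 hk ρ hρ1 hρ m (by omega) h1 h2
    rw [Finset.mem_biUnion]
    refine ⟨(⟨j, hj⟩, N, L, I, σ), ?_, ?_⟩
    · rw [hPr, Finset.mem_filter]
      exact ⟨Finset.mem_univ _, e1, e2, e4⟩
    · rw [Finset.mem_biUnion]
      exact ⟨φ, e3, Finset.mem_filter.2 ⟨Finset.mem_univ _, e5⟩⟩
  have hone : ∀ p ∈ Pr, (((Fintype.piFinset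
        (fun i => if i ∈ p.2.1 then p.2.2.1 else {i})).biUnion
        (fun φ => Finset.univ.filter (EvB p.2.1 φ p.2.2.2.2 p.2.2.2.1
          (2 * ρ ^ (p.1 : ℕ) * ρ) (p.2.1.card / 16)))).card : ℝ) ≤
      bb n m ρ ^ m * Fintype.card (Sym2 (Fin n) → Bool) := by
    intro p hp
    obtain ⟨h1, h2, h3⟩ := (Finset.mem_filter.1 hp).2
    refine le_trans ?_ (one_pattern p.2.1 p.2.2.1 p.2.2.2.1 p.2.2.2.2 m hm h1 ρ hρ1 hρ
      (p.1 : ℕ) p.1.2 h2 h3 hc hb)
    exact_mod_cast Finset.card_biUnion_le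
  have hbb0 : 0 ≤ bb n m ρ := by
    unfold bb
    positivity
  calc ((Finset.univ.filter (fun ω : Sym2 (Fin n) → Bool => ∃ v : Fin n → ℝ, v ≠ 0 ∧
        (∀ i, row ω i v = 0) ∧ n - (supp v).card < 4 * m ∧
        (absv v).card + 8 * 64 ^ 8 * m ≤ n)).card : ℝ)
      ≤ _ := Nat.cast_le.2 (Finset.card_le_card hsub)
    _ ≤ ∑ p ∈ Pr, (((Fintype.piFinset
        (fun i => if i ∈ p.2.1 then p.2.2.1 else {i})).biUnion
        (fun φ => Finset.univ.filter (EvB p.2.1 φ p.2.2.2.2 p.2.2.2.1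
          (2 * ρ ^ (p.1 : ℕ) * ρ) (p.2.1.card / 16)))).card : ℝ) := by
        exact_mod_cast Finset.card_biUnion_le
    _ ≤ ∑ p ∈ Pr, bb n m ρ ^ m * (Fintype.card (Sym2 (Fin n) → Bool) : ℝ) :=
        Finset.sum_le_sum hone
    _ = Pr.card * (bb n m ρ ^ m * (Fintype.card (Sym2 (Fin n) → Bool) : ℝ)) := by
        rw [Finset.sum_const, nsmul_eq_mul]
    _ ≤ (8 * 16 ^ n) * (bb n m ρ ^ m * (Fintype.card (Sym2 (Fin n) → Bool) : ℝ)) := by
        apply mul_le_mul_of_nonneg_right _ (by positivity)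
        have h4 : Pr.card ≤ 8 * 16 ^ n := by
          refine (Finset.card_le_univ _).trans (le_of_eq ?_)
          simp only [Fintype.card_prod, Fintype.card_finset, Fintype.card_fin,
            Fintype.card_pi, Fintype.card_bool, Finset.prod_const, Finset.card_univ]
          rw [← mul_pow, ← mul_pow, ← mul_pow]
          norm_num
        exact_mod_cast h4
    _ = _ := by ring

end SingG
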